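import Pool.Agent.Lib.SPC.E

/-! Symmetric formal Fourier-Jacobi series of degree two with values in a Banach space. -/

namespace Pool.Agent.Results.MP_386e47_ag.SpecialCycles

open Complex Finset

variable {V : Type*} [NormedAddCommGroup V] [NormedSpace ℂ V]

/-- The `m`-th Fourier-Jacobi coefficient
`φ_m(τ,z) = ∑ a(n,r,m) e((nτ+rz)/N)`, the sum over `n ≥ 0` and `|r| ≤ n + m`. -/
noncomputable def FJ (N : ℕ) (a : ℕ → ℤ → ℕ → V) (m : ℕ) (τ z : ℂ) : V :=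
  ∑' n : ℕ, ∑ r ∈ Icc (-(n + m : ℤ)) (n + m), e ((n * τ + r * z) / N) • a n r m

/-- Symmetric formal Fourier-Jacobi series of degree two, weight `k` and denominator `N`
(coefficient `a(n,r,m)` at the matrix `(1/N)(n, r/2; r/2, m)`), for unitary multipliers. -/
structure IsSym (N : ℕ) (k : ℝ) (a : ℕ → ℤ → ℕ → V) : Prop where
  supp : ∀ (n : ℕ) (r : ℤ) (m : ℕ), (4 * n * m : ℤ) < r ^ 2 → a n r m = 0
  symm : ∀ (n : ℕ) (r : ℤ) (m : ℕ), ‖a m r n‖ = ‖a n r m‖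
  conv : ∀ (m : ℕ) (x : ℝ), 0 ≤ x → x < 1 →
    Summable fun n : ℕ ↦ (∑ r ∈ Icc (-(n + m : ℤ)) (n + m), ‖a n r m‖) * x ^ n
  shift : ∀ (m : ℕ) (τ z : ℂ), 0 < τ.im → ‖FJ N a m (τ + 1) z‖ = ‖FJ N a m τ z‖
  inv : ∀ (m : ℕ) (τ z : ℂ), 0 < τ.im →
    ‖FJ N a m (-1 / τ) (z / τ)‖ = ‖τ‖ ^ k * ‖e (m / N * z ^ 2 / τ)‖ * ‖FJ N a m τ z‖
  lattice : ∀ (m : ℕ) (τ z : ℂ) (l u : ℤ), 0 < τ.im →
    ‖FJ N a m τ (z + l * τ + u)‖ = ‖e (-(m / N) * (l ^ 2 * τ + 2 * l * z))‖ * ‖FJ N a m τ z‖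

/-- The statement. -/
def Statement : Prop := ∀ (V : Type) [NormedAddCommGroup V] [NormedSpace ℂ V] [CompleteSpace V]
    (N : ℕ) (k : ℝ) (ν : ℕ) (a : ℕ → ℤ → ℕ → V), 0 < N → IsSym N k a → k < 5 * ν →
    (∀ (n m j : ℕ), j < ν → ∑ r ∈ Icc (-(n + m : ℤ)) (n + m), (r : ℂ) ^ j • a n r m = 0) →
    ∀ (n : ℕ) (r : ℤ) (m : ℕ), a n r m = 0

end Pool.Agent.Results.MP_386e47_ag.SpecialCycles
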