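import Mathlib

/-! A Banach-valued holomorphic function on the upper half plane whose norm transforms like a
modular form of real weight `k` and decays like `e^{-2πMv}` with `12 M > k` is zero. -/

namespace Pool.Agent.Results.MP_386e47_ag.SpecialCycles

open Complex Filter Topology Asymptotics UpperHalfPlane
open scoped MatrixGroups ModularForm

lemma inv_SL {u : ℍ → ℝ} (hT : ∀ z, u (ModularGroup.T • z) = u z)
    (hS : ∀ z, u (ModularGroup.S • z) = u z) (γ : SL(2, ℤ)) : ∀ z, u (γ • z) = u z := by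
  have h : γ ∈ Subgroup.closure {ModularGroup.S, ModularGroup.T} := by
    simp [SpecialLinearGroup.SL2Z_generators]
  induction h using Subgroup.closure_induction with
  | mem x hx =>
    rcases hx with rfl | rfl
    · exact hS
    · exact hT
  | one => intro z; simp
  | mul x y _ _ hx hy => intro z; rw [mul_smul, hx, hy]
  | inv x _ hx =>
    intro z
    have := hx (x⁻¹ • z)
    rw [smul_inv_smul] at this
    exact this.symm

lemma exists_max {u : ℍ → ℝ} (hc : Continuous u) (hT : ∀ z, u (ModularGroup.T • z) = u z)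
    (hS : ∀ z, u (ModularGroup.S • z) = u z)
    (h0 : Tendsto u atImInfty (𝓝 0)) {z1 : ℍ} (hz1 : 0 < u z1) : ∃ z0, ∀ z, u z ≤ u z0 := by
  obtain ⟨A, hA⟩ := (atImInfty_mem _).mp (h0.eventually_lt_const hz1)
  have hK := ModularGroup.isCompact_truncatedFundamentalDomain A
  obtain ⟨γ, hγ⟩ := ModularGroup.exists_smul_mem_fd z1
  have hγ' : (γ • z1).im ≤ A := by
    by_contra h
    push Not at h
    have h3 : u (γ • z1) < u z1 := hA _ h.le
    rw [inv_SL hT hS] at h3
    exact lt_irrefl _ h3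
  obtain ⟨z0, hz0, hmax⟩ := hK.exists_isMaxOn ⟨γ • z1, hγ, hγ'⟩ hc.continuousOn
  refine ⟨z0, fun z ↦ ?_⟩
  obtain ⟨δ, hδ⟩ := ModularGroup.exists_smul_mem_fd z
  rw [← inv_SL hT hS δ z]
  by_cases h : (δ • z).im ≤ A
  · exact hmax ⟨hδ, h⟩
  · push Not at h
    have h3 : u (δ • z) < u z1 := hA _ h.le
    have h1 : u (γ • z1) ≤ u z0 := hmax ⟨hγ, hγ'⟩
    rw [inv_SL hT hS] at h1
    exact (h3.trans_le h1).le

/-- The function `η^24` on `ℂ`. -/
noncomputable def D24 (τ : ℂ) : ℂ := ModularForm.eta τ ^ 24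

lemma D24_eq (z : ℍ) : D24 z = ModularForm.discriminant z := rfl

lemma D24_ne {τ : ℂ} (hτ : 0 < τ.im) : D24 τ ≠ 0 := pow_ne_zero _ (ModularForm.eta_ne_zero hτ)

lemma D24_diff {τ : ℂ} (hτ : 0 < τ.im) : DifferentiableAt ℂ D24 τ :=
  (ModularForm.differentiableAt_eta_of_mem_upperHalfPlaneSet hτ).pow _

lemma D24_T (z : ℍ) : D24 ((ModularGroup.T • z : ℍ) : ℂ) = D24 z := by
  have h := congrFun ModularForm.discriminant_T_invariant z
  rw [ModularForm.SL_slash_apply] at h
  rw [D24_eq, D24_eq]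
  simpa [denom, ModularGroup.T] using h

lemma D24_S (z : ℍ) : D24 ((ModularGroup.S • z : ℍ) : ℂ) = (z : ℂ) ^ 12 * D24 z := by
  have h := congrFun ModularForm.discriminant_S_invariant z
  rw [ModularForm.SL_slash_apply] at h
  have h2 : ModularForm.discriminant (ModularGroup.S • z) * ((z : ℂ) ^ 12)⁻¹ =
      ModularForm.discriminant z := by
    simpa [denom, ModularGroup.S] using h
  rw [D24_eq, D24_eq, ← h2]
  have : (z : ℂ) ≠ 0 := z.ne_zero
  field_simp

/-- The invariant function. -/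
noncomputable def uf {V : Type*} [NormedAddCommGroup V] (g : ℂ → V) (k : ℝ) (τ : ℂ) : ℝ :=
  ‖g τ‖ * ‖D24 τ‖ ^ (-(k / 12))

instance neBot_atImInfty : NeBot atImInfty := by
  unfold atImInfty
  rw [comap_neBot_iff]
  intro t ht
  obtain ⟨A, hA⟩ := mem_atTop_sets.mp ht
  refine ⟨⟨(max A 1 : ℝ) * Complex.I, ?_⟩, hA _ ?_⟩
  · simp
  · simp [UpperHalfPlane.im]

lemma tendsto_exp_atImInfty {a : ℝ} (ha : 0 < a) :
    Tendsto (fun z : ℍ ↦ Real.exp (-(a * z.im))) atImInfty (𝓝 0) := by
  have h1 : Tendsto (fun z : ℍ ↦ z.im) atImInfty atTop := tendsto_comap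
  have h2 := h1.const_mul_atTop ha
  exact Real.tendsto_exp_atBot.comp (tendsto_neg_atTop_atBot.comp h2)

variable {V : Type*} [NormedAddCommGroup V] [NormedSpace ℂ V]

lemma uf_local {g : ℂ → V} {k : ℝ} (hd : DifferentiableOn ℂ g {τ | 0 < τ.im}) {τ₀ : ℂ}
    (hτ₀ : 0 < τ₀.im) (hmax : ∀ τ : ℂ, 0 < τ.im → uf g k τ ≤ uf g k τ₀) :
    ∀ᶠ τ in 𝓝 τ₀, uf g k τ = uf g k τ₀ := by
  have hopen : IsOpen {τ : ℂ | 0 < τ.im} := isOpen_lt continuous_const Complex.continuous_im
  set F : ℂ → V := fun τ ↦ (D24 τ / D24 τ₀) ^ ((-(k / 12) : ℝ) : ℂ) • g τ with hF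
  have hD0 := D24_ne hτ₀
  have hup : ∀ᶠ τ in 𝓝 τ₀, 0 < τ.im := hopen.mem_nhds hτ₀
  have hslit : ∀ᶠ τ in 𝓝 τ₀, D24 τ / D24 τ₀ ∈ slitPlane := by
    have hcont : ContinuousAt (fun τ ↦ D24 τ / D24 τ₀) τ₀ :=
      (D24_diff hτ₀).continuousAt.div_const _
    apply hcont.eventually_mem
    rw [div_self hD0]
    exact isOpen_slitPlane.mem_nhds one_mem_slitPlane
  have hdF : ∀ᶠ τ in 𝓝 τ₀, DifferentiableAt ℂ F τ := by
    filter_upwards [hup, hslit] with τ h1 h2
    exact (((D24_diff h1).div_const _).cpow_const h2).smul (hd.differentiableAt (hopen.mem_nhds h1))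
  have hnorm : ∀ τ, ‖F τ‖ = uf g k τ * ‖D24 τ₀‖ ^ (k / 12) := by
    intro τ
    rw [hF]
    simp only
    rw [norm_smul, Complex.norm_cpow_real, norm_div, Real.div_rpow (norm_nonneg _) (norm_nonneg _),
      uf, Real.rpow_neg (norm_nonneg (D24 τ₀))]
    field_simp
  have hp : 0 < ‖D24 τ₀‖ ^ (k / 12) := Real.rpow_pos_of_pos (norm_pos_iff.mpr hD0) _
  have hloc : IsLocalMax (norm ∘ F) τ₀ := by
    filter_upwards [hup] with τ h1
    simp only [Function.comp, hnorm]
    exact mul_le_mul_of_nonneg_right (hmax τ h1) hp.le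
  filter_upwards [norm_eventually_eq_of_isLocalMax hdF hloc] with τ h1
  rw [hnorm, hnorm] at h1
  exact mul_right_cancel₀ hp.ne' h1

theorem eq_zero_of_decay {g : ℂ → V} {k M C : ℝ} (hd : DifferentiableOn ℂ g {τ | 0 < τ.im})
    (h1 : ∀ τ : ℂ, 0 < τ.im → ‖g (τ + 1)‖ = ‖g τ‖)
    (h2 : ∀ τ : ℂ, 0 < τ.im → ‖g (-1 / τ)‖ = ‖τ‖ ^ k * ‖g τ‖)
    (hM : 0 ≤ M) (hk : k < 12 * M)
    (hb : ∀ τ : ℂ, 1 ≤ τ.im → ‖g τ‖ ≤ C * Real.exp (-(2 * Real.pi * M * τ.im))) :
    ∀ τ : ℂ, 0 < τ.im → g τ = 0 := by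
  intro τ1 hτ1
  by_contra hne
  have hpi := Real.pi_pos
  have hopen : IsOpen {τ : ℂ | 0 < τ.im} := isOpen_lt continuous_const Complex.continuous_im
  set u : ℍ → ℝ := fun z ↦ uf g k z with hu
  have hDc : Continuous fun z : ℍ ↦ D24 (z : ℂ) := by
    rw [continuous_iff_continuousAt]
    intro z
    exact ContinuousAt.comp (f := ((↑) : ℍ → ℂ)) (D24_diff z.im_pos).continuousAt
      UpperHalfPlane.continuous_coe.continuousAt
  have hgc : Continuous fun z : ℍ ↦ g (z : ℂ) := by
    rw [continuous_iff_continuousAt]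
    intro z
    exact ContinuousAt.comp (f := ((↑) : ℍ → ℂ))
      (hd.differentiableAt (hopen.mem_nhds z.im_pos)).continuousAt
      UpperHalfPlane.continuous_coe.continuousAt
  have hDne : ∀ z : ℍ, ‖D24 (z : ℂ)‖ ≠ 0 := fun z ↦ norm_ne_zero_iff.mpr (D24_ne z.im_pos)
  have hDpos : ∀ z : ℍ, 0 < ‖D24 (z : ℂ)‖ := fun z ↦ norm_pos_iff.mpr (D24_ne z.im_pos)
  have huc : Continuous u := by
    simp only [hu, uf]
    exact hgc.norm.mul (hDc.norm.rpow_const fun z ↦ Or.inl (hDne z))
  have hT : ∀ z, u (ModularGroup.T • z) = u z := by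
    intro z
    simp only [hu, uf]
    rw [D24_T]
    congr 1
    rw [UpperHalfPlane.modular_T_smul]
    have := h1 z z.im_pos
    simpa [add_comm] using this
  have hS : ∀ z, u (ModularGroup.S • z) = u z := by
    intro z
    simp only [hu, uf]
    have hz : 0 < ‖(z : ℂ)‖ := norm_pos_iff.mpr z.ne_zero
    have h3 : ((ModularGroup.S • z : ℍ) : ℂ) = -1 / (z : ℂ) := by
      rw [UpperHalfPlane.modular_S_smul]
      simp [neg_div, inv_neg]
    rw [D24_S, norm_mul, norm_pow, Real.mul_rpow (by positivity) (norm_nonneg _), h3,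
      h2 z z.im_pos, ← Real.rpow_natCast, ← Real.rpow_mul hz.le]
    have h4 : ((12 : ℕ) : ℝ) * -(k / 12) = -k := by push_cast; ring
    rw [h4, Real.rpow_neg hz.le]
    have h5 : ‖(z : ℂ)‖ ^ k ≠ 0 := (Real.rpow_pos_of_pos hz _).ne'
    field_simp
  have hC : 0 ≤ C := by
    have h3 := hb Complex.I (by simp)
    by_contra hC
    push Not at hC
    have h4 := (norm_nonneg _).trans h3
    have h5 : C * Real.exp (-(2 * Real.pi * M * Complex.I.im)) < 0 :=
      mul_neg_of_neg_of_pos hC (Real.exp_pos _)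
    linarith
  have hge : ∀ᶠ z : ℍ in atImInfty, 1 ≤ z.im :=
    (atImInfty_mem _).mpr ⟨1, fun z hz ↦ hz⟩
  have hlim : Tendsto u atImInfty (𝓝 0) := by
    have hu0 : ∀ z, 0 ≤ u z := fun z ↦ by simp only [hu, uf]; positivity
    rcases le_or_gt 0 k with hk0 | hk0
    · obtain ⟨c, hc, hc2⟩ := ModularForm.exp_isBigO_discriminant.exists_pos
      have hc3 := hc2.bound
      have hpos : 0 < 2 * Real.pi * (M - k / 12) := by
        apply mul_pos (by positivity); linarith
      have h4 := (tendsto_exp_atImInfty hpos).const_mul (C * c ^ (k / 12))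
      rw [mul_zero] at h4
      refine squeeze_zero' (Eventually.of_forall hu0) ?_ h4
      filter_upwards [hc3, hge] with z hz1 hz2
      have h5 : Real.exp (-2 * Real.pi * z.im) ≤ c * ‖D24 z‖ := by
        rw [Real.norm_of_nonneg (Real.exp_pos _).le] at hz1
        exact hz1
      have h6 : c⁻¹ * Real.exp (-2 * Real.pi * z.im) ≤ ‖D24 z‖ := by
        rw [inv_mul_le_iff₀ hc]; exact h5
      have h7 : ‖D24 z‖ ^ (-(k / 12)) ≤ (c⁻¹ * Real.exp (-2 * Real.pi * z.im)) ^ (-(k / 12)) :=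
        Real.rpow_le_rpow_of_nonpos (by positivity) h6 (by linarith)
      have h8 : (c⁻¹ * Real.exp (-2 * Real.pi * z.im)) ^ (-(k / 12)) =
          c ^ (k / 12) * Real.exp (2 * Real.pi * (k / 12) * z.im) := by
        rw [Real.mul_rpow (by positivity) (Real.exp_pos _).le, ← Real.exp_mul,
          Real.inv_rpow hc.le, Real.rpow_neg hc.le, inv_inv]
        congr 2
        ring
      have h9 := hb z hz2
      calc u z ≤ (C * Real.exp (-(2 * Real.pi * M * (z : ℂ).im))) *
            (c ^ (k / 12) * Real.exp (2 * Real.pi * (k / 12) * z.im)) := by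
              simp only [hu, uf]
              rw [← h8]
              exact mul_le_mul h9 h7 (by positivity) (by positivity)
        _ = C * c ^ (k / 12) * (Real.exp (-(2 * Real.pi * M * (z : ℂ).im)) *
            Real.exp (2 * Real.pi * (k / 12) * z.im)) := by ring
        _ = _ := by
              rw [← Real.exp_add]
              congr 2
              simp only [UpperHalfPlane.coe_im]
              ring
    · have h4 : Tendsto (fun z : ℍ ↦ ‖D24 z‖) atImInfty (𝓝 0) := by
        have h := Filter.Tendsto.norm ModularForm.discriminant_isZeroAtImInfty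
        rw [norm_zero] at h
        exact h
      have h5 := h4.rpow_const (p := -(k / 12)) (Or.inr (by linarith))
      rw [Real.zero_rpow (by linarith)] at h5
      have h6 := h5.const_mul C
      rw [mul_zero] at h6
      refine squeeze_zero' (Eventually.of_forall hu0) ?_ h6
      filter_upwards [hge] with z hz2
      have h9 := hb z hz2
      have h10 : Real.exp (-(2 * Real.pi * M * (z : ℂ).im)) ≤ 1 := by
        rw [Real.exp_le_one_iff]
        have : 0 ≤ (z : ℂ).im := z.im_pos.le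
        have := mul_nonneg (mul_nonneg (by positivity : 0 ≤ 2 * Real.pi) hM) this
        linarith
      simp only [hu, uf]
      apply mul_le_mul_of_nonneg_right _ (by positivity)
      calc _ ≤ _ := h9
        _ ≤ C * 1 := mul_le_mul_of_nonneg_left h10 hC
        _ = C := mul_one C
  have hz1 : 0 < u ⟨τ1, hτ1⟩ :=
    mul_pos (norm_pos_iff.mpr hne) (Real.rpow_pos_of_pos (norm_pos_iff.mpr (D24_ne hτ1)) _)
  obtain ⟨z0, hz0⟩ := exists_max huc hT hS hlim hz1
  have hclopen : IsClopen {z : ℍ | u z = u z0} := by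
    constructor
    · exact isClosed_eq huc continuous_const
    · rw [isOpen_iff_mem_nhds]
      intro z hz
      have hz' : u z = u z0 := hz
      have := uf_local (g := g) (k := k) hd z.im_pos (fun τ hτ ↦ by
        have := hz0 ⟨τ, hτ⟩
        rw [← hz'] at this
        exact this)
      have h3 := (UpperHalfPlane.continuous_coe.tendsto z).eventually this
      filter_upwards [h3] with w hw
      exact hw.trans hz'
  have huniv := hclopen.eq_univ ⟨z0, rfl⟩
  have hconst : ∀ z, u z = u z0 := fun z ↦ by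
    have : z ∈ {z : ℍ | u z = u z0} := by rw [huniv]; trivial
    exact this
  have h5 : Tendsto u atImInfty (𝓝 (u z0)) :=
    (tendsto_const_nhds).congr fun z ↦ (hconst z).symm
  have h6 := tendsto_nhds_unique hlim h5
  have h7 := hz0 ⟨τ1, hτ1⟩
  linarith

end Pool.Agent.Results.MP_386e47_ag.SpecialCycles
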