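import Pool.Agent.Lib.SPC.Theta

/-! Entire functions of given index: the order of vanishing at the origin is at most the index. -/

namespace Pool.Agent.Results.MP_386e47_ag.SpecialCycles

open Complex Filter Topology Asymptotics

set_option linter.unusedSectionVars false

variable {V : Type*} [NormedAddCommGroup V] [NormedSpace ℂ V]

/-- Division by a function with simple zeros. -/
lemma exists_div [CompleteSpace V] {f : ℂ → ℂ} {φ : ℂ → V} (hf : Differentiable ℂ f)
    (hφ : Differentiable ℂ φ)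
    (hs : ∀ z, f z = 0 → deriv f z ≠ 0) (h0 : ∀ z, f z = 0 → φ z = 0) :
    ∃ R : ℂ → V, Differentiable ℂ R ∧ ∀ z, φ z = f z • R z := by
  classical
  refine ⟨fun z ↦ if f z = 0 then (deriv f z)⁻¹ • deriv φ z else (f z)⁻¹ • φ z, ?_, ?_⟩
  · intro z0
    by_cases hz : f z0 = 0
    · have hF : DifferentiableAt ℂ (dslope f z0) z0 :=
        ((Complex.differentiableOn_dslope (s := Set.univ) univ_mem).mpr
          hf.differentiableOn).differentiableAt univ_mem
      have hP : DifferentiableAt ℂ (dslope φ z0) z0 :=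
        ((Complex.differentiableOn_dslope (s := Set.univ) univ_mem).mpr
          hφ.differentiableOn).differentiableAt univ_mem
      have hF0 : dslope f z0 z0 ≠ 0 := by rw [dslope_same]; exact hs z0 hz
      have hev : ∀ᶠ z in 𝓝 z0, dslope f z0 z ≠ 0 := hF.continuousAt.eventually_ne hF0
      have heq : (fun z ↦ if f z = 0 then (deriv f z)⁻¹ • deriv φ z else (f z)⁻¹ • φ z)
          =ᶠ[𝓝 z0] fun z ↦ (dslope f z0 z)⁻¹ • dslope φ z0 z := by
        filter_upwards [hev] with z hz1
        by_cases hzz : z = z0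
        · subst hzz
          simp [hz, dslope_same]
        · have hsub : z - z0 ≠ 0 := sub_ne_zero.mpr hzz
          have hf1 : f z = (z - z0) * dslope f z0 z := by
            rw [dslope_of_ne _ hzz, slope_def_field, hz]
            field_simp
            ring
          have hφ1 : φ z = (z - z0) • dslope φ z0 z := by
            rw [sub_smul_dslope, h0 z0 hz, sub_zero]
          have hfz : f z ≠ 0 := by rw [hf1]; exact mul_ne_zero hsub hz1
          simp only [hfz, if_false]
          rw [hφ1, hf1, mul_inv, smul_smul]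
          congr 1
          field_simp
      exact (hF.inv hF0).smul hP |>.congr_of_eventuallyEq heq
    · have hev : ∀ᶠ z in 𝓝 z0, f z ≠ 0 := (hf z0).continuousAt.eventually_ne hz
      have heq : (fun z ↦ if f z = 0 then (deriv f z)⁻¹ • deriv φ z else (f z)⁻¹ • φ z)
          =ᶠ[𝓝 z0] fun z ↦ (f z)⁻¹ • φ z := by
        filter_upwards [hev] with z hz1
        simp [hz1]
      exact ((hf z0).inv hz).smul (hφ z0) |>.congr_of_eventuallyEq heq
  · intro z
    by_cases hz : f z = 0
    · simp [hz, h0 z hz]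
    · simp [hz, smul_smul]

/-- Quasi-periodicity of the norm, index `A`, linear term `B`. -/
structure QP (τ : ℂ) (A B : ℝ) (φ : ℂ → V) : Prop where
  one : ∀ z, ‖φ (z + 1)‖ = ‖φ z‖
  tau : ∀ z, ‖φ (z + τ)‖ =
    ‖φ z‖ * Real.exp (Real.pi * (A * (2 * z.im + τ.im) - B * τ.im))

/-- The periodic weight. -/
noncomputable def wt (τ : ℂ) (A B : ℝ) (φ : ℂ → V) (z : ℂ) : ℝ :=
  ‖φ z‖ * Real.exp (Real.pi * (B * z.im - A * z.im ^ 2 / τ.im))

lemma QP.wt_one {τ : ℂ} {A B : ℝ} {φ : ℂ → V} (h : QP τ A B φ) (z : ℂ) :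
    wt τ A B φ (z + 1) = wt τ A B φ z := by
  unfold wt; rw [h.one]; simp

lemma QP.wt_tau {τ : ℂ} {A B : ℝ} {φ : ℂ → V} (hτ : 0 < τ.im) (h : QP τ A B φ) (z : ℂ) :
    wt τ A B φ (z + τ) = wt τ A B φ z := by
  unfold wt; rw [h.tau, mul_assoc, ← Real.exp_add]
  congr 2
  simp only [Complex.add_im]
  field_simp
  ring

lemma QP.wt_lattice {τ : ℂ} {A B : ℝ} {φ : ℂ → V} (hτ : 0 < τ.im) (h : QP τ A B φ) (z : ℂ)
    (l u : ℤ) : wt τ A B φ (z + l * τ + u) = wt τ A B φ z := by
  have h1 : Function.Periodic (wt τ A B φ) 1 := h.wt_one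
  have h2 : Function.Periodic (wt τ A B φ) τ := h.wt_tau hτ
  have h3 := h1.int_mul u (z + l * τ)
  have h4 := h2.int_mul l z
  rw [mul_one] at h3
  rw [h3, h4]

lemma QP.zero_lattice {τ : ℂ} {A B : ℝ} {φ : ℂ → V} (hτ : 0 < τ.im) (h : QP τ A B φ) {z : ℂ}
    (hz : φ z = 0) (l u : ℤ) : φ (z + l * τ + u) = 0 := by
  have := h.wt_lattice hτ z l u
  unfold wt at this
  rw [hz, norm_zero, zero_mul] at this
  have h2 := (mul_eq_zero.mp this).resolve_right (Real.exp_pos _).ne'
  simpa using h2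

lemma QP.bounded {τ : ℂ} {A B : ℝ} {φ : ℂ → V} (hτ : 0 < τ.im) (h : QP τ A B φ)
    (hc : Continuous φ) : ∃ C, ∀ z, wt τ A B φ z ≤ C := by
  have hcont : Continuous (wt τ A B φ) := by
    unfold wt
    fun_prop
  have hK : IsCompact (Set.Icc (0 : ℝ) 1 ×ℂ Set.Icc (0 : ℝ) τ.im) :=
    isCompact_Icc.reProdIm isCompact_Icc
  obtain ⟨C, hC⟩ := hK.exists_bound_of_continuousOn hcont.continuousOn
  refine ⟨C, fun z ↦ ?_⟩
  set l : ℤ := -⌊z.im / τ.im⌋ with hl
  set w := z + l * τ with hw
  set u : ℤ := -⌊w.re⌋ with hu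
  have h1 := h.wt_lattice hτ z l u
  rw [← h1]
  have h2 : z + l * τ + u ∈ Set.Icc (0 : ℝ) 1 ×ℂ Set.Icc (0 : ℝ) τ.im := by
    rw [Complex.mem_reProdIm]
    constructor
    · have : (z + l * τ + u).re = Int.fract w.re := by
        rw [← hw, Complex.add_re, Complex.intCast_re, hu, Int.fract]
        push_cast
        ring
      rw [this]
      exact ⟨Int.fract_nonneg _, (Int.fract_lt_one _).le⟩
    · have : (z + l * τ + u).im = Int.fract (z.im / τ.im) * τ.im := by
        have h5 : (z + l * τ + u).im = z.im + l * τ.im := by simp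
        rw [h5, hl, Int.fract]
        push_cast
        field_simp
        ring
      rw [this]
      refine ⟨mul_nonneg (Int.fract_nonneg _) hτ.le, ?_⟩
      have := (Int.fract_lt_one (z.im / τ.im)).le
      nlinarith
  exact (le_abs_self _).trans (by simpa using hC _ h2)

lemma QP.eq_zero_of_neg [CompleteSpace V] {τ : ℂ} {A B : ℝ} {φ : ℂ → V} (hτ : 0 < τ.im)
    (h : QP τ A B φ) (hd : Differentiable ℂ φ) (hA : A < 0) : ∀ z, φ z = 0 := by
  obtain ⟨C, hC⟩ := h.bounded hτ hd.continuous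
  have hpi := Real.pi_pos
  have hbd : ∀ z, ‖φ z‖ ≤ C * Real.exp (Real.pi * (A * z.im ^ 2 / τ.im - B * z.im)) := by
    intro z
    have h1 := hC z
    unfold wt at h1
    have h2 : Real.exp (Real.pi * (B * z.im - A * z.im ^ 2 / τ.im)) *
        Real.exp (Real.pi * (A * z.im ^ 2 / τ.im - B * z.im)) = 1 := by
      rw [← Real.exp_add]
      have : Real.pi * (B * z.im - A * z.im ^ 2 / τ.im) +
        Real.pi * (A * z.im ^ 2 / τ.im - B * z.im) = 0 := by ring
      rw [this, Real.exp_zero]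
    calc ‖φ z‖ = (‖φ z‖ * Real.exp (Real.pi * (B * z.im - A * z.im ^ 2 / τ.im))) *
        Real.exp (Real.pi * (A * z.im ^ 2 / τ.im - B * z.im)) := by
          rw [mul_assoc, h2, mul_one]
      _ ≤ _ := mul_le_mul_of_nonneg_right h1 (Real.exp_pos _).le
  have hC0 : 0 ≤ C := by
    have h2 : 0 ≤ wt τ A B φ 0 := by unfold wt; positivity
    exact h2.trans (hC 0)
  -- the exponent tends to `-∞`
  have hquad : ∀ y : ℝ, Real.pi * (A * y ^ 2 / τ.im - B * y) ≤
      Real.pi * (-(B ^ 2 * τ.im) / (4 * A)) := by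
    intro y
    apply mul_le_mul_of_nonneg_left _ hpi.le
    have hA' : (4 * A) < 0 := by linarith
    have h3 : -(B ^ 2 * τ.im) / (4 * A) - (A * y ^ 2 / τ.im - B * y) =
        -(2 * A * y - B * τ.im) ^ 2 / (4 * A * τ.im) := by
      have hA1 := hA.ne
      have hτ1 := hτ.ne'
      field_simp
      ring
    have h4 : 0 ≤ -(2 * A * y - B * τ.im) ^ 2 / (4 * A * τ.im) := by
      apply div_nonneg_of_nonpos
      · nlinarith [sq_nonneg (2 * A * y - B * τ.im)]
      · nlinarith
    linarith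
  have hbounded : Bornology.IsBounded (Set.range φ) := by
    rw [isBounded_iff_forall_norm_le]
    refine ⟨C * Real.exp (Real.pi * (-(B ^ 2 * τ.im) / (4 * A))), ?_⟩
    rintro _ ⟨z, rfl⟩
    exact (hbd z).trans (mul_le_mul_of_nonneg_left (Real.exp_le_exp.mpr (hquad _)) hC0)
  have hconst : ∀ z w, φ z = φ w := fun z w ↦ hd.apply_eq_apply_of_bounded hbounded z w
  intro z
  have hlim : Tendsto (fun y : ℝ ↦ C * Real.exp (Real.pi * (A * y ^ 2 / τ.im - B * y)))
      atTop (𝓝 0) := by
    have h1 : Tendsto (fun y : ℝ ↦ Real.pi * (A * y ^ 2 / τ.im - B * y)) atTop atBot := by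
      have h2 : Tendsto (fun y : ℝ ↦ (A / τ.im) * y + (-B)) atTop atBot := by
        apply tendsto_atBot_add_const_right
        exact tendsto_id.const_mul_atTop_of_neg (div_neg_of_neg_of_pos hA hτ)
      have h3 : Tendsto (fun y : ℝ ↦ y * ((A / τ.im) * y + (-B))) atTop atBot :=
        tendsto_id.atTop_mul_atBot₀ h2
      have h4 := h3.const_mul_atBot hpi
      refine h4.congr fun y ↦ ?_
      ring
    have h5 := Real.tendsto_exp_atBot.comp h1
    simpa using h5.const_mul C
  have hle : ∀ y : ℝ, ‖φ z‖ ≤ C * Real.exp (Real.pi * (A * y ^ 2 / τ.im - B * y)) := by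
    intro y
    have := hbd (y * Complex.I)
    rw [hconst (y * Complex.I) z] at this
    simpa using this
  have h6 := ge_of_tendsto hlim (Eventually.of_forall hle)
  simpa using le_antisymm h6 (norm_nonneg _)

lemma QP.div [CompleteSpace V] {τ : ℂ} {A B : ℝ} {φ R : ℂ → V} (hτ : 0 < τ.im)
    (h : QP τ A B φ) (hR : Differentiable ℂ R) (hφR : ∀ z, φ z = th τ z • R z) :
    QP τ (A - 1) (B - 1) R := by
  have hth := th_diff hτ
  -- equality outside the zeros extends by continuity
  have key : ∀ (g₁ g₂ : ℂ → ℝ), Continuous g₁ → Continuous g₂ →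
      (∀ z, th τ z ≠ 0 → g₁ z = g₂ z) → ∀ z, g₁ z = g₂ z := by
    intro g₁ g₂ h1 h2 hg z
    by_cases hz : th τ z = 0
    · have hd := (hth z).hasDerivAt
      have hne : ∀ᶠ w in 𝓝[≠] z, th τ w ≠ 0 := by
        simpa using hd.eventually_ne (c := 0) (th_simple hτ hz)
      have t1 : Tendsto g₁ (𝓝[≠] z) (𝓝 (g₁ z)) := (h1.tendsto z).mono_left nhdsWithin_le_nhds
      have t2 : Tendsto g₂ (𝓝[≠] z) (𝓝 (g₂ z)) := (h2.tendsto z).mono_left nhdsWithin_le_nhds
      refine tendsto_nhds_unique t1 (t2.congr' ?_)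
      filter_upwards [hne] with w hw
      exact (hg w hw).symm
    · exact hg z hz
  have hRc := hR.continuous
  constructor
  · apply key (fun z ↦ ‖R (z + 1)‖) (fun z ↦ ‖R z‖) (by fun_prop) (by fun_prop)
    intro z hz
    have h1 := h.one z
    rw [hφR, hφR, th_add_one, norm_smul, norm_smul] at h1
    exact mul_left_cancel₀ (norm_ne_zero_iff.mpr hz) h1
  · apply key (fun z ↦ ‖R (z + τ)‖) (fun z ↦ ‖R z‖ *
      Real.exp (Real.pi * ((A - 1) * (2 * z.im + τ.im) - (B - 1) * τ.im)))
      (by fun_prop) (by fun_prop)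
    intro z hz
    have h1 := h.tau z
    rw [hφR, hφR, th_add_tau hτ, norm_smul, norm_smul, norm_mul, norm_neg, norm_e] at h1
    have h2 : ‖R (z + τ)‖ * (‖th τ z‖ * Real.exp (-2 * Real.pi * (-z).im)) =
      (‖R z‖ * Real.exp (Real.pi * ((A - 1) * (2 * z.im + τ.im) - (B - 1) * τ.im))) *
        (‖th τ z‖ * Real.exp (-2 * Real.pi * (-z).im)) := by
      have h3 : Real.exp (Real.pi * ((A - 1) * (2 * z.im + τ.im) - (B - 1) * τ.im)) *
          Real.exp (-2 * Real.pi * (-z).im) =
          Real.exp (Real.pi * (A * (2 * z.im + τ.im) - B * τ.im)) := by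
        rw [← Real.exp_add]
        congr 1
        simp only [Complex.neg_im]
        ring
      calc _ = Real.exp (-2 * Real.pi * (-z).im) * ‖th τ z‖ * ‖R (z + τ)‖ := by ring
        _ = _ := h1
        _ = _ := by rw [← h3]; ring
    exact mul_right_cancel₀ (mul_ne_zero (norm_ne_zero_iff.mpr hz) (Real.exp_pos _).ne') h2

/-- The order of vanishing at `0` is at most the index. -/
theorem QP.eq_zero [CompleteSpace V] {τ : ℂ} (hτ : 0 < τ.im) (j : ℕ) :
    ∀ {A B : ℝ} {φ : ℂ → V}, QP τ A B φ → Differentiable ℂ φ → A < j →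
      (φ =O[𝓝[≠] 0] fun z ↦ z ^ j) → ∀ z, φ z = 0 := by
  induction j with
  | zero =>
    intro A B φ h hd hA _
    exact h.eq_zero_of_neg hτ hd (by simpa using hA)
  | succ j ih =>
    intro A B φ h hd hA hO
    have hth := th_diff hτ
    -- `φ 0 = 0`
    have h0 : φ 0 = 0 := by
      have t1 : Tendsto φ (𝓝[≠] 0) (𝓝 (φ 0)) :=
        (hd.continuous.tendsto 0).mono_left nhdsWithin_le_nhds
      have t2 : Tendsto (fun z : ℂ ↦ z ^ (j + 1)) (𝓝[≠] 0) (𝓝 0) := by
        have : Tendsto (fun z : ℂ ↦ z ^ (j + 1)) (𝓝 0) (𝓝 ((0 : ℂ) ^ (j + 1))) :=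
          (continuous_pow (j + 1)).tendsto 0
        simpa using this.mono_left nhdsWithin_le_nhds
      exact tendsto_nhds_unique t1 (hO.trans_tendsto t2)
    have hz0 : ∀ z, th τ z = 0 → φ z = 0 := by
      intro z hz
      obtain ⟨l, u, rfl⟩ := th_zero hτ hz
      simpa using h.zero_lattice hτ h0 l u
    obtain ⟨R, hRd, hR⟩ := exists_div hth hd (fun z hz ↦ th_simple hτ hz) hz0
    have hQ := h.div hτ hRd hR
    have hlow : (fun z : ℂ ↦ z) =O[𝓝 0] th τ := by
      have h1 := ((hth 0).hasDerivAt).isTheta_sub (th_deriv_zero hτ)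
      have h2 := h1.symm.isBigO
      simpa [Function.comp_def, th_at_zero] using h2
    have hO' : R =O[𝓝[≠] 0] fun z ↦ z ^ j := by
      have h1 : (fun z ↦ z • R z) =O[𝓝[≠] 0] fun z ↦ z ^ (j + 1) := by
        have h2 : (fun z ↦ z • R z) =O[𝓝[≠] 0] fun z ↦ th τ z • R z :=
          (hlow.mono nhdsWithin_le_nhds).smul (isBigO_refl _ _)
        refine h2.trans ?_
        simpa only [← hR] using hO
      obtain ⟨C, hC⟩ := h1.bound
      refine IsBigO.of_bound C ?_
      filter_upwards [hC, self_mem_nhdsWithin] with z hz hne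
      have hzp : 0 < ‖z‖ := norm_pos_iff.mpr hne
      rw [norm_smul, pow_succ, norm_mul] at hz
      have : ‖z‖ * ‖R z‖ ≤ ‖z‖ * (C * ‖z ^ j‖) := by
        calc _ ≤ _ := hz
          _ = _ := by ring
      exact le_of_mul_le_mul_left this hzp
    have := ih hQ hRd (by push_cast at hA; linarith) hO'
    intro z
    rw [hR z, this z, smul_zero]

end Pool.Agent.Results.MP_386e47_ag.SpecialCycles
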