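import Mathlib

/-! The exponential `e(x) = exp(2πix)`. -/

namespace Pool.Agent.Results.MP_386e47_ag.SpecialCycles

/-- The exponential `e(x) = exp(2πix)`. -/
noncomputable def e (x : ℂ) : ℂ := Complex.exp (2 * Real.pi * Complex.I * x)

end Pool.Agent.Results.MP_386e47_ag.SpecialCycles
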