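import Pool.Agent.Lib.SPC.Theta

/-! Convergence of the Fourier-Jacobi series, Taylor coefficients at the origin. -/

namespace Pool.Agent.Results.MP_386e47_ag.SpecialCycles

open Complex Finset Filter Topology

set_option linter.unusedSectionVars false

variable {V : Type*} [NormedAddCommGroup V] [NormedSpace ℂ V]

/-! ### Power series at the origin -/

lemma ps_bound [CompleteSpace V] {d : ℕ → V} (hs : Summable fun n ↦ ‖d n‖) (j : ℕ)
    (hj : ∀ i < j, d i = 0) :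
    ∃ K, ∀ q : ℂ, ‖q‖ ≤ 1 → ‖(∑' n, q ^ n • d n) - q ^ j • d j‖ ≤ K * ‖q‖ ^ (j + 1) := by
  have hs' : Summable fun n ↦ ‖d (n + (j + 1))‖ := (summable_nat_add_iff (j + 1)).mpr hs
  refine ⟨∑' n, ‖d (n + (j + 1))‖, fun q hq ↦ ?_⟩
  have hsum : Summable fun n ↦ q ^ n • d n := by
    refine Summable.of_norm_bounded hs fun n ↦ ?_
    rw [norm_smul, norm_pow]
    exact mul_le_of_le_one_left (norm_nonneg _) (pow_le_one₀ (norm_nonneg _) hq)
  have h1 := hsum.sum_add_tsum_nat_add (j + 1)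
  have h2 : ∑ i ∈ range (j + 1), q ^ i • d i = q ^ j • d j := by
    rw [sum_range_succ, sum_eq_zero, zero_add]
    intro i hi
    rw [hj i (mem_range.mp hi), smul_zero]
  rw [← h1, h2, add_sub_cancel_left]
  have h3 : HasSum (fun n ↦ ‖d (n + (j + 1))‖ * ‖q‖ ^ (j + 1))
      ((∑' n, ‖d (n + (j + 1))‖) * ‖q‖ ^ (j + 1)) := hs'.hasSum.mul_right _
  refine tsum_of_norm_bounded h3 fun n ↦ ?_
  rw [norm_smul, norm_pow, pow_add, mul_comm ‖d _‖]
  apply mul_le_mul_of_nonneg_right _ (norm_nonneg _)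
  exact mul_le_of_le_one_left (by positivity) (pow_le_one₀ (norm_nonneg _) hq)

lemma ps_uniq [CompleteSpace V] {d : ℕ → V} (hs : Summable fun n ↦ ‖d n‖)
    (h : ∀ᶠ q : ℂ in 𝓝[≠] 0, ∑' n, q ^ n • d n = 0) : ∀ n, d n = 0 := by
  intro j
  induction j using Nat.strong_induction_on with
  | _ j ih =>
    obtain ⟨K, hK⟩ := ps_bound hs j ih
    have hball : ∀ᶠ q : ℂ in 𝓝[≠] 0, ‖q‖ ≤ 1 := by
      have : ∀ᶠ q : ℂ in 𝓝 0, ‖q‖ ≤ 1 := by
        filter_upwards [Metric.ball_mem_nhds (0 : ℂ) one_pos] with q hq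
        exact (mem_ball_zero_iff.mp hq).le
      exact this.filter_mono nhdsWithin_le_nhds
    have h1 : ∀ᶠ q : ℂ in 𝓝[≠] 0, ‖d j‖ ≤ K * ‖q‖ := by
      filter_upwards [h, hball, self_mem_nhdsWithin] with q h1 h2 h3
      have h4 := hK q h2
      rw [h1, zero_sub, norm_neg, norm_smul, norm_pow, pow_succ] at h4
      have hq : 0 < ‖q‖ ^ j := pow_pos (norm_pos_iff.mpr h3) _
      have h5 : ‖q‖ ^ j * ‖d j‖ ≤ ‖q‖ ^ j * (K * ‖q‖) := by
        calc _ ≤ _ := h4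
          _ = _ := by ring
      exact le_of_mul_le_mul_left h5 hq
    have h2 : Tendsto (fun q : ℂ ↦ K * ‖q‖) (𝓝[≠] 0) (𝓝 0) := by
      have : Tendsto (fun q : ℂ ↦ K * ‖q‖) (𝓝 0) (𝓝 (K * ‖(0 : ℂ)‖)) :=
        (continuous_const.mul continuous_norm).tendsto 0
      rw [norm_zero, mul_zero] at this
      exact this.mono_left nhdsWithin_le_nhds
    have h3 := ge_of_tendsto h2 h1
    exact norm_le_zero_iff.mp h3

/-! ### Bounds -/

lemma key_ineq {n m : ℕ} {r : ℤ} (h : r ^ 2 ≤ (4 * n * m : ℤ)) {δ R : ℝ} (hδ : 0 < δ)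
    (_hR : 0 ≤ R) : 2 * |(r : ℝ)| * R ≤ δ * n + 4 * m * R ^ 2 / δ := by
  have h1 : ((r : ℝ)) ^ 2 ≤ 4 * n * m := by exact_mod_cast h
  apply le_of_sq_le_sq _ (by positivity)
  have h2 : (2 * |(r : ℝ)| * R) ^ 2 = 4 * (r : ℝ) ^ 2 * R ^ 2 := by
    rw [mul_pow, mul_pow, sq_abs]; ring
  rw [h2]
  have h3 : δ * n * (4 * m * R ^ 2 / δ) = 4 * n * m * R ^ 2 := by field_simp
  nlinarith [sq_nonneg (δ * n - 4 * m * R ^ 2 / δ), mul_le_mul_of_nonneg_right h1 (sq_nonneg R)]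

/-- The majorant. -/
noncomputable def Ub (N : ℕ) (a : ℕ → ℤ → ℕ → V) (m : ℕ) (δ R : ℝ) (n : ℕ) : ℝ :=
  Real.exp (4 * Real.pi * m * R ^ 2 / (δ * N)) *
    ((∑ r ∈ Icc (-(n + m : ℤ)) (n + m), ‖a n r m‖) * Real.exp (-(Real.pi * δ / N)) ^ n)

lemma Ub_summable {N : ℕ} {k : ℝ} {a : ℕ → ℤ → ℕ → V} (h : IsSym N k a) (hN : 0 < N) (m : ℕ)
    {δ : ℝ} (hδ : 0 < δ) (R : ℝ) : Summable (Ub N a m δ R) := by
  unfold Ub
  apply Summable.mul_left
  apply h.conv m _ (Real.exp_pos _).le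
  rw [Real.exp_lt_one_iff]
  have : 0 < Real.pi * δ / N := by positivity
  linarith

lemma term_le {N : ℕ} {k : ℝ} {a : ℕ → ℤ → ℕ → V} (h : IsSym N k a) (hN : 0 < N) (n m : ℕ)
    (r : ℤ) {δ R v : ℝ} (hδ : 0 < δ) (hR : 0 ≤ R) (hv : δ ≤ v) :
    Real.exp (-(2 * Real.pi * n * v / N)) *
      (Real.exp (2 * Real.pi * |(r : ℝ)| * R / N) * ‖a n r m‖) ≤
    Real.exp (4 * Real.pi * m * R ^ 2 / (δ * N)) *
      (‖a n r m‖ * Real.exp (-(Real.pi * δ / N)) ^ n) := by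
  by_cases hr : (4 * n * m : ℤ) < r ^ 2
  · rw [h.supp n r m hr]; simp
  · push Not at hr
    have h1 := key_ineq hr hδ hR
    have hN' : (0 : ℝ) < N := by exact_mod_cast hN
    have hpi := Real.pi_pos
    rw [← Real.exp_nat_mul]
    have h2 : Real.exp (-(2 * Real.pi * n * v / N)) * Real.exp (2 * Real.pi * |(r : ℝ)| * R / N) ≤
        Real.exp (4 * Real.pi * m * R ^ 2 / (δ * N)) * Real.exp (n * -(Real.pi * δ / N)) := by
      rw [← Real.exp_add, ← Real.exp_add, Real.exp_le_exp]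
      have h3 : 4 * Real.pi * m * R ^ 2 / (δ * N) + n * -(Real.pi * δ / N) -
          (-(2 * Real.pi * n * v / N) + 2 * Real.pi * |(r : ℝ)| * R / N) =
          Real.pi / N * ((δ * n + 4 * m * R ^ 2 / δ - 2 * |(r : ℝ)| * R) + 2 * n * (v - δ)) := by
        field_simp
        ring
      have h4 : 0 ≤ Real.pi / N * ((δ * n + 4 * m * R ^ 2 / δ - 2 * |(r : ℝ)| * R) +
          2 * n * (v - δ)) := by
        apply mul_nonneg (by positivity)
        have : 0 ≤ 2 * (n : ℝ) * (v - δ) := mul_nonneg (by positivity) (by linarith)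
        linarith
      linarith
    calc _ = (Real.exp (-(2 * Real.pi * n * v / N)) *
          Real.exp (2 * Real.pi * |(r : ℝ)| * R / N)) * ‖a n r m‖ := by ring
      _ ≤ (Real.exp (4 * Real.pi * m * R ^ 2 / (δ * N)) * Real.exp (n * -(Real.pi * δ / N))) *
          ‖a n r m‖ := mul_le_mul_of_nonneg_right h2 (norm_nonneg _)
      _ = _ := by ring

lemma sum_le {N : ℕ} {k : ℝ} {a : ℕ → ℤ → ℕ → V} (h : IsSym N k a) (hN : 0 < N) (n m : ℕ)
    {δ R v : ℝ} (hδ : 0 < δ) (hR : 0 ≤ R) (hv : δ ≤ v) :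
    Real.exp (-(2 * Real.pi * n * v / N)) * ∑ r ∈ Icc (-(n + m : ℤ)) (n + m),
      (Real.exp (2 * Real.pi * |(r : ℝ)| * R / N) * ‖a n r m‖) ≤ Ub N a m δ R n := by
  unfold Ub
  rw [mul_sum, sum_mul, mul_sum]
  exact sum_le_sum fun r _ ↦ term_le h hN n m r hδ hR hv

/-! ### Taylor coefficients -/

/-- `j!` times the `j`-th Taylor coefficient at `z = 0`. -/
noncomputable def cj (N : ℕ) (a : ℕ → ℤ → ℕ → V) (m j : ℕ) (τ : ℂ) : V :=
  ∑' n : ℕ, e (n * τ / N) • ∑ r ∈ Icc (-(n + m : ℤ)) (n + m),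
    ((2 * Real.pi * I * r / N) ^ j : ℂ) • a n r m

lemma norm_freq (N : ℕ) (r : ℤ) :
    ‖(2 * Real.pi * I * r / N : ℂ)‖ = 2 * Real.pi * |(r : ℝ)| / N := by
  simp [abs_of_pos Real.pi_pos]

lemma norm_e_nat (N n : ℕ) (τ : ℂ) :
    ‖e (n * τ / N)‖ = Real.exp (-(2 * Real.pi * n * τ.im / N)) := by
  rw [norm_e]
  congr 1
  have : ((n : ℂ) * τ / N).im = n * τ.im / N := by simp
  rw [this]
  ring

lemma FJ_term_le {N : ℕ} {k : ℝ} {a : ℕ → ℤ → ℕ → V} (h : IsSym N k a) (hN : 0 < N) (n m : ℕ)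
    {δ R : ℝ} (hδ : 0 < δ) (hR : 0 ≤ R) {τ z : ℂ} (hv : δ ≤ τ.im) (hz : ‖z‖ ≤ R) :
    ‖∑ r ∈ Icc (-(n + m : ℤ)) (n + m), e ((n * τ + r * z) / N) • a n r m‖ ≤ Ub N a m δ R n := by
  refine le_trans ?_ (sum_le h hN n m hδ hR hv)
  rw [mul_sum]
  refine norm_sum_le_of_le _ fun r _ ↦ ?_
  rw [norm_smul, ← mul_assoc]
  apply mul_le_mul_of_nonneg_right _ (norm_nonneg _)
  rw [norm_e, ← Real.exp_add, Real.exp_le_exp]
  have h1 : (((n : ℂ) * τ + r * z) / N).im = (n * τ.im + r * z.im) / N := by simp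
  rw [h1]
  have h2 : -((r : ℝ) * z.im) ≤ |(r : ℝ)| * R := by
    calc -((r : ℝ) * z.im) ≤ |(r : ℝ) * z.im| := neg_le_abs _
      _ = |(r : ℝ)| * |z.im| := abs_mul _ _
      _ ≤ _ := mul_le_mul_of_nonneg_left ((Complex.abs_im_le_norm z).trans hz) (abs_nonneg _)
  have hN' : (0 : ℝ) < N := by exact_mod_cast hN
  have h3 : -(2 * Real.pi * n * τ.im / N) + 2 * Real.pi * |(r : ℝ)| * R / N -
      -2 * Real.pi * ((n * τ.im + r * z.im) / N) =
      2 * Real.pi / N * (|(r : ℝ)| * R - -((r : ℝ) * z.im)) := by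
    field_simp
    ring
  have h4 : 0 ≤ 2 * Real.pi / N * (|(r : ℝ)| * R - -((r : ℝ) * z.im)) :=
    mul_nonneg (by positivity) (by linarith)
  linarith

lemma cj_term_le {N : ℕ} {k : ℝ} {a : ℕ → ℤ → ℕ → V} (h : IsSym N k a) (hN : 0 < N)
    (n m j : ℕ) {δ : ℝ} (hδ : 0 < δ) {τ : ℂ} (hv : δ ≤ τ.im) :
    ‖e (n * τ / N) • ∑ r ∈ Icc (-(n + m : ℤ)) (n + m),
      ((2 * Real.pi * I * r / N) ^ j : ℂ) • a n r m‖ ≤ j.factorial * Ub N a m δ 1 n := by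
  have h0 := sum_le h hN n m hδ zero_le_one hv
  have hf : (0 : ℝ) < j.factorial := by exact_mod_cast j.factorial_pos
  refine le_trans ?_ (mul_le_mul_of_nonneg_left h0 hf.le)
  rw [norm_smul, norm_e_nat, mul_left_comm]
  apply mul_le_mul_of_nonneg_left _ (Real.exp_pos _).le
  rw [mul_sum]
  refine norm_sum_le_of_le _ fun r _ ↦ ?_
  rw [norm_smul, norm_pow, norm_freq, ← mul_assoc]
  apply mul_le_mul_of_nonneg_right _ (norm_nonneg _)
  have h1 := Real.pow_div_factorial_le_exp (2 * Real.pi * |(r : ℝ)| / N) (by positivity) j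
  rw [div_le_iff₀ hf] at h1
  rw [mul_one, mul_comm (j.factorial : ℝ)]
  exact h1

lemma FJ_diff [CompleteSpace V] {N : ℕ} {k : ℝ} {a : ℕ → ℤ → ℕ → V} (h : IsSym N k a)
    (hN : 0 < N) (m : ℕ) {τ : ℂ} (hτ : 0 < τ.im) : Differentiable ℂ (FJ N a m τ) := by
  intro z
  have h1 : DifferentiableOn ℂ (FJ N a m τ) (Metric.ball 0 (‖z‖ + 1)) := by
    unfold FJ
    apply differentiableOn_tsum_of_summable_norm (Ub_summable h hN m hτ (‖z‖ + 1))
      (fun n ↦ ?_) Metric.isOpen_ball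
    · intro n w hw
      exact FJ_term_le h hN n m hτ (by positivity) le_rfl (mem_ball_zero_iff.mp hw).le
    · apply Differentiable.differentiableOn
      have : Differentiable ℂ e := e_diff
      fun_prop
  exact h1.differentiableAt (Metric.isOpen_ball.mem_nhds (by simp))

lemma cj_diff [CompleteSpace V] {N : ℕ} {k : ℝ} {a : ℕ → ℤ → ℕ → V} (h : IsSym N k a)
    (hN : 0 < N) (m j : ℕ) : DifferentiableOn ℂ (cj N a m j) {τ | 0 < τ.im} := by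
  intro τ hτ
  have hτ' : 0 < τ.im := hτ
  have hopen : IsOpen {w : ℂ | τ.im / 2 < w.im} := isOpen_lt continuous_const Complex.continuous_im
  have h1 : DifferentiableOn ℂ (cj N a m j) {w | τ.im / 2 < w.im} := by
    unfold cj
    apply differentiableOn_tsum_of_summable_norm
      ((Ub_summable h hN m (half_pos hτ') 1).mul_left (j.factorial : ℝ)) (fun n ↦ ?_) hopen
    · intro n w hw
      exact cj_term_le h hN n m j (half_pos hτ') hw.le
    · apply Differentiable.differentiableOn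
      have : Differentiable ℂ e := e_diff
      fun_prop
  exact (h1.differentiableAt (hopen.mem_nhds (by simpa using hτ'))).differentiableWithinAt

/-! ### Taylor expansion -/

/-- Majorant of the double series. -/
noncomputable def Dm (N : ℕ) (a : ℕ → ℤ → ℕ → V) (m : ℕ) (v R : ℝ) (p : ℕ × ℕ) : ℝ :=
  Real.exp (-(2 * Real.pi * p.1 * v / N)) * ∑ r ∈ Icc (-(p.1 + m : ℤ)) (p.1 + m),
    ((2 * Real.pi * |(r : ℝ)| * R / N) ^ p.2 / p.2.factorial) * ‖a p.1 r m‖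

lemma Dm_nonneg (N : ℕ) (a : ℕ → ℤ → ℕ → V) (m : ℕ) (v : ℝ) {R : ℝ} (hR : 0 ≤ R) (p : ℕ × ℕ) :
    0 ≤ Dm N a m v R p := by
  unfold Dm
  positivity

lemma Dm_hasSum (N : ℕ) (a : ℕ → ℤ → ℕ → V) (m : ℕ) (v R : ℝ) (n : ℕ) :
    HasSum (fun j ↦ Dm N a m v R (n, j)) (Real.exp (-(2 * Real.pi * n * v / N)) *
      ∑ r ∈ Icc (-(n + m : ℤ)) (n + m),
      (Real.exp (2 * Real.pi * |(r : ℝ)| * R / N) * ‖a n r m‖)) := by
  unfold Dm
  apply HasSum.mul_left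
  apply hasSum_sum
  intro r _
  apply HasSum.mul_right
  rw [Real.exp_eq_exp_ℝ]
  exact NormedSpace.expSeries_div_hasSum_exp _

lemma Dm_summable {N : ℕ} {k : ℝ} {a : ℕ → ℤ → ℕ → V} (h : IsSym N k a) (hN : 0 < N) (m : ℕ)
    {v R : ℝ} (hv : 0 < v) (hR : 0 ≤ R) : Summable (Dm N a m v R) := by
  rw [summable_prod_of_nonneg (fun p ↦ Dm_nonneg N a m v hR p)]
  refine ⟨fun n ↦ (Dm_hasSum N a m v R n).summable, ?_⟩
  refine Summable.of_nonneg_of_le (fun n ↦ tsum_nonneg fun j ↦ Dm_nonneg N a m v hR _)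
    (fun n ↦ ?_) (Ub_summable h hN m hv R)
  rw [(Dm_hasSum N a m v R n).tsum_eq]
  exact sum_le h hN n m hv hR le_rfl

/-- The double series. -/
noncomputable def Gt (N : ℕ) (a : ℕ → ℤ → ℕ → V) (m : ℕ) (τ z : ℂ) (p : ℕ × ℕ) : V :=
  e (p.1 * τ / N) • ∑ r ∈ Icc (-(p.1 + m : ℤ)) (p.1 + m),
    ((2 * Real.pi * I * r / N * z) ^ p.2 / p.2.factorial : ℂ) • a p.1 r m

lemma Gt_norm_le (N : ℕ) (a : ℕ → ℤ → ℕ → V) (m : ℕ) (τ z : ℂ) (p : ℕ × ℕ) :
    ‖Gt N a m τ z p‖ ≤ Dm N a m τ.im ‖z‖ p := by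
  unfold Gt Dm
  rw [norm_smul, norm_e_nat]
  apply mul_le_mul_of_nonneg_left _ (Real.exp_pos _).le
  refine norm_sum_le_of_le _ fun r _ ↦ ?_
  rw [norm_smul, norm_div, norm_pow, norm_mul, norm_freq]
  apply mul_le_mul_of_nonneg_right _ (norm_nonneg _)
  rw [Complex.norm_natCast]
  apply le_of_eq
  congr 2
  ring

lemma Gt_row (N : ℕ) (a : ℕ → ℤ → ℕ → V) (m : ℕ) (τ z : ℂ) (n : ℕ) :
    HasSum (fun j ↦ Gt N a m τ z (n, j))
      (∑ r ∈ Icc (-(n + m : ℤ)) (n + m), e ((n * τ + r * z) / N) • a n r m) := by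
  have h1 : ∑ r ∈ Icc (-(n + m : ℤ)) (n + m), e ((n * τ + r * z) / N) • a n r m =
      e (n * τ / N) • ∑ r ∈ Icc (-(n + m : ℤ)) (n + m),
        Complex.exp (2 * Real.pi * I * r / N * z) • a n r m := by
    rw [smul_sum]
    refine sum_congr rfl fun r _ ↦ ?_
    rw [smul_smul, add_div, e_add]
    congr 2
    unfold e
    congr 1
    ring
  rw [h1]
  unfold Gt
  apply HasSum.const_smul
  apply hasSum_sum
  intro r _
  apply HasSum.smul_const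
  rw [Complex.exp_eq_exp_ℂ]
  exact NormedSpace.expSeries_div_hasSum_exp _

lemma cj_hasSum [CompleteSpace V] {N : ℕ} {k : ℝ} {a : ℕ → ℤ → ℕ → V} (h : IsSym N k a)
    (hN : 0 < N) (m j : ℕ) {τ : ℂ} (hτ : 0 < τ.im) :
    HasSum (fun n : ℕ ↦ e (n * τ / N) • ∑ r ∈ Icc (-(n + m : ℤ)) (n + m),
      ((2 * Real.pi * I * r / N) ^ j : ℂ) • a n r m) (cj N a m j τ) := by
  apply Summable.hasSum
  exact Summable.of_norm_bounded ((Ub_summable h hN m hτ 1).mul_left (j.factorial : ℝ))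
    fun n ↦ cj_term_le h hN n m j hτ le_rfl

lemma Gt_col [CompleteSpace V] {N : ℕ} {k : ℝ} {a : ℕ → ℤ → ℕ → V} (h : IsSym N k a)
    (hN : 0 < N) (m j : ℕ) {τ : ℂ} (hτ : 0 < τ.im) (z : ℂ) :
    HasSum (fun n ↦ Gt N a m τ z (n, j)) (z ^ j • ((j.factorial : ℂ)⁻¹ • cj N a m j τ)) := by
  have h1 := ((cj_hasSum h hN m j hτ).const_smul ((j.factorial : ℂ)⁻¹)).const_smul (z ^ j)
  refine h1.congr_fun ?_
  intro n
  unfold Gt
  simp only [smul_sum, smul_smul]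
  refine sum_congr rfl fun r _ ↦ ?_
  congr 1
  rw [mul_pow]
  ring

lemma taylor [CompleteSpace V] {N : ℕ} {k : ℝ} {a : ℕ → ℤ → ℕ → V} (h : IsSym N k a)
    (hN : 0 < N) (m : ℕ) {τ : ℂ} (hτ : 0 < τ.im) (z : ℂ) :
    HasSum (fun j ↦ z ^ j • ((j.factorial : ℂ)⁻¹ • cj N a m j τ)) (FJ N a m τ z) := by
  have hs : Summable (Gt N a m τ z) :=
    Summable.of_norm_bounded (Dm_summable h hN m hτ (norm_nonneg z)) (Gt_norm_le N a m τ z)
  have h1 := hs.hasSum.prod_fiberwise (Gt_row N a m τ z)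
  have h2 : ∑' p, Gt N a m τ z p = FJ N a m τ z := by
    rw [FJ, h1.tsum_eq]
  have h3 := hs.prod_symm.hasSum.prod_fiberwise (fun j ↦ Gt_col h hN m j hτ z)
  have h4 : ∑' p : ℕ × ℕ, Gt N a m τ z p.swap = ∑' p, Gt N a m τ z p :=
    (Equiv.prodComm ℕ ℕ).tsum_eq (Gt N a m τ z)
  rw [h4, h2] at h3
  exact h3

lemma taylor_norm [CompleteSpace V] {N : ℕ} {k : ℝ} {a : ℕ → ℤ → ℕ → V} (h : IsSym N k a)
    (hN : 0 < N) (m : ℕ) {τ : ℂ} (hτ : 0 < τ.im) :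
    Summable fun j ↦ ‖(j.factorial : ℂ)⁻¹ • cj N a m j τ‖ := by
  have hs := Dm_summable h hN m hτ zero_le_one
  have h1 := hs.prod_symm.prod
  refine Summable.of_nonneg_of_le (fun j ↦ norm_nonneg _) (fun j ↦ ?_) h1
  have h2 := Gt_col h hN m j hτ 1
  rw [one_pow, one_smul] at h2
  rw [← h2.tsum_eq]
  have h3 : Summable fun n ↦ Dm N a m τ.im 1 (n, j) := hs.prod_symm.prod_factor j
  refine tsum_of_norm_bounded h3.hasSum fun n ↦ ?_
  have := Gt_norm_le N a m τ 1 (n, j)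
  rwa [norm_one] at this

lemma FJ_lead [CompleteSpace V] {N : ℕ} {k : ℝ} {a : ℕ → ℤ → ℕ → V} (h : IsSym N k a)
    (hN : 0 < N) (m j : ℕ) {τ : ℂ} (hτ : 0 < τ.im) (hj : ∀ i < j, cj N a m i τ = 0) :
    ∃ K, ∀ z : ℂ, ‖z‖ ≤ 1 →
      ‖FJ N a m τ z - z ^ j • ((j.factorial : ℂ)⁻¹ • cj N a m j τ)‖ ≤ K * ‖z‖ ^ (j + 1) := by
  obtain ⟨K, hK⟩ := ps_bound (taylor_norm h hN m hτ) j (fun i hi ↦ by rw [hj i hi, smul_zero])
  refine ⟨K, fun z hz ↦ ?_⟩
  have := hK z hz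
  rwa [(taylor h hN m hτ z).tsum_eq] at this

lemma cj_zero_of_FJ [CompleteSpace V] {N : ℕ} {k : ℝ} {a : ℕ → ℤ → ℕ → V} (h : IsSym N k a)
    (hN : 0 < N) (m : ℕ) {τ : ℂ} (hτ : 0 < τ.im) (h0 : ∀ z, FJ N a m τ z = 0) (j : ℕ) :
    cj N a m j τ = 0 := by
  have := ps_uniq (taylor_norm h hN m hτ) (Eventually.of_forall fun q ↦ by
    rw [(taylor h hN m hτ q).tsum_eq, h0 q]) j
  have hf : ((j.factorial : ℂ)⁻¹) ≠ 0 := inv_ne_zero (by exact_mod_cast j.factorial_ne_zero)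
  exact (smul_eq_zero.mp this).resolve_left hf

end Pool.Agent.Results.MP_386e47_ag.SpecialCycles
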