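import Pool.Agent.Lib.SPC.GDefs
import Pool.Agent.Lib.SPC.Series

/-! Degree `g`: bounds, tame weights, the vertex series. -/

namespace Pool.Agent.Results.MP_386e47_ag.SpecialCycles

open Complex Finset Filter Topology

set_option linter.unusedSectionVars false

variable {ι : Type*} [Fintype ι] [DecidableEq ι]
variable {V : Type*} [NormedAddCommGroup V] [NormedSpace ℂ V]

/-- Matrices with prescribed diagonal away from `i`. -/
abbrev Bt (i : ι) (t : ι → ℤ) : Type _ := {B : Matrix ι ι ℤ // ∀ j, j ≠ i → B j j = t j}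

/-- Matrices with prescribed diagonal. -/
abbrev Bd (t : ι → ℤ) : Type _ := {B : Matrix ι ι ℤ // ∀ j, B j j = t j}

/-- Sum of the absolute values of the off-diagonal entries. -/
noncomputable def off (B : Matrix ι ι ℤ) : ℝ :=
  ∑ p ∈ (univ : Finset ι).offDiag, |((B p.1 p.2 : ℤ) : ℝ)|

lemma off_nonneg (B : Matrix ι ι ℤ) : 0 ≤ off B := sum_nonneg fun _ _ ↦ abs_nonneg _

lemma abs_le_off (B : Matrix ι ι ℤ) {p : ι × ι} (hp : p.1 ≠ p.2) :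
    |((B p.1 p.2 : ℤ) : ℝ)| ≤ off B := by
  unfold off
  exact single_le_sum (f := fun p : ι × ι ↦ |((B p.1 p.2 : ℤ) : ℝ)|) (fun _ _ ↦ abs_nonneg _)
    (mem_offDiag.mpr ⟨mem_univ _, mem_univ _, hp⟩)

lemma psd_two {B : Matrix ι ι ℤ} (hs : B.IsSymm) (hp : ∀ x : ι → ℤ, 0 ≤ x ⬝ᵥ (B.mulVec x))
    {j l : ι} (m n : ℤ) : 0 ≤ m ^ 2 * B j j + 2 * m * n * B j l + n ^ 2 * B l l := by
  have h := hp (Pi.single j m + Pi.single l n)
  have hjl : B l j = B j l := by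
    have := congrFun (congrFun hs j) l
    simpa [Matrix.transpose_apply] using this
  simp only [Matrix.mulVec_add, Matrix.mulVec_single, add_dotProduct, dotProduct_add,
    single_dotProduct] at h
  simp only [Pi.smul_apply, Matrix.col_apply, MulOpposite.smul_eq_mul_unop,
    MulOpposite.unop_op, hjl] at h
  nlinarith [h]

lemma psd_diag {B : Matrix ι ι ℤ} (hs : B.IsSymm) (hp : ∀ x : ι → ℤ, 0 ≤ x ⬝ᵥ (B.mulVec x))
    (j : ι) : 0 ≤ B j j := by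
  have := psd_two hs hp (j := j) (l := j) 1 0
  simpa using this

lemma psd_sq {B : Matrix ι ι ℤ} (hs : B.IsSymm) (hp : ∀ x : ι → ℤ, 0 ≤ x ⬝ᵥ (B.mulVec x))
    (j l : ι) : (B j l) ^ 2 ≤ B j j * B l l := by
  rcases (psd_diag hs hp l).eq_or_lt with h0 | h0
  · have h1 := psd_two hs hp (j := j) (l := l) 1 (-(B j j + 1) * B j l)
    rw [← h0] at h1 ⊢
    have h2 := psd_diag hs hp j
    have h3 : 0 ≤ (B j l) ^ 2 := sq_nonneg _
    nlinarith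
  · have h1 := psd_two hs hp (j := j) (l := l) (B l l) (-(B j l))
    have h2 : 0 ≤ B l l * (B j j * B l l - (B j l) ^ 2) := by nlinarith
    have h3 := nonneg_of_mul_nonneg_right h2 h0
    linarith

lemma off_bound {B : Matrix ι ι ℤ} (hs : B.IsSymm) (hp : ∀ x : ι → ℤ, 0 ≤ x ⬝ᵥ (B.mulVec x))
    {i : ι} {t : ι → ℤ} (ht : ∀ j, j ≠ i → B j j = t j) :
    off B ≤ ((univ : Finset ι).offDiag.card * (1 + ∑ j, |((t j : ℤ) : ℝ)|)) *
      (1 + √((B i i : ℤ) : ℝ)) := by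
  set T : ℝ := ∑ j, |((t j : ℤ) : ℝ)| with hT
  have hT0 : 0 ≤ T := sum_nonneg fun _ _ ↦ abs_nonneg _
  have htT : ∀ j, |((t j : ℤ) : ℝ)| ≤ T := fun j ↦
    single_le_sum (f := fun j ↦ |((t j : ℤ) : ℝ)|) (fun _ _ ↦ abs_nonneg _) (mem_univ j)
  have hx : (0 : ℝ) ≤ ((B i i : ℤ) : ℝ) := by exact_mod_cast psd_diag hs hp i
  set r : ℝ := √((B i i : ℤ) : ℝ) with hr
  have hr0 : 0 ≤ r := Real.sqrt_nonneg _
  have hr2 : r ^ 2 = ((B i i : ℤ) : ℝ) := Real.sq_sqrt hx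
  have k1 : r ^ 2 * T ≤ ((1 + T) * (1 + r)) ^ 2 := by
    have e1 : ((1 + T) * (1 + r)) ^ 2 = r ^ 2 * T + (1 + 2 * r + r ^ 2 + T * (2 + 4 * r + r ^ 2) +
        T ^ 2 * (1 + r) ^ 2) := by ring
    rw [e1]
    have : 0 ≤ 1 + 2 * r + r ^ 2 + T * (2 + 4 * r + r ^ 2) + T ^ 2 * (1 + r) ^ 2 := by positivity
    linarith
  have k2 : T * T ≤ ((1 + T) * (1 + r)) ^ 2 := by
    have e1 : ((1 + T) * (1 + r)) ^ 2 = T * T + (T ^ 2 * (2 * r + r ^ 2) +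
        (1 + 2 * T) * (1 + r) ^ 2) := by ring
    rw [e1]
    have : 0 ≤ T ^ 2 * (2 * r + r ^ 2) + (1 + 2 * T) * (1 + r) ^ 2 := by positivity
    linarith
  have hnn : ∀ j, (0 : ℝ) ≤ ((B j j : ℤ) : ℝ) := fun j ↦ by exact_mod_cast psd_diag hs hp j
  have hle : ∀ j, j ≠ i → ((B j j : ℤ) : ℝ) ≤ T := by
    intro j hj
    rw [ht j hj]
    exact (le_abs_self _).trans (htT j)
  have hent : ∀ p ∈ (univ : Finset ι).offDiag, |((B p.1 p.2 : ℤ) : ℝ)| ≤ (1 + T) * (1 + r) := by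
    intro p hp'
    have hne : p.1 ≠ p.2 := (mem_offDiag.mp hp').2.2
    have hsq : ((B p.1 p.2 : ℤ) : ℝ) ^ 2 ≤ ((B p.1 p.1 : ℤ) : ℝ) * ((B p.2 p.2 : ℤ) : ℝ) := by
      exact_mod_cast psd_sq hs hp p.1 p.2
    apply abs_le_of_sq_le_sq _ (by positivity)
    refine hsq.trans ?_
    by_cases h1 : p.1 = i
    · have h2 : p.2 ≠ i := fun h ↦ hne (h1.trans h.symm)
      rw [h1, ← hr2]
      exact (mul_le_mul_of_nonneg_left (hle _ h2) (by positivity)).trans k1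
    · by_cases h2 : p.2 = i
      · rw [h2, ← hr2, mul_comm]
        exact (mul_le_mul_of_nonneg_left (hle _ h1) (by positivity)).trans k1
      · exact (mul_le_mul (hle _ h1) (hle _ h2) (hnn _) hT0).trans k2
  calc off B ≤ ∑ _p ∈ (univ : Finset ι).offDiag, (1 + T) * (1 + r) := sum_le_sum hent
    _ = _ := by rw [sum_const, nsmul_eq_mul]; ring

lemma exp_off_le {N : ℕ} {k : ℝ} {a : Matrix ι ι ℤ → V} (h : IsSiegel N k a) (i : ι) (t : ι → ℤ)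
    {c δ : ℝ} (hc : 0 ≤ c) (hδ : 0 < δ) : ∃ C : ℝ, 0 ≤ C ∧ ∀ B : Bt i t, a B.1 ≠ 0 →
      Real.exp (c * off B.1) ≤ C * Real.exp (δ * ((B.1 i i : ℤ) : ℝ)) := by
  set K : ℝ := (univ : Finset ι).offDiag.card * (1 + ∑ j, |((t j : ℤ) : ℝ)|) with hK
  have hK0 : 0 ≤ K := by
    have : 0 ≤ ∑ j, |((t j : ℤ) : ℝ)| := sum_nonneg fun _ _ ↦ abs_nonneg _
    positivity
  refine ⟨Real.exp (c * K + (c * K) ^ 2 / (4 * δ)), (Real.exp_pos _).le, fun B hB ↦ ?_⟩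
  have h1 := off_bound (h.symm _ hB) (h.psd _ hB) B.2
  rw [← hK] at h1
  have hx : (0 : ℝ) ≤ ((B.1 i i : ℤ) : ℝ) := by
    exact_mod_cast psd_diag (h.symm _ hB) (h.psd _ hB) i
  set r : ℝ := √((B.1 i i : ℤ) : ℝ) with hr
  have hr2 : r ^ 2 = ((B.1 i i : ℤ) : ℝ) := Real.sq_sqrt hx
  rw [← Real.exp_add, Real.exp_le_exp, ← hr2]
  have h2 : c * off B.1 ≤ c * (K * (1 + r)) := mul_le_mul_of_nonneg_left h1 hc
  have h3 : (c * K) ^ 2 / (4 * δ) + δ * r ^ 2 - c * K * r = (c * K - 2 * δ * r) ^ 2 / (4 * δ) := by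
    field_simp
    ring
  have h4 : 0 ≤ (c * K - 2 * δ * r) ^ 2 / (4 * δ) := by positivity
  nlinarith

/-- Weights of at most exponential growth in the off-diagonal entries. -/
def Tame (μ : Matrix ι ι ℤ → ℂ) : Prop :=
  ∃ C c : ℝ, 0 ≤ C ∧ 0 ≤ c ∧ ∀ B, ‖μ B‖ ≤ C * Real.exp (c * off B)

lemma Tame.const (z : ℂ) : Tame (fun _ : Matrix ι ι ℤ ↦ z) :=
  ⟨‖z‖, 0, norm_nonneg _, le_rfl, fun B ↦ by simp⟩

lemma Tame.mul {μ ν : Matrix ι ι ℤ → ℂ} (hμ : Tame μ) (hν : Tame ν) :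
    Tame (fun B ↦ μ B * ν B) := by
  obtain ⟨C, c, hC, hc, h1⟩ := hμ
  obtain ⟨D, d, hD, hd, h2⟩ := hν
  refine ⟨C * D, c + d, mul_nonneg hC hD, add_nonneg hc hd, fun B ↦ ?_⟩
  rw [norm_mul]
  calc ‖μ B‖ * ‖ν B‖ ≤ (C * Real.exp (c * off B)) * (D * Real.exp (d * off B)) :=
        mul_le_mul (h1 B) (h2 B) (norm_nonneg _) (by positivity)
    _ = C * D * (Real.exp (c * off B) * Real.exp (d * off B)) := by ring
    _ = _ := by rw [← Real.exp_add]; congr 2; ring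

lemma Tame.mono {μ ν : Matrix ι ι ℤ → ℂ} (hν : Tame ν) (h : ∀ B, ‖μ B‖ ≤ ‖ν B‖) : Tame μ := by
  obtain ⟨D, d, hD, hd, h2⟩ := hν
  exact ⟨D, d, hD, hd, fun B ↦ (h B).trans (h2 B)⟩

lemma Tame.add {μ ν : Matrix ι ι ℤ → ℂ} (hμ : Tame μ) (hν : Tame ν) :
    Tame (fun B ↦ μ B + ν B) := by
  obtain ⟨C, c, hC, hc, h1⟩ := hμ
  obtain ⟨D, d, hD, hd, h2⟩ := hν
  refine ⟨C + D, c + d, add_nonneg hC hD, add_nonneg hc hd, fun B ↦ ?_⟩
  have ho := off_nonneg B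
  have e1 : Real.exp (c * off B) ≤ Real.exp ((c + d) * off B) := by
    rw [Real.exp_le_exp]; nlinarith [mul_nonneg hd ho]
  have e2 : Real.exp (d * off B) ≤ Real.exp ((c + d) * off B) := by
    rw [Real.exp_le_exp]; nlinarith [mul_nonneg hc ho]
  calc ‖μ B + ν B‖ ≤ ‖μ B‖ + ‖ν B‖ := norm_add_le _ _
    _ ≤ C * Real.exp (c * off B) + D * Real.exp (d * off B) := add_le_add (h1 B) (h2 B)
    _ ≤ C * Real.exp ((c + d) * off B) + D * Real.exp ((c + d) * off B) :=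
        add_le_add (mul_le_mul_of_nonneg_left e1 hC) (mul_le_mul_of_nonneg_left e2 hD)
    _ = _ := by ring

lemma Tame.sum {α : Type*} (s : Finset α) {μ : α → Matrix ι ι ℤ → ℂ} (h : ∀ x ∈ s, Tame (μ x)) :
    Tame (fun B ↦ ∑ x ∈ s, μ x B) := by
  classical
  induction s using Finset.induction_on with
  | empty => simpa using Tame.const (ι := ι) 0
  | insert x s hx ih =>
    have h1 := (h x (mem_insert_self _ _)).add (ih fun y hy ↦ h y (mem_insert_of_mem hy))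
    simpa [sum_insert hx] using h1

lemma Tame.pow {μ : Matrix ι ι ℤ → ℂ} (h : Tame μ) (n : ℕ) : Tame (fun B ↦ μ B ^ n) := by
  induction n with
  | zero => simpa using Tame.const (ι := ι) 1
  | succ n ih => simpa [pow_succ] using ih.mul h

/-- Weights of at most linear growth. -/
def Lin (l : Matrix ι ι ℤ → ℂ) : Prop :=
  ∃ c : ℝ, 0 ≤ c ∧ ∀ B, ‖l B‖ ≤ c * (1 + off B)

lemma Lin.tame {l : Matrix ι ι ℤ → ℂ} (h : Lin l) : Tame l := by
  obtain ⟨c, hc, h1⟩ := h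
  refine ⟨c, 1, hc, zero_le_one, fun B ↦ (h1 B).trans ?_⟩
  apply mul_le_mul_of_nonneg_left _ hc
  have := Real.add_one_le_exp (off B)
  rw [one_mul]; linarith

lemma Lin.exp {l : Matrix ι ι ℤ → ℂ} (h : Lin l) (c : ℂ) :
    Tame (fun B ↦ Complex.exp (c * l B)) := by
  obtain ⟨d, hd, h1⟩ := h
  refine ⟨Real.exp (‖c‖ * d), ‖c‖ * d, (Real.exp_pos _).le, by positivity, fun B ↦ ?_⟩
  rw [← Real.exp_add]
  refine (Complex.norm_exp_le_exp_norm _).trans ?_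
  rw [Real.exp_le_exp, norm_mul]
  calc ‖c‖ * ‖l B‖ ≤ ‖c‖ * (d * (1 + off B)) := mul_le_mul_of_nonneg_left (h1 B) (norm_nonneg _)
    _ = _ := by ring

lemma Lin.expn {l : Matrix ι ι ℤ → ℂ} (h : Lin l) (c : ℝ) (hc : 0 ≤ c) :
    Tame (fun B ↦ ((Real.exp (c * ‖l B‖) : ℝ) : ℂ)) := by
  obtain ⟨d, hd, h1⟩ := h
  refine ⟨Real.exp (c * d), c * d, (Real.exp_pos _).le, by positivity, fun B ↦ ?_⟩
  rw [← Real.exp_add, Complex.norm_real, Real.norm_of_nonneg (Real.exp_pos _).le,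
    Real.exp_le_exp]
  calc c * ‖l B‖ ≤ c * (d * (1 + off B)) := mul_le_mul_of_nonneg_left (h1 B) hc
    _ = _ := by ring

lemma Lin.const (z : ℂ) : Lin (fun _ : Matrix ι ι ℤ ↦ z) :=
  ⟨‖z‖, norm_nonneg _, fun B ↦ by
    have := off_nonneg B
    nlinarith [norm_nonneg z, mul_nonneg (norm_nonneg z) this]⟩

lemma Lin.edge {p : ι × ι} (hp : p.1 ≠ p.2) : Lin (fun B : Matrix ι ι ℤ ↦ ((B p.1 p.2 : ℤ) : ℂ)) :=
  ⟨1, zero_le_one, fun B ↦ by
    have h1 := abs_le_off B hp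
    rw [Complex.norm_intCast]
    linarith⟩

lemma Lin.mono_eq {l m : Matrix ι ι ℤ → ℂ} (h : Lin l) (hm : ∀ B, m B = l B) : Lin m := by
  obtain ⟨c, hc, h1⟩ := h
  exact ⟨c, hc, fun B ↦ by rw [hm]; exact h1 B⟩

lemma Lin.add {l m : Matrix ι ι ℤ → ℂ} (hl : Lin l) (hm : Lin m) : Lin (fun B ↦ l B + m B) := by
  obtain ⟨c, hc, h1⟩ := hl
  obtain ⟨d, hd, h2⟩ := hm
  refine ⟨c + d, add_nonneg hc hd, fun B ↦ ?_⟩
  calc ‖l B + m B‖ ≤ ‖l B‖ + ‖m B‖ := norm_add_le _ _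
    _ ≤ c * (1 + off B) + d * (1 + off B) := add_le_add (h1 B) (h2 B)
    _ = _ := by ring

lemma Lin.smul {l : Matrix ι ι ℤ → ℂ} (hl : Lin l) (z : ℂ) : Lin (fun B ↦ z * l B) := by
  obtain ⟨c, hc, h1⟩ := hl
  refine ⟨‖z‖ * c, by positivity, fun B ↦ ?_⟩
  rw [norm_mul, mul_assoc]
  exact mul_le_mul_of_nonneg_left (h1 B) (norm_nonneg _)

lemma Lin.sum {α : Type*} (s : Finset α) {μ : α → Matrix ι ι ℤ → ℂ} (h : ∀ x ∈ s, Lin (μ x)) :
    Lin (fun B ↦ ∑ x ∈ s, μ x B) := by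
  classical
  induction s using Finset.induction_on with
  | empty => simpa using Lin.const (ι := ι) 0
  | insert x s hx ih =>
    have h1 := (h x (mem_insert_self _ _)).add (ih fun y hy ↦ h y (mem_insert_of_mem hy))
    simpa [sum_insert hx] using h1

/-- Monomials. -/
noncomputable def mono (es : List (ι × ι)) (B : Matrix ι ι ℤ) : ℂ :=
  (es.map fun p ↦ ((B p.1 p.2 : ℤ) : ℂ)).prod

lemma mono_nil (B : Matrix ι ι ℤ) : mono ([] : List (ι × ι)) B = 1 := rfl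

lemma mono_cons (p : ι × ι) (es : List (ι × ι)) (B : Matrix ι ι ℤ) :
    mono (p :: es) B = (B p.1 p.2 : ℤ) * mono es B := by simp [mono]

lemma mono_append (es fs : List (ι × ι)) (B : Matrix ι ι ℤ) :
    mono (es ++ fs) B = mono es B * mono fs B := by simp [mono]

lemma mono_tame {es : List (ι × ι)} (h : ∀ p ∈ es, p.1 ≠ p.2) :
    Tame (mono es : Matrix ι ι ℤ → ℂ) := by
  induction es with
  | nil => exact Tame.const 1
  | cons p es ih =>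
    have h1 := (Lin.edge (h p (List.mem_cons_self ..))).tame.mul
      (ih fun q hq ↦ h q (List.mem_cons_of_mem _ hq))
    exact h1.mono fun B ↦ by rw [mono_cons]

/-! ### The vertex series -/

lemma summ {N : ℕ} {k : ℝ} {a : Matrix ι ι ℤ → V} (h : IsSiegel N k a) (hN : 0 < N) (i : ι)
    (t : ι → ℤ) {μ : Matrix ι ι ℤ → ℂ} (hμ : Tame μ) {v : ℝ} (hv : 0 < v) :
    Summable fun B : Bt i t ↦
      Real.exp (-(2 * Real.pi * ((B.1 i i : ℤ) : ℝ) * v / N)) * (‖μ B.1‖ * ‖a B.1‖) := by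
  obtain ⟨C, c, hC, hc, h1⟩ := hμ
  have hN' : (0 : ℝ) < N := by exact_mod_cast hN
  have hδ : 0 < Real.pi * v / N := by positivity
  obtain ⟨D, hD, h2⟩ := exp_off_le h i t hc hδ
  refine Summable.of_nonneg_of_le (fun B ↦ by positivity) (fun B ↦ ?_)
    ((h.conv i t _ hδ).mul_left (C * D))
  by_cases hB : a B.1 = 0
  · simp [hB]
  · have h3 := h2 B hB
    have h4 : ‖μ B.1‖ ≤ C * (D * Real.exp (Real.pi * v / N * ((B.1 i i : ℤ) : ℝ))) :=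
      (h1 B.1).trans (mul_le_mul_of_nonneg_left h3 hC)
    calc _ ≤ Real.exp (-(2 * Real.pi * ((B.1 i i : ℤ) : ℝ) * v / N)) *
          ((C * (D * Real.exp (Real.pi * v / N * ((B.1 i i : ℤ) : ℝ)))) * ‖a B.1‖) := by
          apply mul_le_mul_of_nonneg_left _ (Real.exp_pos _).le
          exact mul_le_mul_of_nonneg_right h4 (norm_nonneg _)
      _ = C * D * ((Real.exp (-(2 * Real.pi * ((B.1 i i : ℤ) : ℝ) * v / N)) *
          Real.exp (Real.pi * v / N * ((B.1 i i : ℤ) : ℝ))) * ‖a B.1‖) := by ring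
      _ = _ := by
          rw [← Real.exp_add]
          congr 3
          ring

/-- The vertex series with weight `μ`. -/
noncomputable def Sv (N : ℕ) (a : Matrix ι ι ℤ → V) (i : ι) (t : ι → ℤ)
    (μ : Matrix ι ι ℤ → ℂ) (τ : ℂ) : V :=
  ∑' B : Bt i t, (e ((B.1 i i : ℤ) * τ / N) * μ B.1) • a B.1

lemma norm_e_int (N : ℕ) (n : ℤ) (τ : ℂ) :
    ‖e (n * τ / N)‖ = Real.exp (-(2 * Real.pi * n * τ.im / N)) := by
  rw [norm_e]
  congr 1
  have : ((n : ℂ) * τ / N).im = n * τ.im / N := by simp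
  rw [this]
  ring

lemma Sv_summ [CompleteSpace V] {N : ℕ} {k : ℝ} {a : Matrix ι ι ℤ → V} (h : IsSiegel N k a)
    (hN : 0 < N) (i : ι) (t : ι → ℤ) {μ : Matrix ι ι ℤ → ℂ} (hμ : Tame μ) {τ : ℂ}
    (hτ : 0 < τ.im) :
    Summable fun B : Bt i t ↦ (e ((B.1 i i : ℤ) * τ / N) * μ B.1) • a B.1 := by
  refine Summable.of_norm_bounded (summ h hN i t hμ hτ) fun B ↦ ?_
  rw [norm_smul, norm_mul, norm_e_int, mul_assoc]

lemma Sv_add [CompleteSpace V] {N : ℕ} {k : ℝ} {a : Matrix ι ι ℤ → V} (h : IsSiegel N k a)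
    (hN : 0 < N) (i : ι) (t : ι → ℤ) {μ ν : Matrix ι ι ℤ → ℂ} (hμ : Tame μ) (hν : Tame ν) {τ : ℂ}
    (hτ : 0 < τ.im) :
    Sv N a i t (fun B ↦ μ B + ν B) τ = Sv N a i t μ τ + Sv N a i t ν τ := by
  unfold Sv
  rw [← (Sv_summ h hN i t hμ hτ).tsum_add (Sv_summ h hN i t hν hτ)]
  refine tsum_congr fun B ↦ ?_
  rw [mul_add, add_smul]

lemma Sv_smul {N : ℕ} {a : Matrix ι ι ℤ → V} (i : ι) (t : ι → ℤ) {μ : Matrix ι ι ℤ → ℂ} (z : ℂ)
    {τ : ℂ} : Sv N a i t (fun B ↦ z * μ B) τ = z • Sv N a i t μ τ := by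
  unfold Sv
  rw [← tsum_const_smul'']
  refine tsum_congr fun B ↦ ?_
  rw [smul_smul]
  congr 1
  ring

lemma Sv_sum [CompleteSpace V] {N : ℕ} {k : ℝ} {a : Matrix ι ι ℤ → V} (h : IsSiegel N k a)
    (hN : 0 < N) (i : ι) (t : ι → ℤ) {α : Type*} (s : Finset α) {μ : α → Matrix ι ι ℤ → ℂ}
    (hμ : ∀ x ∈ s, Tame (μ x)) {τ : ℂ} (hτ : 0 < τ.im) :
    Sv N a i t (fun B ↦ ∑ x ∈ s, μ x B) τ = ∑ x ∈ s, Sv N a i t (μ x) τ := by
  classical
  induction s using Finset.induction_on with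
  | empty => simp [Sv]
  | insert x s hx ih =>
    simp only [sum_insert hx]
    rw [Sv_add h hN i t (hμ x (mem_insert_self _ _))
      (Tame.sum s fun y hy ↦ hμ y (mem_insert_of_mem hy)) hτ,
      ih fun y hy ↦ hμ y (mem_insert_of_mem hy)]

lemma Sv_congr {N : ℕ} {a : Matrix ι ι ℤ → V} (i : ι) (t : ι → ℤ) {μ ν : Matrix ι ι ℤ → ℂ}
    {τ : ℂ} (h : ∀ B : Bt i t, a B.1 ≠ 0 → μ B.1 = ν B.1) : Sv N a i t μ τ = Sv N a i t ν τ := by
  unfold Sv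
  refine tsum_congr fun B ↦ ?_
  by_cases hB : a B.1 = 0
  · simp [hB]
  · rw [h B hB]

end Pool.Agent.Results.MP_386e47_ag.SpecialCycles
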