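import Pool.Agent.Lib.SPC.G1

/-! Degree `g`: expansion in `q`, leading terms. -/

namespace Pool.Agent.Results.MP_386e47_ag.SpecialCycles

open Complex Finset Filter Topology

set_option linter.unusedSectionVars false

variable {ι : Type*} [Fintype ι] [DecidableEq ι]
variable {V : Type*} [NormedAddCommGroup V] [NormedSpace ℂ V]

/-! ### q-series -/

/-- A `q`-series with exponents in `(1/N)ℤ`. -/
noncomputable def qs (N : ℕ) (c : ℤ → V) (τ : ℂ) : V := ∑' n : ℤ, e (n * τ / N) • c n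

lemma qs_diff [CompleteSpace V] {N : ℕ} (hN : 0 < N) {c : ℤ → V} (h0 : ∀ n < 0, c n = 0)
    (hs : ∀ v : ℝ, 0 < v → Summable fun n : ℤ ↦ Real.exp (-(2 * Real.pi * n * v / N)) * ‖c n‖) :
    DifferentiableOn ℂ (qs N c) {τ | 0 < τ.im} := by
  intro τ hτ
  have hτ' : 0 < τ.im := hτ
  have hN' : (0 : ℝ) < N := by exact_mod_cast hN
  have hopen : IsOpen {w : ℂ | τ.im / 2 < w.im} := isOpen_lt continuous_const Complex.continuous_im
  have h1 : DifferentiableOn ℂ (qs N c) {w | τ.im / 2 < w.im} := by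
    unfold qs
    apply differentiableOn_tsum_of_summable_norm (hs _ (half_pos hτ')) (fun n ↦ ?_) hopen
    · intro n w hw
      have hw' : τ.im / 2 < w.im := hw
      rw [norm_smul, norm_e_int]
      by_cases hn : n < 0
      · simp [h0 n hn]
      · push Not at hn
        have hn' : (0 : ℝ) ≤ n := by exact_mod_cast hn
        apply mul_le_mul_of_nonneg_right _ (norm_nonneg _)
        rw [Real.exp_le_exp, neg_le_neg_iff]
        gcongr
    · apply Differentiable.differentiableOn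
      have : Differentiable ℂ e := e_diff
      fun_prop
  exact (h1.differentiableAt (hopen.mem_nhds (by simpa using hτ'))).differentiableWithinAt

lemma qs_growth [CompleteSpace V] {N : ℕ} (hN : 0 < N) {c : ℤ → V} (m : ℤ)
    (h0 : ∀ n < m, c n = 0)
    (hs : ∀ v : ℝ, 0 < v → Summable fun n : ℤ ↦ Real.exp (-(2 * Real.pi * n * v / N)) * ‖c n‖) :
    ∃ C, ∀ τ : ℂ, 1 ≤ τ.im →
      ‖qs N c τ‖ ≤ C * Real.exp (-(2 * Real.pi * (m / N) * τ.im)) := by
  have hN' : (0 : ℝ) < N := by exact_mod_cast hN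
  have hpi := Real.pi_pos
  have hs1 := hs 1 one_pos
  refine ⟨Real.exp (2 * Real.pi * m / N) *
    ∑' n : ℤ, Real.exp (-(2 * Real.pi * n * 1 / N)) * ‖c n‖, fun τ hτ ↦ ?_⟩
  have h1 : HasSum (fun n : ℤ ↦ Real.exp (2 * Real.pi * m / N) *
      (Real.exp (-(2 * Real.pi * n * 1 / N)) * ‖c n‖) * Real.exp (-(2 * Real.pi * (m / N) * τ.im)))
      (Real.exp (2 * Real.pi * m / N) *
        (∑' n : ℤ, Real.exp (-(2 * Real.pi * n * 1 / N)) * ‖c n‖) *
        Real.exp (-(2 * Real.pi * (m / N) * τ.im))) := (hs1.hasSum.mul_left _).mul_right _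
  unfold qs
  refine tsum_of_norm_bounded h1 fun n ↦ ?_
  rw [norm_smul, norm_e_int]
  by_cases hn : n < m
  · simp [h0 n hn]
  · push Not at hn
    have hnm : (m : ℝ) ≤ n := by exact_mod_cast hn
    have h2 : Real.exp (-(2 * Real.pi * n * τ.im / N)) ≤ Real.exp (2 * Real.pi * m / N) *
        Real.exp (-(2 * Real.pi * n * 1 / N)) * Real.exp (-(2 * Real.pi * (m / N) * τ.im)) := by
      rw [← Real.exp_add, ← Real.exp_add, Real.exp_le_exp]
      have h3 : 2 * Real.pi * m / N + -(2 * Real.pi * n * 1 / N) +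
          -(2 * Real.pi * (m / N) * τ.im) -
          -(2 * Real.pi * n * τ.im / N) = 2 * Real.pi / N * ((n - m) * (τ.im - 1)) := by
        field_simp
        ring
      have h4 : 0 ≤ 2 * Real.pi / N * ((n - m) * (τ.im - 1)) :=
        mul_nonneg (by positivity) (mul_nonneg (by linarith) (by linarith))
      linarith
    calc _ ≤ (Real.exp (2 * Real.pi * m / N) *
        Real.exp (-(2 * Real.pi * n * 1 / N)) * Real.exp (-(2 * Real.pi * (m / N) * τ.im))) *
          ‖c n‖ := mul_le_mul_of_nonneg_right h2 (norm_nonneg _)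
      _ = _ := by ring

lemma qs_uniq [CompleteSpace V] {N : ℕ} (hN : 0 < N) {c : ℤ → V} (h0 : ∀ n < 0, c n = 0)
    (hs : ∀ v : ℝ, 0 < v → Summable fun n : ℤ ↦ Real.exp (-(2 * Real.pi * n * v / N)) * ‖c n‖)
    (hz : ∀ τ : ℂ, 0 < τ.im → qs N c τ = 0) : ∀ n, c n = 0 := by
  have hN0 : (N : ℂ) ≠ 0 := by exact_mod_cast hN.ne'
  have hpi : (2 * Real.pi * I : ℂ) ≠ 0 := Complex.two_pi_I_ne_zero
  have hnat : ∀ τ : ℂ, qs N c τ = ∑' n : ℕ, e ((n : ℤ) * τ / N) • c n := by
    intro τ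
    unfold qs
    rw [← Function.Injective.tsum_eq (g := fun n : ℕ ↦ (n : ℤ)) Nat.cast_injective]
    intro n hn
    rw [Function.mem_support] at hn
    rcases lt_or_ge n 0 with h | h
    · exact absurd (by rw [h0 n h, smul_zero]) hn
    · exact ⟨n.toNat, Int.toNat_of_nonneg h⟩
  have hsn : Summable fun n : ℕ ↦ ‖e (((n : ℤ) : ℂ) * I / N) • c n‖ := by
    have := (hs 1 one_pos).comp_injective (i := fun n : ℕ ↦ (n : ℤ)) Nat.cast_injective
    refine this.congr fun n ↦ ?_
    simp only [Function.comp]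
    rw [norm_smul, norm_e_int, Complex.I_im]
  have hq : ∀ᶠ q : ℂ in 𝓝[≠] 0, ∑' n : ℕ, q ^ n • (e (((n : ℤ) : ℂ) * I / N) • c n) = 0 := by
    have hball : ∀ᶠ z : ℂ in 𝓝[≠] 0, ‖z‖ ≤ 1 := by
      have : ∀ᶠ q : ℂ in 𝓝 0, ‖q‖ ≤ 1 := by
        filter_upwards [Metric.ball_mem_nhds (0 : ℂ) one_pos] with q hq
        exact (mem_ball_zero_iff.mp hq).le
      exact this.filter_mono nhdsWithin_le_nhds
    filter_upwards [hball, self_mem_nhdsWithin] with q hq hne
    set w : ℂ := Complex.log q / (2 * Real.pi * I) with hw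
    have hew : e w = q := by
      unfold e
      rw [hw, mul_div_cancel₀ _ hpi, Complex.exp_log hne]
    have him : 0 ≤ w.im := by
      have h1 := norm_e w
      rw [hew] at h1
      rw [h1, Real.exp_le_one_iff] at hq
      have := Real.pi_pos
      by_contra hlt
      push Not at hlt
      nlinarith
    have h2 := hz (I + N * w) (by
      have : (I + N * w).im = 1 + N * w.im := by simp
      rw [this]
      positivity)
    rw [hnat] at h2
    rw [← h2]
    refine tsum_congr fun n ↦ ?_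
    rw [smul_smul]
    congr 1
    have h3 : (((n : ℤ) : ℂ)) * (I + N * w) / N = n * w + ((n : ℤ) : ℂ) * I / N := by
      push_cast
      field_simp
      ring
    rw [h3, e_add, e_nat_mul, hew]
  have hz2 := ps_uniq hsn hq
  intro n
  rcases lt_or_ge n 0 with h | h
  · exact h0 n h
  · have h4 := hz2 n.toNat
    rw [Int.toNat_of_nonneg h] at h4
    exact (smul_eq_zero.mp h4).resolve_left (e_ne_zero _)

/-! ### The vertex series as a `q`-series -/

/-- Fibration of `Bt i t` over the diagonal entry at `i`. -/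
def fibE (i : ι) (t : ι → ℤ) : Bt i t ≃ Σ n : ℤ, Bd (Function.update t i n) where
  toFun B := ⟨B.1 i i, ⟨B.1, fun j ↦ by
    by_cases hj : j = i
    · subst hj; simp
    · rw [Function.update_of_ne hj]; exact B.2 j hj⟩⟩
  invFun x := ⟨x.2.1, fun j hj ↦ by rw [x.2.2 j, Function.update_of_ne hj]⟩
  left_inv B := rfl
  right_inv x := by
    obtain ⟨n, B, hB⟩ := x
    have h := hB i
    rw [Function.update_self] at h
    subst h
    rfl

/-- The coefficient of `q^{n/N}`. -/
noncomputable def cq (a : Matrix ι ι ℤ → V) (i : ι) (t : ι → ℤ) (μ : Matrix ι ι ℤ → ℂ)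
    (n : ℤ) : V := ∑' B : Bd (Function.update t i n), μ B.1 • a B.1

lemma cq_mono (a : Matrix ι ι ℤ → V) (i : ι) (t : ι → ℤ) (es : List (ι × ι)) (n : ℤ) :
    cq a i t (mono es) n = Mom a es (Function.update t i n) := rfl

lemma cq_neg {N : ℕ} {k : ℝ} {a : Matrix ι ι ℤ → V} (h : IsSiegel N k a) (i : ι) (t : ι → ℤ)
    (μ : Matrix ι ι ℤ → ℂ) (n : ℤ) (hn : n < 0) : cq a i t μ n = 0 := by
  unfold cq
  refine (tsum_congr fun B ↦ ?_).trans tsum_zero
  by_cases hB : a B.1 = 0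
  · rw [hB, smul_zero]
  · have h1 := psd_diag (h.symm _ hB) (h.psd _ hB) i
    rw [B.2 i, Function.update_self] at h1
    omega

lemma Sv_eq_qs [CompleteSpace V] {N : ℕ} {k : ℝ} {a : Matrix ι ι ℤ → V} (h : IsSiegel N k a)
    (hN : 0 < N) (i : ι) (t : ι → ℤ) {μ : Matrix ι ι ℤ → ℂ} (hμ : Tame μ) {τ : ℂ}
    (hτ : 0 < τ.im) : Sv N a i t μ τ = qs N (cq a i t μ) τ := by
  have h1 := Sv_summ h hN i t hμ hτ
  set f : (Σ n : ℤ, Bd (Function.update t i n)) → V :=
    fun x ↦ (e ((x.1 : ℤ) * τ / N) * μ x.2.1) • a x.2.1 with hf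
  have h2 : Summable f := by
    rw [← (fibE i t).summable_iff]
    exact h1
  have h3 : Sv N a i t μ τ = ∑' x, f x := by
    rw [← (fibE i t).tsum_eq]
    rfl
  rw [h3, h2.tsum_sigma]
  unfold qs cq
  refine tsum_congr fun n ↦ ?_
  rw [← tsum_const_smul'']
  refine tsum_congr fun B ↦ ?_
  rw [smul_smul]

lemma cq_summ [CompleteSpace V] {N : ℕ} {k : ℝ} {a : Matrix ι ι ℤ → V} (h : IsSiegel N k a)
    (hN : 0 < N) (i : ι) (t : ι → ℤ) {μ : Matrix ι ι ℤ → ℂ} (hμ : Tame μ) (v : ℝ) (hv : 0 < v) :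
    Summable fun n : ℤ ↦ Real.exp (-(2 * Real.pi * n * v / N)) * ‖cq a i t μ n‖ := by
  have h1 := summ h hN i t hμ hv
  set f : (Σ n : ℤ, Bd (Function.update t i n)) → ℝ :=
    fun x ↦ Real.exp (-(2 * Real.pi * (x.1 : ℤ) * v / N)) * (‖μ x.2.1‖ * ‖a x.2.1‖) with hf
  have h2 : Summable f := by
    rw [← (fibE i t).summable_iff]
    exact h1
  refine Summable.of_nonneg_of_le (fun n ↦ by positivity) (fun n ↦ ?_) h2.sigma
  have h3 : Summable fun B : Bd (Function.update t i n) ↦ f ⟨n, B⟩ := h2.sigma_factor n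
  have hE : Real.exp (-(2 * Real.pi * n * v / N)) ≠ 0 := (Real.exp_pos _).ne'
  have h4 : Summable fun B : Bd (Function.update t i n) ↦ ‖μ B.1 • a B.1‖ := by
    have := h3.mul_left (Real.exp (-(2 * Real.pi * n * v / N)))⁻¹
    refine this.congr fun B ↦ ?_
    rw [hf]
    simp only
    rw [norm_smul, ← mul_assoc, inv_mul_cancel₀ hE, one_mul]
  have h5 : ∑' B : Bd (Function.update t i n), f ⟨n, B⟩ =
      Real.exp (-(2 * Real.pi * n * v / N)) * ∑' B : Bd (Function.update t i n), ‖μ B.1 • a B.1‖ := by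
    rw [← tsum_mul_left]
    refine tsum_congr fun B ↦ ?_
    rw [hf]
    simp only
    rw [norm_smul]
  rw [h5]
  exact mul_le_mul_of_nonneg_left (norm_tsum_le_tsum_norm h4) (Real.exp_pos _).le

end Pool.Agent.Results.MP_386e47_ag.SpecialCycles
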