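import Pool.Agent.Lib.SPC.G2

/-! Degree `g`: leading terms along curves, entire functions of one variable. -/

namespace Pool.Agent.Results.MP_386e47_ag.SpecialCycles

open Complex Finset Filter Topology

set_option linter.unusedSectionVars false

variable {ι : Type*} [Fintype ι] [DecidableEq ι]
variable {V : Type*} [NormedAddCommGroup V] [NormedSpace ℂ V]

/-- The remainder function. -/
noncomputable def hh (d : ℕ) (l1 l2 ε : ℂ) : ℂ :=
  (ε ^ d)⁻¹ * (Complex.exp (ε * (l1 + ε * l2)) -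
    ∑ m ∈ range d, (ε * (l1 + ε * l2)) ^ m / m.factorial)

lemma hh_bound (d : ℕ) (l1 l2 : ℂ) {ε : ℂ} (h0 : ε ≠ 0) (h1 : ‖ε‖ ≤ 1) :
    ‖hh d l1 l2 ε‖ ≤ d.factorial * Real.exp (2 * (‖l1‖ + ‖l2‖)) := by
  have hε : 0 < ‖ε‖ := norm_pos_iff.mpr h0
  set w := l1 + ε * l2 with hw
  have hwn : ‖w‖ ≤ ‖l1‖ + ‖l2‖ := by
    refine (norm_add_le _ _).trans ?_
    rw [norm_mul]
    have := mul_le_mul_of_nonneg_right h1 (norm_nonneg l2)
    linarith
  have h2 := Complex.norm_exp_sub_sum_le_norm_mul_exp (ε * w) d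
  unfold hh
  rw [norm_mul, norm_inv, norm_pow]
  have h3 : ‖ε * w‖ ≤ ‖w‖ := by
    rw [norm_mul]; exact mul_le_of_le_one_left (norm_nonneg _) h1
  calc (‖ε‖ ^ d)⁻¹ * ‖Complex.exp (ε * w) - ∑ m ∈ range d, (ε * w) ^ m / m.factorial‖
      ≤ (‖ε‖ ^ d)⁻¹ * (‖ε * w‖ ^ d * Real.exp ‖ε * w‖) :=
        mul_le_mul_of_nonneg_left h2 (by positivity)
    _ = ‖w‖ ^ d * Real.exp ‖ε * w‖ := by
        rw [norm_mul, mul_pow]
        field_simp
    _ ≤ (d.factorial * Real.exp ‖w‖) * Real.exp ‖w‖ := by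
        apply mul_le_mul _ (Real.exp_le_exp.mpr h3) (Real.exp_pos _).le (by positivity)
        have := Real.pow_div_factorial_le_exp ‖w‖ (norm_nonneg _) d
        rw [div_le_iff₀ (by exact_mod_cast d.factorial_pos)] at this
        linarith
    _ = d.factorial * Real.exp (2 * ‖w‖) := by
        rw [mul_assoc, ← Real.exp_add]; congr 2; ring
    _ ≤ _ := by
        apply mul_le_mul_of_nonneg_left _ (by positivity)
        rw [Real.exp_le_exp]; linarith

lemma hh_lim (d : ℕ) (l1 l2 : ℂ) :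
    Tendsto (hh d l1 l2) (𝓝[≠] 0) (𝓝 (l1 ^ d / d.factorial)) := by
  set w : ℂ → ℂ := fun ε ↦ l1 + ε * l2 with hw
  have hwc : Continuous w := by fun_prop
  have hw0 : w 0 = l1 := by simp [hw]
  -- main term plus remainder
  have hmain : Tendsto (fun ε ↦ w ε ^ d / d.factorial) (𝓝[≠] 0) (𝓝 (l1 ^ d / d.factorial)) := by
    have hc : Continuous fun ε ↦ w ε ^ d / (d.factorial : ℂ) := by fun_prop
    have := hc.tendsto 0
    simp only [hw0] at this
    exact this.mono_left nhdsWithin_le_nhds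
  have hrem : Tendsto (fun ε ↦ hh d l1 l2 ε - w ε ^ d / d.factorial) (𝓝[≠] 0) (𝓝 0) := by
    have hb : Tendsto (fun ε : ℂ ↦ ‖ε‖ * (‖w ε‖ ^ (d + 1) * Real.exp ‖ε * w ε‖)) (𝓝[≠] 0)
        (𝓝 0) := by
      have hc : Continuous fun ε : ℂ ↦ ‖ε‖ * (‖w ε‖ ^ (d + 1) * Real.exp ‖ε * w ε‖) := by fun_prop
      have := hc.tendsto 0
      simp only [norm_zero, zero_mul] at this
      exact this.mono_left nhdsWithin_le_nhds
    refine squeeze_zero_norm' ?_ hb
    filter_upwards [self_mem_nhdsWithin] with ε hε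
    have hε0 : ε ≠ 0 := hε
    have hεn : 0 < ‖ε‖ := norm_pos_iff.mpr hε0
    have h2 := Complex.norm_exp_sub_sum_le_norm_mul_exp (ε * w ε) (d + 1)
    have h3 : hh d l1 l2 ε - w ε ^ d / d.factorial =
        (ε ^ d)⁻¹ * (Complex.exp (ε * w ε) -
          ∑ m ∈ range (d + 1), (ε * w ε) ^ m / m.factorial) := by
      unfold hh
      rw [sum_range_succ, mul_pow]
      field_simp
      ring
    rw [h3, norm_mul, norm_inv, norm_pow]
    calc (‖ε‖ ^ d)⁻¹ * ‖Complex.exp (ε * w ε) -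
          ∑ m ∈ range (d + 1), (ε * w ε) ^ m / m.factorial‖
        ≤ (‖ε‖ ^ d)⁻¹ * (‖ε * w ε‖ ^ (d + 1) * Real.exp ‖ε * w ε‖) :=
          mul_le_mul_of_nonneg_left h2 (by positivity)
      _ = _ := by
          rw [norm_mul, mul_pow, pow_succ ‖ε‖]
          field_simp
  have := hrem.add hmain
  simpa using this

/-- Leading term along a curve. -/
lemma lead_curve [CompleteSpace V] {N : ℕ} {k : ℝ} {a : Matrix ι ι ℤ → V} (h : IsSiegel N k a)
    (hN : 0 < N) (i : ι) (t : ι → ℤ) {μ l1 l2 : Matrix ι ι ℤ → ℂ} (hμ : Tame μ) (h1 : Lin l1)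
    (h2 : Lin l2) {τ : ℂ} (hτ : 0 < τ.im) (d : ℕ)
    (hv : ∀ m < d, ∀ ε : ℂ, Sv N a i t (fun B ↦ μ B * (l1 B + ε * l2 B) ^ m) τ = 0) :
    Tendsto (fun ε : ℂ ↦ (ε ^ d)⁻¹ •
      Sv N a i t (fun B ↦ μ B * Complex.exp (ε * (l1 B + ε * l2 B))) τ) (𝓝[≠] 0)
      (𝓝 (Sv N a i t (fun B ↦ μ B * (l1 B ^ d / d.factorial)) τ)) := by
  have hlin : ∀ ε : ℂ, Lin (fun B ↦ l1 B + ε * l2 B) := fun ε ↦ h1.add (h2.smul ε)
  have key : ∀ᶠ ε : ℂ in 𝓝[≠] 0, Sv N a i t (fun B ↦ μ B * hh d (l1 B) (l2 B) ε) τ =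
      (ε ^ d)⁻¹ • Sv N a i t (fun B ↦ μ B * Complex.exp (ε * (l1 B + ε * l2 B))) τ := by
    filter_upwards [self_mem_nhdsWithin] with ε hε
    have hε0 : ε ≠ 0 := hε
    have hexp : Tame (fun B ↦ μ B * Complex.exp (ε * (l1 B + ε * l2 B))) :=
      hμ.mul ((hlin ε).exp ε)
    have hterm : ∀ m : ℕ, Tame (fun B ↦ (-(ε ^ d)⁻¹ * ε ^ m / m.factorial) *
        (μ B * (l1 B + ε * l2 B) ^ m)) := fun m ↦
      (Tame.const _).mul (hμ.mul ((hlin ε).tame.pow m))
    have e1 : (fun B ↦ μ B * hh d (l1 B) (l2 B) ε) = fun B ↦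
        (ε ^ d)⁻¹ * (μ B * Complex.exp (ε * (l1 B + ε * l2 B))) +
        ∑ m ∈ range d, (-(ε ^ d)⁻¹ * ε ^ m / m.factorial) * (μ B * (l1 B + ε * l2 B) ^ m) := by
      funext B
      unfold hh
      rw [mul_sub, mul_sub, mul_sum, mul_sum, sub_eq_add_neg, ← sum_neg_distrib]
      congr 1
      · ring
      · refine sum_congr rfl fun m _ ↦ ?_
        rw [mul_pow]
        ring
    rw [e1, Sv_add h hN i t ((Tame.const _).mul hexp) (Tame.sum _ fun m _ ↦ hterm m) hτ,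
      Sv_smul, Sv_sum h hN i t _ (fun m _ ↦ hterm m) hτ]
    rw [sum_eq_zero, add_zero]
    intro m hm
    rw [Sv_smul, hv m (mem_range.mp hm) ε, smul_zero]
  refine Tendsto.congr' key ?_
  -- dominated convergence
  have hbt : Tame (fun B ↦ μ B * (((d.factorial : ℝ) : ℂ) *
      (((Real.exp (2 * ‖l1 B‖) : ℝ) : ℂ) * ((Real.exp (2 * ‖l2 B‖) : ℝ) : ℂ)))) :=
    hμ.mul ((Tame.const _).mul ((h1.expn 2 zero_le_two).mul (h2.expn 2 zero_le_two)))
  have hsb := summ h hN i t hbt hτ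
  unfold Sv
  refine tendsto_tsum_of_dominated_convergence hsb (fun B ↦ ?_) ?_
  · apply Tendsto.smul_const
    apply Tendsto.const_mul
    exact (hh_lim d (l1 B.1) (l2 B.1)).const_mul _
  · have hball : ∀ᶠ z : ℂ in 𝓝[≠] 0, ‖z‖ ≤ 1 := by
      have : ∀ᶠ q : ℂ in 𝓝 0, ‖q‖ ≤ 1 := by
        filter_upwards [Metric.ball_mem_nhds (0 : ℂ) one_pos] with q hq
        exact (mem_ball_zero_iff.mp hq).le
      exact this.filter_mono nhdsWithin_le_nhds
    filter_upwards [hball, self_mem_nhdsWithin] with ε hε1 hε0 B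
    rw [norm_smul, norm_mul, norm_e_int, mul_assoc]
    apply mul_le_mul_of_nonneg_left _ (Real.exp_pos _).le
    apply mul_le_mul_of_nonneg_right _ (norm_nonneg _)
    rw [norm_mul, norm_mul (μ B.1)]
    apply mul_le_mul_of_nonneg_left _ (norm_nonneg _)
    refine (hh_bound d _ _ hε0 hε1).trans (le_of_eq ?_)
    rw [norm_mul, norm_mul, Complex.norm_real, Complex.norm_real, Complex.norm_real,
      Real.norm_of_nonneg (Real.exp_pos _).le, Real.norm_of_nonneg (Real.exp_pos _).le,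
      Real.norm_of_nonneg (by positivity), ← Real.exp_add]
    congr 2
    ring

/-- Entire functions of one elliptic variable. -/
lemma Sv_entire [CompleteSpace V] {N : ℕ} {k : ℝ} {a : Matrix ι ι ℤ → V} (h : IsSiegel N k a)
    (hN : 0 < N) (i : ι) (t : ι → ℤ) {μ l : Matrix ι ι ℤ → ℂ} (hμ : Tame μ) (hl : Lin l) {τ : ℂ}
    (hτ : 0 < τ.im) :
    Differentiable ℂ fun x : ℂ ↦ Sv N a i t (fun B ↦ μ B * Complex.exp (x * l B)) τ := by
  intro x
  have hR : 0 ≤ ‖x‖ + 1 := by positivity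
  have hb : Tame (fun B ↦ μ B * (((Real.exp ((‖x‖ + 1) * ‖l B‖) : ℝ) : ℂ))) :=
    hμ.mul (hl.expn _ hR)
  have h1 : DifferentiableOn ℂ
      (fun x : ℂ ↦ Sv N a i t (fun B ↦ μ B * Complex.exp (x * l B)) τ)
      (Metric.ball 0 (‖x‖ + 1)) := by
    unfold Sv
    apply differentiableOn_tsum_of_summable_norm (summ h hN i t hb hτ) (fun B ↦ ?_)
      Metric.isOpen_ball
    · intro B w hw
      rw [norm_smul, norm_mul, norm_e_int, mul_assoc]
      apply mul_le_mul_of_nonneg_left _ (Real.exp_pos _).le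
      apply mul_le_mul_of_nonneg_right _ (norm_nonneg _)
      rw [norm_mul, norm_mul, Complex.norm_real, Real.norm_of_nonneg (Real.exp_pos _).le]
      apply mul_le_mul_of_nonneg_left _ (norm_nonneg _)
      refine (Complex.norm_exp_le_exp_norm _).trans ?_
      rw [Real.exp_le_exp, norm_mul]
      exact mul_le_mul_of_nonneg_right (mem_ball_zero_iff.mp hw).le (norm_nonneg _)
    · apply Differentiable.differentiableOn
      fun_prop
  exact h1.differentiableAt (Metric.isOpen_ball.mem_nhds (by simp))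

end Pool.Agent.Results.MP_386e47_ag.SpecialCycles
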