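import Pool.Agent.Lib.SPC.G3
import Pool.Agent.Lib.SPC.Div

/-! Degree `g`: polynomial weights, shears, the bound by the index. -/

namespace Pool.Agent.Results.MP_386e47_ag.SpecialCycles

open Complex Finset Filter Topology Asymptotics

set_option linter.unusedSectionVars false
set_option linter.unusedSimpArgs false
set_option linter.unnecessarySeqFocus false

variable {ι : Type*} [Fintype ι] [DecidableEq ι]
variable {V : Type*} [NormedAddCommGroup V] [NormedSpace ℂ V]

/-! ### Polynomial weights -/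

/-- Polynomials of degree `≤ n` in the off-diagonal entries. -/
def PolyLe (ι : Type*) (n : ℕ) : Submodule ℂ (Matrix ι ι ℤ → ℂ) :=
  Submodule.span ℂ {f | ∃ es : List (ι × ι), (∀ p ∈ es, p.1 ≠ p.2) ∧ es.length ≤ n ∧
    f = mono es}

lemma mono_mem {es : List (ι × ι)} (h : ∀ p ∈ es, p.1 ≠ p.2) {n : ℕ} (hn : es.length ≤ n) :
    (mono es : Matrix ι ι ℤ → ℂ) ∈ PolyLe ι n := Submodule.subset_span ⟨es, h, hn, rfl⟩

lemma const_mem (z : ℂ) (n : ℕ) : (fun _ ↦ z : Matrix ι ι ℤ → ℂ) ∈ PolyLe ι n := by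
  have h1 : (mono ([] : List (ι × ι)) : Matrix ι ι ℤ → ℂ) ∈ PolyLe ι n :=
    mono_mem (by simp) (Nat.zero_le _)
  have h2 := (PolyLe ι n).smul_mem z h1
  convert h2 using 1
  funext B
  simp [mono_nil]

lemma edge_mem {p : ι × ι} (hp : p.1 ≠ p.2) :
    (fun B ↦ ((B p.1 p.2 : ℤ) : ℂ) : Matrix ι ι ℤ → ℂ) ∈ PolyLe ι 1 := by
  have h1 : (mono [p] : Matrix ι ι ℤ → ℂ) ∈ PolyLe ι 1 := mono_mem (by simpa using hp) le_rfl
  convert h1 using 1
  funext B
  simp [mono]

lemma mul_mem_poly {f g : Matrix ι ι ℤ → ℂ} {m n : ℕ} (hf : f ∈ PolyLe ι m)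
    (hg : g ∈ PolyLe ι n) : (fun B ↦ f B * g B) ∈ PolyLe ι (m + n) := by
  have : f * g ∈ PolyLe ι m * PolyLe ι n := Submodule.mul_mem_mul hf hg
  unfold PolyLe at this
  rw [Submodule.span_mul_span] at this
  refine Submodule.span_mono ?_ this
  rintro _ ⟨_, ⟨es, h1, h2, rfl⟩, _, ⟨fs, h3, h4, rfl⟩, rfl⟩
  refine ⟨es ++ fs, ?_, ?_, ?_⟩
  · intro p hp
    rcases List.mem_append.mp hp with h | h
    · exact h1 p h
    · exact h3 p h
  · rw [List.length_append]; omega
  · funext B
    simp [mono_append]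

lemma pow_mem_poly {f : Matrix ι ι ℤ → ℂ} (hf : f ∈ PolyLe ι 1) (n : ℕ) :
    (fun B ↦ f B ^ n) ∈ PolyLe ι n := by
  induction n with
  | zero => simpa using const_mem (ι := ι) 1 0
  | succ n ih =>
    have := mul_mem_poly ih hf
    convert this using 1
    funext B
    rw [pow_succ]

/-- All moments of order `< n` vanish. -/
def Van (a : Matrix ι ι ℤ → V) (n : ℕ) : Prop :=
  ∀ es : List (ι × ι), (∀ p ∈ es, p.1 ≠ p.2) → es.length < n → ∀ t, Mom a es t = 0

lemma Sv_mono_zero [CompleteSpace V] {N : ℕ} {k : ℝ} {a : Matrix ι ι ℤ → V} (h : IsSiegel N k a)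
    (hN : 0 < N) (i : ι) (t : ι → ℤ) {es : List (ι × ι)} (he : ∀ p ∈ es, p.1 ≠ p.2)
    (h0 : ∀ t, Mom a es t = 0) {τ : ℂ} (hτ : 0 < τ.im) : Sv N a i t (mono es) τ = 0 := by
  rw [Sv_eq_qs h hN i t (mono_tame he) hτ]
  unfold qs
  refine (tsum_congr fun n ↦ ?_).trans tsum_zero
  rw [cq_mono, h0, smul_zero]

lemma Sv_poly_zero [CompleteSpace V] {N : ℕ} {k : ℝ} {a : Matrix ι ι ℤ → V} (h : IsSiegel N k a)
    (hN : 0 < N) {n : ℕ} (hv : Van a n) (i : ι) (t : ι → ℤ) {m : ℕ} (hm : m < n)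
    {f : Matrix ι ι ℤ → ℂ} (hf : f ∈ PolyLe ι m) {τ : ℂ} (hτ : 0 < τ.im) :
    Tame f ∧ Sv N a i t f τ = 0 := by
  unfold PolyLe at hf
  induction hf using Submodule.span_induction with
  | mem x hx =>
    obtain ⟨es, h1, h2, rfl⟩ := hx
    exact ⟨mono_tame h1, Sv_mono_zero h hN i t h1 (hv es h1 (lt_of_le_of_lt h2 hm)) hτ⟩
  | zero =>
    refine ⟨Tame.const 0, ?_⟩
    unfold Sv
    simp
  | add x y _ _ hx hy =>
    refine ⟨hx.1.add hy.1, ?_⟩
    have := Sv_add h hN i t hx.1 hy.1 hτ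
    rw [hx.2, hy.2, add_zero] at this
    exact this
  | smul z x _ hx =>
    refine ⟨(Tame.const z).mul hx.1, ?_⟩
    have := Sv_smul (N := N) (a := a) i t (μ := x) z (τ := τ)
    rw [hx.2, smul_zero] at this
    exact this

/-! ### Shears -/

/-- The Gram matrix after `x_j ↦ x_j + c x_i`. -/
def sh (i j : ι) (c : ℤ) (B : Matrix ι ι ℤ) : Matrix ι ι ℤ :=
  (Matrix.transvection i j c).transpose * B * Matrix.transvection i j c

lemma sh_apply (i j : ι) (c : ℤ) (B : Matrix ι ι ℤ) (p q : ι) :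
    sh i j c B p q = B p q + (if p = j then c * B i q else 0) + (if q = j then c * B p i else 0) +
      (if p = j ∧ q = j then c * c * B i i else 0) := by
  unfold sh Matrix.transvection
  rw [Matrix.transpose_add, Matrix.transpose_one, Matrix.transpose_single, add_mul, mul_add,
    mul_one, one_mul, add_mul]
  simp only [Matrix.add_apply]
  have h1 : ∀ X : Matrix ι ι ℤ, ∀ p q, (X * Matrix.single i j c) p q =
      if q = j then c * X p i else 0 := by
    intro X p q
    by_cases hq : q = j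
    · subst hq
      simp [Matrix.mul_single_apply_same, mul_comm]
    · simp [hq, Matrix.mul_single_apply_of_ne, Ne.symm, hq]
  have h2 : ∀ X : Matrix ι ι ℤ, ∀ p q, (Matrix.single j i c * X) p q =
      if p = j then c * X i q else 0 := by
    intro X p q
    by_cases hp : p = j
    · subst hp
      simp [Matrix.single_mul_apply_same]
    · simp [hp, Matrix.single_mul_apply_of_ne]
  rw [h1, h1, h2, h2]
  by_cases hp : p = j <;> by_cases hq : q = j <;> simp [hp, hq] <;> ring

lemma sh_sh (i j : ι) (hij : i ≠ j) (c d : ℤ) (hcd : c + d = 0) (B : Matrix ι ι ℤ) :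
    sh i j c (sh i j d B) = B := by
  ext p q
  simp only [sh_apply, hij, hij.symm, if_false, false_and, and_false, add_zero, if_true]
  have hd : d = -c := by omega
  subst hd
  by_cases hp : p = j <;> by_cases hq : q = j <;> simp [hp, hq, hij] <;> ring

/-- The shear as a permutation of `Bt j t`. -/
def shE (i j : ι) (hij : i ≠ j) (t : ι → ℤ) : Bt j t ≃ Bt j t where
  toFun B := ⟨sh i j 1 B.1, fun l hl ↦ by rw [sh_apply]; simp [hl, B.2 l hl]⟩
  invFun B := ⟨sh i j (-1) B.1, fun l hl ↦ by rw [sh_apply]; simp [hl, B.2 l hl]⟩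
  left_inv B := Subtype.ext (sh_sh i j hij (-1) 1 (by norm_num) B.1)
  right_inv B := Subtype.ext (sh_sh i j hij 1 (-1) (by norm_num) B.1)

/-! ### Shifts of monomials -/

/-- Off-diagonal positions different from `(i, j)` and `(j, i)`. -/
def Al (i j : ι) (p : ι × ι) : Prop := p.1 ≠ p.2 ∧ p ≠ (i, j) ∧ p ≠ (j, i)

/-- Replace `j` by `i`. -/
def rep (i j : ι) (p : ι × ι) : ι × ι := if p.1 = j then (i, p.2) else (p.1, i)

lemma Al_rep {i j : ι} (hij : i ≠ j) {p : ι × ι} (hp : Al i j p) (ht : p.1 = j ∨ p.2 = j) :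
    Al i j (rep i j p) ∧ ¬ ((rep i j p).1 = j ∨ (rep i j p).2 = j) := by
  obtain ⟨p, q⟩ := p
  obtain ⟨h1, h2, h3⟩ := hp
  simp only at h1 ht
  unfold Al rep
  by_cases hp : p = j
  · subst hp
    have hq : q ≠ i := by rintro rfl; exact h3 rfl
    simp only [if_true, ne_eq, Prod.mk.injEq, not_and]
    refine ⟨⟨fun h ↦ hq h.symm, fun _ h ↦ h1 h.symm, fun h ↦ absurd h hij⟩, ?_⟩
    rintro (h | h)
    · exact hij h
    · exact h1 h.symm
  · have hq : q = j := ht.resolve_left hp
    subst hq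
    have hpi : p ≠ i := by rintro rfl; exact h2 rfl
    simp only [hp, if_false, ne_eq, Prod.mk.injEq, not_and]
    refine ⟨⟨hpi, fun h ↦ absurd h hpi, fun h ↦ h.elim⟩, ?_⟩
    rintro (h | h)
    · exact h
    · exact hij h

lemma sh_entry {i j : ι} {p : ι × ι} (hp : Al i j p) (B : Matrix ι ι ℤ) :
    ((sh i j (-1) B p.1 p.2 : ℤ) : ℂ) = ((B p.1 p.2 : ℤ) : ℂ) -
      (if p.1 = j ∨ p.2 = j then ((B (rep i j p).1 (rep i j p).2 : ℤ) : ℂ) else 0) := by
  obtain ⟨p, q⟩ := p
  obtain ⟨h1, h2, h3⟩ := hp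
  simp only at h1
  rw [sh_apply]
  unfold rep
  by_cases hp : p = j
  · subst hp
    have hq : q ≠ p := fun h ↦ h1 h.symm
    simp [hq]
    ring
  · by_cases hq : q = j
    · subst hq
      simp [hp]
      ring
    · simp [hp, hq]

lemma mono_sh_tame {i j : ι} (hij : i ≠ j) {γ : List (ι × ι)} (hγ : ∀ p ∈ γ, Al i j p) :
    Tame (fun B : Matrix ι ι ℤ ↦ mono γ (sh i j (-1) B)) := by
  induction γ with
  | nil => exact Tame.const 1
  | cons p γ ih =>
    have hp := hγ p (List.mem_cons_self ..)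
    have ih' := ih fun q hq ↦ hγ q (List.mem_cons_of_mem _ hq)
    have h1 : Tame (fun B : Matrix ι ι ℤ ↦ ((sh i j (-1) B p.1 p.2 : ℤ) : ℂ)) := by
      by_cases ht : p.1 = j ∨ p.2 = j
      · have h2 := (Lin.edge (ι := ι) hp.1).tame.add
          ((Lin.edge (ι := ι) (Al_rep hij hp ht).1.1).smul (-1)).tame
        refine h2.mono fun B ↦ le_of_eq ?_
        rw [sh_entry hp, if_pos ht]
        congr 1
        ring
      · refine (Lin.edge (ι := ι) hp.1).tame.mono fun B ↦ le_of_eq ?_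
        rw [sh_entry hp, if_neg ht, sub_zero]
    refine (h1.mul ih').mono fun B ↦ le_of_eq ?_
    rw [mono_cons]

lemma shift_list {L : (Matrix ι ι ℤ → ℂ) → V}
    (hL : ∀ f g : Matrix ι ι ℤ → ℂ, Tame f → Tame g → L (fun B ↦ f B - g B) = L f - L g)
    {i j : ι} (hij : i ≠ j) (s e₀ : ℕ)
    (hk : ∀ δ : List (ι × ι), (∀ p ∈ δ, Al i j p) → δ.length = s →
      δ.countP (fun p ↦ p.1 = j ∨ p.2 = j) < e₀ → L (mono δ) = 0) :
    ∀ γ R : List (ι × ι), (∀ p ∈ γ, Al i j p) → (∀ p ∈ R, Al i j p) → γ.length + R.length = s →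
      γ.countP (fun p ↦ p.1 = j ∨ p.2 = j) + R.countP (fun p ↦ p.1 = j ∨ p.2 = j) ≤ e₀ →
      L (fun B ↦ mono γ (sh i j (-1) B) * mono R B) = L (fun B ↦ mono γ B * mono R B) := by
  intro γ
  induction γ with
  | nil => intro R _ _ _ _; rfl
  | cons p γ ih =>
    intro R hγ hR hlen hcnt
    have hp := hγ p (List.mem_cons_self ..)
    have hγ' : ∀ q ∈ γ, Al i j q := fun q hq ↦ hγ q (List.mem_cons_of_mem _ hq)
    have hpR : ∀ q ∈ p :: R, Al i j q := by
      intro q hq
      rcases List.mem_cons.mp hq with rfl | h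
      · exact hp
      · exact hR q h
    have hoff : ∀ {δ : List (ι × ι)}, (∀ q ∈ δ, Al i j q) → ∀ q ∈ δ, q.1 ≠ q.2 :=
      fun h q hq ↦ (h q hq).1
    have hlen1 : γ.length + (p :: R).length = s := by
      simp only [List.length_cons] at hlen ⊢; omega
    have hT := mono_sh_tame hij hγ'
    have e2 : (fun B : Matrix ι ι ℤ ↦ mono γ B * mono (p :: R) B) =
        fun B ↦ mono (p :: γ) B * mono R B := by
      funext B
      rw [mono_cons, mono_cons]
      ring
    by_cases ht : p.1 = j ∨ p.2 = j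
    · have hr := Al_rep hij hp ht
      have hrR : ∀ q ∈ rep i j p :: R, Al i j q := by
        intro q hq
        rcases List.mem_cons.mp hq with rfl | h
        · exact hr.1
        · exact hR q h
      have e1 : (fun B : Matrix ι ι ℤ ↦ mono (p :: γ) (sh i j (-1) B) * mono R B) =
          fun B ↦ mono γ (sh i j (-1) B) * mono (p :: R) B -
            mono γ (sh i j (-1) B) * mono (rep i j p :: R) B := by
        funext B
        rw [mono_cons, mono_cons, mono_cons, sh_entry hp, if_pos ht]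
        ring
      rw [e1, hL _ _ (hT.mul (mono_tame (hoff hpR))) (hT.mul (mono_tame (hoff hrR)))]
      have hc1 : (p :: γ).countP (fun p ↦ p.1 = j ∨ p.2 = j) =
          γ.countP (fun p ↦ p.1 = j ∨ p.2 = j) + 1 := by
        rw [List.countP_cons_of_pos]; simpa using ht
      have hc2 : (p :: R).countP (fun p ↦ p.1 = j ∨ p.2 = j) =
          R.countP (fun p ↦ p.1 = j ∨ p.2 = j) + 1 := by
        rw [List.countP_cons_of_pos]; simpa using ht
      have hc3 : (rep i j p :: R).countP (fun p ↦ p.1 = j ∨ p.2 = j) =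
          R.countP (fun p ↦ p.1 = j ∨ p.2 = j) := by
        rw [List.countP_cons_of_neg]; simpa using hr.2
      rw [ih (p :: R) hγ' hpR hlen1 (by omega),
        ih (rep i j p :: R) hγ' hrR (by simpa using hlen1) (by omega), e2]
      have e3 : (fun B : Matrix ι ι ℤ ↦ mono γ B * mono (rep i j p :: R) B) =
          mono (γ ++ (rep i j p :: R)) := by
        funext B; rw [mono_append]
      rw [e3, hk (γ ++ (rep i j p :: R)) ?_ ?_ ?_, sub_zero]
      · intro q hq
        rcases List.mem_append.mp hq with h | h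
        · exact hγ' q h
        · exact hrR q h
      · rw [List.length_append]; simpa using hlen1
      · rw [List.countP_append]; omega
    · have e1 : (fun B : Matrix ι ι ℤ ↦ mono (p :: γ) (sh i j (-1) B) * mono R B) =
          fun B ↦ mono γ (sh i j (-1) B) * mono (p :: R) B := by
        funext B
        rw [mono_cons, mono_cons, sh_entry hp, if_neg ht]
        ring
      have hc1 : (p :: γ).countP (fun p ↦ p.1 = j ∨ p.2 = j) =
          γ.countP (fun p ↦ p.1 = j ∨ p.2 = j) := by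
        rw [List.countP_cons_of_neg]; simpa using ht
      have hc2 : (p :: R).countP (fun p ↦ p.1 = j ∨ p.2 = j) =
          R.countP (fun p ↦ p.1 = j ∨ p.2 = j) := by
        rw [List.countP_cons_of_neg]; simpa using ht
      rw [e1, ih (p :: R) hγ' hpR hlen1 (by omega), e2]

end Pool.Agent.Results.MP_386e47_ag.SpecialCycles
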