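import Pool.Agent.Lib.SPC.G4

/-! Degree `g`: the exponent of `z_{ij}` in a leading monomial is at most twice the index. -/

namespace Pool.Agent.Results.MP_386e47_ag.SpecialCycles

open Complex Finset Filter Topology Asymptotics

set_option linter.unusedSectionVars false
set_option linter.unusedSimpArgs false

variable {ι : Type*} [Fintype ι] [DecidableEq ι]
variable {V : Type*} [NormedAddCommGroup V] [NormedSpace ℂ V]

/-- The linear form `4πi B_{ij} / N`. -/
noncomputable def le (N : ℕ) (i j : ι) (B : Matrix ι ι ℤ) : ℂ :=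
  4 * Real.pi * I / N * ((B i j : ℤ) : ℂ)

lemma le_lin (N : ℕ) {i j : ι} (hij : i ≠ j) : Lin (le N i j) :=
  (Lin.edge (p := (i, j)) hij).smul _

/-- The elliptic function attached to a monomial. -/
noncomputable def Fx (N : ℕ) (a : Matrix ι ι ℤ → V) (i j : ι) (t : ι → ℤ) (τ : ℂ)
    (γ : List (ι × ι)) (x : ℂ) : V :=
  Sv N a j t (fun B ↦ mono γ B * Complex.exp (x * le N i j B)) τ

lemma Al_off {i j : ι} {γ : List (ι × ι)} (h : ∀ p ∈ γ, Al i j p) : ∀ p ∈ γ, p.1 ≠ p.2 :=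
  fun p hp ↦ (h p hp).1

lemma Fx_one [CompleteSpace V] {N : ℕ} {k : ℝ} {a : Matrix ι ι ℤ → V} (h : IsSiegel N k a)
    (hN : 0 < N) {i j : ι} (hij : i ≠ j) (t : ι → ℤ) {τ : ℂ} (hτ : 0 < τ.im)
    {γ : List (ι × ι)} (hγ : ∀ p ∈ γ, Al i j p) (x : ℂ) :
    ‖Fx N a i j t τ γ (x + 1)‖ = ‖Fx N a i j t τ γ x‖ := by
  obtain ⟨σ, hσ⟩ := h.trans (Matrix.single i j 1 + Matrix.single j i 1) (by
    unfold Matrix.IsSymm
    rw [Matrix.transpose_add, Matrix.transpose_single, Matrix.transpose_single, add_comm])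
  have hsum := Sv_summ h hN j t ((mono_tame (Al_off hγ)).mul ((le_lin N hij).exp x)) hτ
  have key : Fx N a i j t τ γ (x + 1) = σ (Fx N a i j t τ γ x) := by
    unfold Fx Sv
    rw [show σ (∑' B : Bt j t, (e ((B.1 j j : ℤ) * τ / N) *
      (mono γ B.1 * Complex.exp (x * le N i j B.1))) • a B.1) =
      σ.toContinuousLinearMap (∑' B : Bt j t, (e ((B.1 j j : ℤ) * τ / N) *
      (mono γ B.1 * Complex.exp (x * le N i j B.1))) • a B.1) from rfl,
      ContinuousLinearMap.map_tsum _ hsum]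
    refine tsum_congr fun B ↦ ?_
    rw [LinearIsometry.coe_toContinuousLinearMap, map_smul, ← hσ, smul_smul]
    by_cases hB : a B.1 = 0
    · rw [hB, smul_zero, smul_zero]
    · congr 1
      have hs := congrFun (congrFun (h.symm _ hB) i) j
      rw [Matrix.transpose_apply] at hs
      have htr : ((Matrix.single i j (1 : ℤ) + Matrix.single j i 1) * B.1).trace =
          B.1 i j + B.1 j i := by
        rw [add_mul, Matrix.trace_add]
        simp [Matrix.trace_single_mul, add_comm]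
      rw [htr, hs]
      unfold e le
      have e3 : Complex.exp ((x + 1) * (4 * Real.pi * I / N * ((B.1 i j : ℤ) : ℂ))) =
          Complex.exp (x * (4 * Real.pi * I / N * ((B.1 i j : ℤ) : ℂ))) *
          Complex.exp (2 * Real.pi * I * (((B.1 i j + B.1 i j : ℤ) : ℂ) / N)) := by
        rw [← Complex.exp_add]
        congr 1
        push_cast
        ring
      beta_reduce
      rw [e3]
      ring
  rw [key, LinearIsometry.norm_map]

lemma Fx_sub [CompleteSpace V] {N : ℕ} {k : ℝ} {a : Matrix ι ι ℤ → V} (h : IsSiegel N k a)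
    (hN : 0 < N) {i j : ι} (hij : i ≠ j) (t : ι → ℤ) {τ : ℂ} (hτ : 0 < τ.im) (x : ℂ)
    (f g : Matrix ι ι ℤ → ℂ) (hf : Tame f) (hg : Tame g) :
    Sv N a j t (fun B ↦ (f B - g B) * Complex.exp (x * le N i j B)) τ =
    Sv N a j t (fun B ↦ f B * Complex.exp (x * le N i j B)) τ -
      Sv N a j t (fun B ↦ g B * Complex.exp (x * le N i j B)) τ := by
  have hE := (le_lin N hij).exp x
  have h1 := Sv_add h hN j t (hf.mul hE) ((Tame.const (-1)).mul (hg.mul hE)) hτ
  have h2 := Sv_smul (N := N) (a := a) j t (μ := fun B ↦ g B * Complex.exp (x * le N i j B)) (-1)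
    (τ := τ)
  rw [h2, neg_one_smul, ← sub_eq_add_neg] at h1
  rw [← h1]
  congr 1
  funext B
  ring

lemma Fx_tau [CompleteSpace V] {N : ℕ} {k : ℝ} {a : Matrix ι ι ℤ → V} (h : IsSiegel N k a)
    (hN : 0 < N) {i j : ι} (hij : i ≠ j) (t : ι → ℤ) {τ : ℂ} (hτ : 0 < τ.im)
    {γ : List (ι × ι)} (hγ : ∀ p ∈ γ, Al i j p)
    (hk : ∀ δ : List (ι × ι), (∀ p ∈ δ, Al i j p) → δ.length = γ.length →
      δ.countP (fun p ↦ p.1 = j ∨ p.2 = j) < γ.countP (fun p ↦ p.1 = j ∨ p.2 = j) →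
      ∀ x, Fx N a i j t τ δ x = 0) (x : ℂ) :
    ‖Fx N a i j t τ γ (x + τ)‖ = ‖Fx N a i j t τ γ x‖ *
      Real.exp (Real.pi * ((2 * (t i : ℝ) / N) * (2 * x.im + τ.im) - 0 * τ.im)) := by
  have hN0 : (N : ℂ) ≠ 0 := by exact_mod_cast hN.ne'
  obtain ⟨ρ, hρ⟩ := h.gl (Matrix.transvection i j (-1)) (by
    rw [Matrix.det_transvection_of_ne i j hij]; exact isUnit_one)
  have hρ' : ∀ B, a (sh i j (-1) B) = ρ (a B) := hρ
  set g : Bt j t → V := fun B ↦ (e ((B.1 j j : ℤ) * τ / N) *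
    (mono γ (sh i j (-1) B.1) * Complex.exp (x * le N i j B.1))) • a B.1 with hg
  have hsum : Summable g := Sv_summ h hN j t ((mono_sh_tame hij hγ).mul ((le_lin N hij).exp x)) hτ
  set C : ℂ := e (-((t i : ℤ) : ℂ) * (τ + 2 * x) / N) with hC
  have hterm : ∀ B : Bt j t, (e ((B.1 j j : ℤ) * τ / N) *
      (mono γ B.1 * Complex.exp ((x + τ) * le N i j B.1))) • a B.1 =
      C • ρ (g (shE i j hij t B)) := by
    intro B
    have hsh : sh i j (-1) (sh i j 1 B.1) = B.1 := sh_sh i j hij (-1) 1 (by norm_num) B.1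
    have haB : a B.1 = ρ (a (sh i j 1 B.1)) := by rw [← hρ', hsh]
    have hgB : g (shE i j hij t B) = (e (((sh i j 1 B.1) j j : ℤ) * τ / N) *
        (mono γ B.1 * Complex.exp (x * le N i j (sh i j 1 B.1)))) • a (sh i j 1 B.1) := by
      rw [hg]
      simp only [shE, Equiv.coe_fn_mk]
      rw [hsh]
    rw [hgB, map_smul, ← haB, smul_smul]
    by_cases hB : a B.1 = 0
    · rw [hB, smul_zero, smul_zero]
    · congr 1
      have hs := congrFun (congrFun (h.symm _ hB) i) j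
      rw [Matrix.transpose_apply] at hs
      have hii : B.1 i i = t i := B.2 i hij
      have hjj' : sh i j 1 B.1 j j = B.1 j j + 2 * B.1 i j + t i := by
        rw [sh_apply]
        simp only [if_true, and_self, one_mul, mul_one, hs, hii]
        ring
      have hij' : sh i j 1 B.1 i j = B.1 i j + t i := by
        rw [sh_apply]
        simp [hij, hii]
      rw [hC]
      unfold le e
      rw [hjj', hij']
      have e1 : Complex.exp (2 * Real.pi * I * ((B.1 j j : ℤ) * τ / N)) *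
          (mono γ B.1 * Complex.exp ((x + τ) * (4 * Real.pi * I / N * ((B.1 i j : ℤ) : ℂ)))) =
          mono γ B.1 * (Complex.exp (2 * Real.pi * I * ((B.1 j j : ℤ) * τ / N)) *
            Complex.exp ((x + τ) * (4 * Real.pi * I / N * ((B.1 i j : ℤ) : ℂ)))) := by ring
      have e2 : Complex.exp (2 * Real.pi * I * (-((t i : ℤ) : ℂ) * (τ + 2 * x) / N)) *
          (Complex.exp (2 * Real.pi * I * (((B.1 j j + 2 * B.1 i j + t i : ℤ) : ℂ) * τ / N)) *
          (mono γ B.1 * Complex.exp (x * (4 * Real.pi * I / N *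
            ((B.1 i j + t i : ℤ) : ℂ))))) =
          mono γ B.1 * (Complex.exp (2 * Real.pi * I * (-((t i : ℤ) : ℂ) * (τ + 2 * x) / N)) *
          Complex.exp (2 * Real.pi * I * (((B.1 j j + 2 * B.1 i j + t i : ℤ) : ℂ) * τ / N)) *
          Complex.exp (x * (4 * Real.pi * I / N * ((B.1 i j + t i : ℤ) : ℂ)))) := by ring
      rw [e1, e2, ← Complex.exp_add, ← Complex.exp_add, ← Complex.exp_add]
      congr 2
      push_cast
      field_simp
      ring
  have key : Fx N a i j t τ γ (x + τ) =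
      C • ρ (Sv N a j t (fun B ↦ mono γ (sh i j (-1) B) * Complex.exp (x * le N i j B)) τ) := by
    unfold Fx Sv
    rw [tsum_congr hterm, tsum_const_smul'']
    congr 1
    rw [(shE i j hij t).tsum_eq (fun B ↦ ρ (g B))]
    exact (ContinuousLinearMap.map_tsum ρ.toContinuousLinearMap hsum).symm
  have hL := shift_list (L := fun f ↦ Sv N a j t
      (fun B ↦ f B * Complex.exp (x * le N i j B)) τ)
    (fun f g hf hg ↦ Fx_sub h hN hij t hτ x f g hf hg) hij γ.length
    (γ.countP (fun p ↦ p.1 = j ∨ p.2 = j))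
    (fun δ h1 h2 h3 ↦ hk δ h1 h2 h3 x) γ [] hγ (by simp) (by simp) (by simp)
  simp only [mono_nil, mul_one] at hL
  rw [key, hL, norm_smul, LinearIsometry.norm_map, mul_comm]
  congr 1
  rw [hC, norm_e]
  congr 1
  have : (-((t i : ℤ) : ℂ) * (τ + 2 * x) / N).im = -(t i : ℝ) * (τ.im + 2 * x.im) / N := by
    have h1 : (-((t i : ℤ) : ℂ) * (τ + 2 * x) / N) =
        ((-(t i : ℝ) / N : ℝ) : ℂ) * (τ + 2 * x) := by push_cast; ring
    rw [h1, Complex.im_ofReal_mul]
    simp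
    ring
  rw [this]
  ring

/-- The exponent of `z_{ij}` in a leading monomial is at most `2 t_i / N`. -/
lemma step2 [CompleteSpace V] {N : ℕ} {k : ℝ} {a : Matrix ι ι ℤ → V} (h : IsSiegel N k a)
    (hN : 0 < N) {n : ℕ} (hv : Van a n) {i j : ι} (hij : i ≠ j) {γ : List (ι × ι)}
    (hγ : ∀ p ∈ γ, Al i j p) {c : ℕ} (hn : γ.length + c = n) (t : ι → ℤ)
    (hne : Mom a (γ ++ List.replicate c (i, j)) t ≠ 0) : (c : ℝ) ≤ 2 * (t i : ℝ) / N := by
  have hNr : (0 : ℝ) < N := by exact_mod_cast hN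
  have hN0 : (N : ℂ) ≠ 0 := by exact_mod_cast hN.ne'
  have hlnz : (4 * Real.pi * I / N : ℂ) ≠ 0 := by
    apply div_ne_zero _ hN0
    apply mul_ne_zero _ Complex.I_ne_zero
    apply mul_ne_zero (by norm_num)
    exact_mod_cast Real.pi_ne_zero
  have hrep : ∀ m : ℕ, ∀ B : Matrix ι ι ℤ, mono (List.replicate m (i, j)) B =
      ((B i j : ℤ) : ℂ) ^ m := by
    intro m B
    simp [mono, List.map_replicate, List.prod_replicate]
  have hes : ∀ (δ : List (ι × ι)) (m : ℕ), (∀ p ∈ δ, Al i j p) →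
      ∀ p ∈ δ ++ List.replicate m (i, j), p.1 ≠ p.2 := by
    intro δ m hδ p hp
    rcases List.mem_append.mp hp with h1 | h1
    · exact (hδ p h1).1
    · rw [List.eq_of_mem_replicate h1]; exact hij
  -- Taylor coefficients of order `m` with `length + m < n` vanish
  have hvan : ∀ (δ : List (ι × ι)), (∀ p ∈ δ, Al i j p) → ∀ m : ℕ, δ.length + m < n →
      ∀ {τ : ℂ}, 0 < τ.im → ∀ ε : ℂ,
      Sv N a j t (fun B ↦ mono δ B * (le N i j B + ε * (fun _ ↦ (0 : ℂ)) B) ^ m) τ = 0 := by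
    intro δ hδ m hm τ hτ ε
    have h1 := Sv_mono_zero h hN j t (hes δ m hδ)
      (hv _ (hes δ m hδ) (by rw [List.length_append, List.length_replicate]; exact hm)) hτ
    have h2 := Sv_smul (N := N) (a := a) j t (μ := mono (δ ++ List.replicate m (i, j)))
      ((4 * Real.pi * I / N) ^ m) (τ := τ)
    rw [h1, smul_zero] at h2
    rw [← h2]
    congr 1
    funext B
    rw [mono_append, hrep]
    unfold le
    simp only [mul_zero, add_zero]
    rw [mul_pow]
    ring
  -- a point where the leading coefficient does not vanish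
  obtain ⟨τ, hτ, hτ0⟩ : ∃ τ : ℂ, 0 < τ.im ∧
      Sv N a j t (mono (γ ++ List.replicate c (i, j))) τ ≠ 0 := by
    by_contra hcon
    push Not at hcon
    have ht := mono_tame (ι := ι) (hes γ c hγ)
    have h1 := qs_uniq hN (fun n hn ↦ cq_neg h j t _ n hn) (cq_summ h hN j t ht)
      (fun τ hτ ↦ by rw [← Sv_eq_qs h hN j t ht hτ]; exact hcon τ hτ) (t j)
    rw [cq_mono, Function.update_eq_self] at h1
    exact hne h1
  -- `Fx γ` is not identically zero
  have hFγ : ∃ x, Fx N a i j t τ γ x ≠ 0 := by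
    by_contra hcon
    push Not at hcon
    have h1 := lead_curve h hN j t (mono_tame (Al_off hγ)) (le_lin N hij) (Lin.const 0) hτ c
      (fun m hm ε ↦ hvan γ hγ m (by omega) hτ ε)
    have h2 : Tendsto (fun ε : ℂ ↦ (ε ^ c)⁻¹ • Sv N a j t (fun B ↦ mono γ B *
        Complex.exp (ε * (le N i j B + ε * (fun _ ↦ (0 : ℂ)) B))) τ) (𝓝[≠] 0) (𝓝 0) := by
      refine tendsto_const_nhds.congr fun ε ↦ ?_
      have h3 := hcon ε
      unfold Fx at h3
      simp only [mul_zero, add_zero]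
      rw [h3, smul_zero]
    have h3 := tendsto_nhds_unique h1 h2
    apply hτ0
    have h4 := Sv_smul (N := N) (a := a) j t (μ := mono (γ ++ List.replicate c (i, j)))
      ((4 * Real.pi * I / N) ^ c / c.factorial) (τ := τ)
    have h5 : (fun B ↦ mono γ B * (le N i j B ^ c / c.factorial)) =
        fun B ↦ (4 * Real.pi * I / N) ^ c / c.factorial *
          mono (γ ++ List.replicate c (i, j)) B := by
      funext B
      rw [mono_append, hrep]
      unfold le
      rw [mul_pow]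
      ring
    rw [h5, h4] at h3
    refine (smul_eq_zero.mp h3).resolve_left (div_ne_zero (pow_ne_zero _ hlnz) ?_)
    exact_mod_cast c.factorial_ne_zero
  -- choose the minimal monomial
  classical
  let P : ℕ → Prop := fun s ↦ ∃ δ : List (ι × ι), (∀ p ∈ δ, Al i j p) ∧ δ.length = s ∧
    ∃ x, Fx N a i j t τ δ x ≠ 0
  have hP : ∃ s, P s := ⟨γ.length, γ, hγ, rfl, hFγ⟩
  obtain ⟨s, hs, hsmin⟩ : ∃ s, P s ∧ ∀ s' < s, ¬ P s' :=
    ⟨Nat.find hP, Nat.find_spec hP, fun s' hs' ↦ Nat.find_min hP hs'⟩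
  have hsγ : s ≤ γ.length := by
    by_contra hlt
    push Not at hlt
    exact hsmin _ hlt ⟨γ, hγ, rfl, hFγ⟩
  let Q : ℕ → Prop := fun m ↦ ∃ δ : List (ι × ι), (∀ p ∈ δ, Al i j p) ∧ δ.length = s ∧
    δ.countP (fun p ↦ p.1 = j ∨ p.2 = j) = m ∧ ∃ x, Fx N a i j t τ δ x ≠ 0
  have hQ : ∃ m, Q m := by
    obtain ⟨δ, h1, h2, h3⟩ := hs
    exact ⟨_, δ, h1, h2, rfl, h3⟩
  obtain ⟨m, ⟨δ, hδ, hδs, hδm, y, hy⟩, hmmin⟩ : ∃ m, Q m ∧ ∀ m' < m, ¬ Q m' :=
    ⟨Nat.find hQ, Nat.find_spec hQ, fun m' hm' ↦ Nat.find_min hQ hm'⟩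
  have hkill : ∀ δ' : List (ι × ι), (∀ p ∈ δ', Al i j p) → δ'.length = δ.length →
      δ'.countP (fun p ↦ p.1 = j ∨ p.2 = j) < δ.countP (fun p ↦ p.1 = j ∨ p.2 = j) →
      ∀ x, Fx N a i j t τ δ' x = 0 := by
    intro δ' h1 h2 h3 x
    by_contra hx
    rw [hδm] at h3
    exact hmmin _ h3 ⟨δ', h1, h2.trans hδs, rfl, x, hx⟩
  have hQP : QP τ (2 * (t i : ℝ) / N) 0 (Fx N a i j t τ δ) :=
    ⟨Fx_one h hN hij t hτ hδ, Fx_tau h hN hij t hτ hδ hkill⟩
  have hent : Differentiable ℂ (Fx N a i j t τ δ) :=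
    Sv_entire h hN j t (mono_tame (Al_off hδ)) (le_lin N hij) hτ
  have hlead := lead_curve h hN j t (mono_tame (Al_off hδ)) (le_lin N hij) (Lin.const 0) hτ
    (n - s) (fun m hm ε ↦ hvan δ hδ m (by omega) hτ ε)
  have hO : Fx N a i j t τ δ =O[𝓝[≠] 0] fun z ↦ z ^ (n - s) := by
    set L := Sv N a j t (fun B ↦ mono δ B * (le N i j B ^ (n - s) / (n - s).factorial)) τ
    have h1 : ∀ᶠ ε : ℂ in 𝓝[≠] 0, ‖(ε ^ (n - s))⁻¹ • Sv N a j t (fun B ↦ mono δ B *
        Complex.exp (ε * (le N i j B + ε * (fun _ ↦ (0 : ℂ)) B))) τ‖ < ‖L‖ + 1 :=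
      hlead.norm.eventually_lt_const (by linarith)
    refine IsBigO.of_bound (‖L‖ + 1) ?_
    filter_upwards [h1, self_mem_nhdsWithin] with ε hε hne'
    have hzp : 0 < ‖ε‖ ^ (n - s) := pow_pos (norm_pos_iff.mpr hne') _
    simp only [mul_zero, add_zero] at hε
    rw [norm_smul, norm_inv, norm_pow, inv_mul_lt_iff₀ hzp] at hε
    rw [norm_pow, mul_comm]
    exact hε.le
  by_contra hlt
  push Not at hlt
  have hA : 2 * (t i : ℝ) / N < ((n - s : ℕ) : ℝ) := by
    refine hlt.trans_le ?_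
    have : c ≤ n - s := by omega
    exact_mod_cast this
  exact hy (QP.eq_zero hτ (n - s) hQP hent hA hO y)

end Pool.Agent.Results.MP_386e47_ag.SpecialCycles
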