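import Pool.Agent.Lib.SPC.G4
import Pool.Agent.Lib.SPC.DeltaBound

/-! Degree `g`: the inversion law of the leading coefficients, the bound by the weight. -/

namespace Pool.Agent.Results.MP_386e47_ag.SpecialCycles

open Complex Finset Filter Topology Asymptotics

set_option linter.unusedSectionVars false
set_option linter.unusedSimpArgs false

variable {ι : Type*} [Fintype ι] [DecidableEq ι]
variable {V : Type*} [NormedAddCommGroup V] [NormedSpace ℂ V]

/-- The block complementary to the vertex `i`. -/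
abbrev Rt (i : ι) (t : ι → ℤ) : Type _ :=
  {R : Matrix ι ι ℤ // (∀ j, R i j = 0) ∧ (∀ j, R j i = 0) ∧ ∀ j, j ≠ i → R j j = t j}

/-- Matrices with given complementary block. -/
abbrev Fr (i : ι) (R : Matrix ι ι ℤ) : Type _ :=
  {B : Matrix ι ι ℤ // ∀ j l, j ≠ i → l ≠ i → B j l = R j l}

/-- Remove the row and the column of `i`. -/
def clr (i : ι) (B : Matrix ι ι ℤ) : Matrix ι ι ℤ := fun j l ↦ if j = i ∨ l = i then 0 else B j l

lemma clr_mem {i : ι} {t : ι → ℤ} (B : Bt i t) : (∀ j, clr i B.1 i j = 0) ∧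
    (∀ j, clr i B.1 j i = 0) ∧ ∀ j, j ≠ i → clr i B.1 j j = t j :=
  ⟨fun j ↦ by simp [clr], fun j ↦ by simp [clr], fun j hj ↦ by simp [clr, hj, B.2 j hj]⟩

/-- Fibration of `Bt i t` over the complementary block. -/
def fibR (i : ι) (t : ι → ℤ) : Bt i t ≃ Σ R : Rt i t, Fr i R.1 where
  toFun B := ⟨⟨clr i B.1, clr_mem B⟩, ⟨B.1, fun j l hj hl ↦ by simp [clr, hj, hl]⟩⟩
  invFun x := ⟨x.2.1, fun j hj ↦ by rw [x.2.2 j j hj hj]; exact x.1.2.2.2 j hj⟩
  left_inv B := rfl
  right_inv x := by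
    obtain ⟨⟨R, hR⟩, ⟨B, hB⟩⟩ := x
    have h : R = clr i B := by
      funext j l
      unfold clr
      by_cases hj : j = i
      · subst hj; simp [hR.1]
      · by_cases hl : l = i
        · subst hl; simp [hR.2.1]
        · simp [hj, hl, hB j l hj hl]
    subst h
    rfl

lemma mono_congr {i : ι} {O : List (ι × ι)} (hO : ∀ p ∈ O, p.1 ≠ i ∧ p.2 ≠ i)
    {B R : Matrix ι ι ℤ} (h : ∀ j l, j ≠ i → l ≠ i → B j l = R j l) : mono O B = mono O R := by
  unfold mono
  congr 1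
  refine List.map_congr_left fun p hp ↦ ?_
  rw [h p.1 p.2 (hO p hp).1 (hO p hp).2]

/-- The linear form `4πi ∑ B_{ij} z_j / N`. -/
noncomputable def lz (N : ℕ) (i : ι) (z : ι → ℂ) (B : Matrix ι ι ℤ) : ℂ :=
  4 * Real.pi * I / N * ∑ j ∈ univ.erase i, ((B i j : ℤ) : ℂ) * z j

/-- The quadratic form of the complementary block, with the diagonal `t`. -/
noncomputable def qz (N : ℕ) (i : ι) (t : ι → ℤ) (z : ι → ℂ) (B : Matrix ι ι ℤ) : ℂ :=
  2 * Real.pi * I / N * ∑ j ∈ univ.erase i, ∑ l ∈ univ.erase i,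
    (if j = l then ((t j : ℤ) : ℂ) else ((B j l : ℤ) : ℂ)) * z j * z l

lemma lz_mem (N : ℕ) (i : ι) (z : ι → ℂ) : lz N i z ∈ PolyLe ι 1 := by
  have h1 : (fun B : Matrix ι ι ℤ ↦ ∑ j ∈ univ.erase i, (4 * Real.pi * I / N * z j) *
      ((B i j : ℤ) : ℂ)) ∈ PolyLe ι 1 := by
    have : (∑ j ∈ univ.erase i, (4 * Real.pi * I / N * z j) •
        (fun B : Matrix ι ι ℤ ↦ ((B i j : ℤ) : ℂ))) ∈ PolyLe ι 1 :=
      Submodule.sum_mem _ fun j hj ↦ Submodule.smul_mem _ _
        (edge_mem (p := (i, j)) (ne_of_mem_erase hj).symm)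
    convert this using 1
    funext B
    simp [Finset.sum_apply]
  convert h1 using 1
  funext B
  unfold lz
  rw [mul_sum]
  exact sum_congr rfl fun j _ ↦ by ring

lemma lz_lin (N : ℕ) (i : ι) (z : ι → ℂ) : Lin (lz N i z) := by
  unfold lz
  apply Lin.smul
  refine Lin.sum _ fun j hj ↦ ?_
  have := (Lin.edge (ι := ι) (p := (i, j)) (ne_of_mem_erase hj).symm).smul (z j)
  simpa [mul_comm] using this

lemma qz_mem (N : ℕ) (i : ι) (t : ι → ℤ) (z : ι → ℂ) : qz N i t z ∈ PolyLe ι 1 := by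
  have h1 : (∑ j ∈ univ.erase i, ∑ l ∈ univ.erase i, (2 * Real.pi * I / N * z j * z l) •
      (fun B : Matrix ι ι ℤ ↦ if j = l then ((t j : ℤ) : ℂ) else ((B j l : ℤ) : ℂ))) ∈
      PolyLe ι 1 := by
    refine Submodule.sum_mem _ fun j _ ↦ Submodule.sum_mem _ fun l _ ↦ Submodule.smul_mem _ _ ?_
    by_cases hjl : j = l
    · simp only [hjl, if_true]
      exact const_mem _ 1
    · simp only [hjl, if_false]
      exact edge_mem (p := (j, l)) hjl
  convert h1 using 1
  funext B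
  unfold qz
  simp only [Finset.sum_apply, Pi.smul_apply, smul_eq_mul, mul_sum]
  exact sum_congr rfl fun j _ ↦ sum_congr rfl fun l _ ↦ by ring

lemma qz_lin (N : ℕ) (i : ι) (t : ι → ℤ) (z : ι → ℂ) : Lin (qz N i t z) := by
  unfold qz
  apply Lin.smul
  refine Lin.sum _ fun j _ ↦ Lin.sum _ fun l _ ↦ ?_
  by_cases hjl : j = l
  · simp only [hjl, if_true]
    exact Lin.const _
  · simp only [hjl, if_false]
    have := (Lin.edge (ι := ι) (p := (j, l)) hjl).smul (z j * z l)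
    refine this.mono_eq fun B ↦ ?_
    ring

lemma im_neg_inv' {τ : ℂ} (hτ : 0 < τ.im) : 0 < (-1 / τ).im := by
  have h0 : τ ≠ 0 := by rintro rfl; simp at hτ
  rw [Complex.div_im]
  simp only [neg_im, one_im, neg_zero, zero_mul, zero_div, neg_re, one_re]
  have : 0 < Complex.normSq τ := Complex.normSq_pos.mpr h0
  have h2 : 0 - -1 * τ.im / Complex.normSq τ = τ.im / Complex.normSq τ := by ring
  rw [h2]
  positivity

lemma inv_sum [CompleteSpace V] {N : ℕ} {k : ℝ} {a : Matrix ι ι ℤ → V} (h : IsSiegel N k a)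
    (hN : 0 < N) (i : ι) : ∃ ρ : V →ₗᵢ[ℂ] V,
    ∀ (t : ι → ℤ) (O : List (ι × ι)), (∀ p ∈ O, p.1 ≠ p.2) → (∀ p ∈ O, p.1 ≠ i ∧ p.2 ≠ i) →
    ∀ (τ : ℂ) (z : ι → ℂ), 0 < τ.im →
    Sv N a i t (fun B ↦ mono O B * Complex.exp (lz N i z B / τ)) (-1 / τ) =
      (τ ^ (k : ℂ)) • ρ (Sv N a i t
        (fun B ↦ mono O B * Complex.exp (lz N i z B + qz N i t z B / τ)) τ) := by
  obtain ⟨ρ, hρ⟩ := h.inv i
  refine ⟨ρ, fun t O hO1 hO τ z hτ ↦ ?_⟩
  have hN0 : (N : ℂ) ≠ 0 := by exact_mod_cast hN.ne'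
  have h0 : τ ≠ 0 := by rintro rfl; simp at hτ
  have hτ1 := im_neg_inv' hτ
  have hm := mono_tame (ι := ι) hO1
  have hT1 : Tame (fun B ↦ mono O B * Complex.exp (lz N i z B / τ)) := by
    refine hm.mul (((lz_lin N i z).exp τ⁻¹).mono fun B ↦ le_of_eq ?_)
    rw [div_eq_inv_mul]
  have hT2 : Tame (fun B ↦ mono O B * Complex.exp (lz N i z B + qz N i t z B / τ)) := by
    refine hm.mul ((((lz_lin N i z).add ((qz_lin N i t z).smul τ⁻¹)).exp 1).mono
      fun B ↦ le_of_eq ?_)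
    rw [one_mul, div_eq_inv_mul]
  set f : (Σ R : Rt i t, Fr i R.1) → V := fun x ↦ (e ((x.2.1 i i : ℤ) * (-1 / τ) / N) *
    (mono O x.2.1 * Complex.exp (lz N i z x.2.1 / τ))) • a x.2.1 with hf
  set g : (Σ R : Rt i t, Fr i R.1) → V := fun x ↦ (e ((x.2.1 i i : ℤ) * τ / N) *
    (mono O x.2.1 * Complex.exp (lz N i z x.2.1 + qz N i t z x.2.1 / τ))) • a x.2.1 with hg
  have hfs : Summable f := by
    rw [← (fibR i t).summable_iff]
    exact Sv_summ h hN i t hT1 hτ1
  have hgs : Summable g := by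
    rw [← (fibR i t).summable_iff]
    exact Sv_summ h hN i t hT2 hτ
  have hf1 : Sv N a i t (fun B ↦ mono O B * Complex.exp (lz N i z B / τ)) (-1 / τ) =
      ∑' x, f x := by
    rw [← (fibR i t).tsum_eq]
    rfl
  have hg1 : Sv N a i t (fun B ↦ mono O B * Complex.exp (lz N i z B + qz N i t z B / τ)) τ =
      ∑' x, g x := by
    rw [← (fibR i t).tsum_eq]
    rfl
  have key : ∀ R : Rt i t, ∑' B : Fr i R.1, f ⟨R, B⟩ =
      (τ ^ (k : ℂ)) • ρ (∑' B : Fr i R.1, g ⟨R, B⟩) := by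
    intro R
    have hfR : ∑' B : Fr i R.1, f ⟨R, B⟩ =
        mono O R.1 • psi N a i R.1 (-1 / τ) (fun j ↦ z j / τ) := by
      unfold psi
      rw [← tsum_const_smul'']
      refine tsum_congr fun B ↦ ?_
      rw [hf]
      simp only
      rw [mono_congr hO B.2, smul_smul]
      congr 1
      unfold e lz
      rw [mul_left_comm, ← Complex.exp_add]
      congr 2
      have e1 : ∑ j ∈ univ.erase i, ((B.1 i j : ℤ) : ℂ) * (z j / τ) =
          (∑ j ∈ univ.erase i, ((B.1 i j : ℤ) : ℂ) * z j) / τ := by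
        rw [sum_div]
        exact sum_congr rfl fun j _ ↦ by ring
      rw [e1]
      field_simp
      ring
    have hqR : ∀ B : Fr i R.1, qz N i t z B.1 = qz N i t z R.1 := by
      intro B
      unfold qz
      congr 1
      refine sum_congr rfl fun j hj ↦ sum_congr rfl fun l hl ↦ ?_
      rw [B.2 j l (ne_of_mem_erase hj) (ne_of_mem_erase hl)]
    have hgR : ∑' B : Fr i R.1, g ⟨R, B⟩ =
        (mono O R.1 * Complex.exp (qz N i t z R.1 / τ)) • psi N a i R.1 τ z := by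
      unfold psi
      rw [← tsum_const_smul'']
      refine tsum_congr fun B ↦ ?_
      rw [hg]
      simp only
      rw [mono_congr hO B.2, hqR B, Complex.exp_add, smul_smul]
      congr 1
      have e2 : e (((B.1 i i : ℤ) * τ + 2 * ∑ j ∈ univ.erase i, ((B.1 i j : ℤ) : ℂ) * z j) / N) =
          e ((B.1 i i : ℤ) * τ / N) * Complex.exp (lz N i z B.1) := by
        unfold e lz
        rw [← Complex.exp_add]
        congr 1
        ring
      rw [e2]
      ring
    rw [hfR, hgR, hρ R.1 τ z hτ, map_smul, smul_smul, smul_smul]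
    congr 1
    have e3 : e ((∑ j ∈ univ.erase i, ∑ l ∈ univ.erase i, ((R.1 j l : ℤ) : ℂ) * z j * z l) /
        (N * τ)) = Complex.exp (qz N i t z R.1 / τ) := by
      unfold e qz
      congr 1
      have e4 : ∑ j ∈ univ.erase i, ∑ l ∈ univ.erase i,
          (if j = l then ((t j : ℤ) : ℂ) else ((R.1 j l : ℤ) : ℂ)) * z j * z l =
          ∑ j ∈ univ.erase i, ∑ l ∈ univ.erase i, ((R.1 j l : ℤ) : ℂ) * z j * z l := by
        refine sum_congr rfl fun j hj ↦ sum_congr rfl fun l _ ↦ ?_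
        by_cases hjl : j = l
        · subst hjl
          rw [if_pos rfl, R.2.2.2 j (ne_of_mem_erase hj)]
        · rw [if_neg hjl]
      rw [e4]
      field_simp
    rw [e3]
    ring
  rw [hf1, hg1, hfs.tsum_sigma, hgs.tsum_sigma, tsum_congr key, tsum_const_smul'']
  congr 1
  exact (ContinuousLinearMap.map_tsum ρ.toContinuousLinearMap hgs.sigma).symm

end Pool.Agent.Results.MP_386e47_ag.SpecialCycles
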