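import Pool.Agent.Lib.SPC.G6

/-! Degree `g`: the bound by the weight. -/

namespace Pool.Agent.Results.MP_386e47_ag.SpecialCycles

open Complex Finset Filter Topology Asymptotics

set_option linter.unusedSectionVars false
set_option linter.unusedSimpArgs false

variable {ι : Type*} [Fintype ι] [DecidableEq ι]
variable {V : Type*} [NormedAddCommGroup V] [NormedSpace ℂ V]

/-! ### Finite sums -/

lemma supp_fin {N : ℕ} {k : ℝ} {a : Matrix ι ι ℤ → V} (h : IsSiegel N k a) (t : ι → ℤ) :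
    Set.Finite {B : Bd t | a B.1 ≠ 0} := by
  set K : ℤ := ∑ j, |t j| with hK
  have hKj : ∀ j, |t j| ≤ K := fun j ↦
    single_le_sum (f := fun j ↦ |t j|) (fun _ _ ↦ abs_nonneg _) (mem_univ j)
  have hK0 : 0 ≤ K := sum_nonneg fun _ _ ↦ abs_nonneg _
  have hfin : Set.Finite (Set.Icc (fun _ _ ↦ -K : ι → ι → ℤ) (fun _ _ ↦ K)) := Set.finite_Icc _ _
  have hinj : Function.Injective (fun B : Bd t ↦ (B.1 : ι → ι → ℤ)) := fun B C hBC ↦
    Subtype.ext hBC
  refine (hfin.preimage hinj.injOn).subset fun B hB ↦ ?_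
  have hB' : a B.1 ≠ 0 := hB
  have hbd : ∀ j l, |B.1 j l| ≤ K := by
    intro j l
    have h1 := psd_sq (h.symm _ hB') (h.psd _ hB') j l
    rw [B.2 j, B.2 l] at h1
    have h2 := (le_abs_self (t j)).trans (hKj j)
    have h3 := (le_abs_self (t l)).trans (hKj l)
    have h4 := psd_diag (h.symm _ hB') (h.psd _ hB') l
    rw [B.2 l] at h4
    have h5 : t j * t l ≤ K * K := mul_le_mul h2 h3 h4 hK0
    exact abs_le_of_sq_le_sq (by nlinarith) hK0
  simp only [Set.mem_preimage, Set.mem_Icc, Pi.le_def]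
  exact ⟨fun j l ↦ (abs_le.mp (hbd j l)).1, fun j l ↦ (abs_le.mp (hbd j l)).2⟩

lemma fin_sum {N : ℕ} {k : ℝ} {a : Matrix ι ι ℤ → V} (h : IsSiegel N k a) (t : ι → ℤ) :
    ∃ F : Finset (Bd t), (∀ B : Bd t, a B.1 ≠ 0 → B ∈ F) ∧ ∀ μ : Matrix ι ι ℤ → ℂ,
      ∑' B : Bd t, μ B.1 • a B.1 = ∑ B ∈ F, μ B.1 • a B.1 := by
  refine ⟨(supp_fin h t).toFinset, fun B hB ↦ by simpa using hB, fun μ ↦ ?_⟩
  refine tsum_eq_sum fun B hB ↦ ?_
  have : a B.1 = 0 := by
    by_contra hne
    exact hB (by simpa using hne)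
  rw [this, smul_zero]

lemma polar {β : Type*} (s : Finset β) (J : Finset ι) (r : β → ι → ℂ) (v : β → V) :
    ∀ (d : ℕ) (w : β → ℂ),
      (∀ ζ : ι → ℂ, ∑ b ∈ s, (w b * (∑ l ∈ J, r b l * ζ l) ^ d) • v b = 0) →
      ∀ L : List ι, (∀ l ∈ L, l ∈ J) → L.length = d →
        ∑ b ∈ s, (w b * (L.map (r b)).prod) • v b = 0 := by
  intro d
  induction d with
  | zero =>
    intro w h L _ hL
    rw [List.length_eq_zero_iff] at hL
    subst hL
    simpa using h 0
  | succ d ih =>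
    intro w h L hLJ hL
    match L, hL with
    | l :: L', hL =>
      have hl : l ∈ J := hLJ l (List.mem_cons_self ..)
      have h1 : ∀ ζ : ι → ℂ, ∑ b ∈ s, (w b * r b l * (∑ l ∈ J, r b l * ζ l) ^ d) • v b = 0 := by
        intro ζ
        have hder : HasDerivAt (fun ε : ℂ ↦ ∑ b ∈ s,
            (w b * ((∑ l ∈ J, r b l * ζ l) + ε * r b l) ^ (d + 1)) • v b)
            (∑ b ∈ s, (w b * (((d + 1 : ℕ) : ℂ) * ((∑ l ∈ J, r b l * ζ l) + 0 * r b l) ^ d *
              (1 * r b l))) • v b) 0 := by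
          apply HasDerivAt.fun_sum
          intro b _
          apply HasDerivAt.smul_const
          apply HasDerivAt.const_mul
          have h2 : HasDerivAt (fun ε : ℂ ↦ (∑ l ∈ J, r b l * ζ l) + ε * r b l) (1 * r b l) 0 :=
            ((hasDerivAt_id (0 : ℂ)).mul_const (r b l)).const_add _
          have := h2.fun_pow (d + 1)
          simpa using this
        have hz : (fun ε : ℂ ↦ ∑ b ∈ s,
            (w b * ((∑ l ∈ J, r b l * ζ l) + ε * r b l) ^ (d + 1)) • v b) = fun _ ↦ 0 := by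
          funext ε
          rw [← h (fun l' ↦ ζ l' + if l' = l then ε else 0)]
          refine sum_congr rfl fun b _ ↦ ?_
          congr 3
          simp only [mul_add, sum_add_distrib, mul_ite, mul_zero]
          rw [sum_ite_eq' J l, if_pos hl]
          ring
        rw [hz] at hder
        have h3 := hder.unique (hasDerivAt_const (0 : ℂ) (0 : V))
        have hd : (((d + 1 : ℕ) : ℂ)) ≠ 0 := by exact_mod_cast d.succ_ne_zero
        have h4 : ((d + 1 : ℕ) : ℂ) • ∑ b ∈ s,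
            (w b * r b l * (∑ l ∈ J, r b l * ζ l) ^ d) • v b = 0 := by
          rw [← h3, smul_sum]
          refine sum_congr rfl fun b _ ↦ ?_
          rw [smul_smul]
          congr 1
          ring
        exact (smul_eq_zero.mp h4).resolve_left hd
      have h2 := ih (fun b ↦ w b * r b l) h1 L' (fun l' hl' ↦ hLJ l' (List.mem_cons_of_mem _ hl'))
        (by simpa using hL)
      rw [← h2]
      refine sum_congr rfl fun b _ ↦ ?_
      rw [List.map_cons, List.prod_cons, mul_assoc]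

lemma mono_edges (i : ι) (L : List ι) (B : Matrix ι ι ℤ) :
    mono (L.map fun l ↦ (i, l)) B = (L.map fun l ↦ ((B i l : ℤ) : ℂ)).prod := by
  unfold mono
  rw [List.map_map]
  rfl

/-- All directional moments vanish iff all list moments vanish. -/
lemma cq_lz_zero {N : ℕ} {k : ℝ} {a : Matrix ι ι ℤ → V} (h : IsSiegel N k a) (i : ι) (t : ι → ℤ)
    (O : List (ι × ι)) (d : ℕ) (n : ℤ)
    (h0 : ∀ L : List ι, (∀ l ∈ L, l ≠ i) → L.length = d →
      Mom a (L.map (fun l ↦ (i, l)) ++ O) (Function.update t i n) = 0) (ζ : ι → ℂ) :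
    cq a i t (fun B ↦ mono O B * (lz N i ζ B) ^ d) n = 0 := by
  obtain ⟨F, -, hF⟩ := fin_sum h (Function.update t i n)
  have key : ∀ e : ℕ, ∀ L : List ι, (∀ l ∈ L, l ≠ i) → L.length + e = d →
      ∑ B ∈ F, (mono (L.map (fun l ↦ (i, l)) ++ O) B.1 * (lz N i ζ B.1) ^ e) • a B.1 = 0 := by
    intro e
    induction e with
    | zero =>
      intro L hL hLd
      have h1 := h0 L hL (by simpa using hLd)
      unfold Mom at h1
      have h2 := hF (mono (L.map (fun l ↦ (i, l)) ++ O))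
      unfold mono at h2
      rw [h2] at h1
      simpa [mono] using h1
    | succ e ih =>
      intro L hL hLd
      have h1 : ∀ B : Bd (Function.update t i n),
          (mono (L.map (fun l ↦ (i, l)) ++ O) B.1 * (lz N i ζ B.1) ^ (e + 1)) • a B.1 =
          ∑ j ∈ univ.erase i, (4 * Real.pi * I / N * ζ j) •
            ((mono (((j :: L).map fun l ↦ (i, l)) ++ O) B.1 * (lz N i ζ B.1) ^ e) • a B.1) := by
        intro B
        simp_rw [smul_smul]
        rw [← sum_smul]
        congr 1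
        rw [pow_succ]
        nth_rewrite 2 [lz]
        rw [mul_sum, mul_sum, mul_sum]
        refine sum_congr rfl fun j _ ↦ ?_
        rw [List.map_cons, List.cons_append, mono_cons]
        ring
      simp_rw [h1]
      rw [sum_comm]
      refine sum_eq_zero fun j hj ↦ ?_
      rw [← smul_sum, ih (j :: L) ?_ (by simp only [List.length_cons]; omega), smul_zero]
      intro l hl
      rcases List.mem_cons.mp hl with rfl | h2
      · exact ne_of_mem_erase hj
      · exact hL l h2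
  have h2 := key d [] (by simp) (by simp)
  have h3 : ∑ B ∈ F, (mono O B.1 * (lz N i ζ B.1) ^ d) • a B.1 = 0 := by simpa using h2
  exact (hF (fun B ↦ mono O B * (lz N i ζ B) ^ d)).trans h3

lemma Mom_zero_of_cq {N : ℕ} (hN : 0 < N) {k : ℝ} {a : Matrix ι ι ℤ → V} (h : IsSiegel N k a)
    (i : ι) (t : ι → ℤ) (O : List (ι × ι)) (d : ℕ) (n : ℤ)
    (h0 : ∀ ζ : ι → ℂ, cq a i t (fun B ↦ mono O B * (lz N i ζ B) ^ d) n = 0)
    (L : List ι) (hL : ∀ l ∈ L, l ≠ i) (hLd : L.length = d) :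
    Mom a (L.map (fun l ↦ (i, l)) ++ O) (Function.update t i n) = 0 := by
  have hN0 : (N : ℂ) ≠ 0 := by exact_mod_cast hN.ne'
  have hc : (4 * Real.pi * I / N : ℂ) ≠ 0 := by
    apply div_ne_zero _ hN0
    apply mul_ne_zero _ Complex.I_ne_zero
    apply mul_ne_zero (by norm_num)
    exact_mod_cast Real.pi_ne_zero
  obtain ⟨F, -, hF⟩ := fin_sum h (Function.update t i n)
  have h1 : ∀ ζ : ι → ℂ, ∑ B ∈ F, (mono O B.1 *
      (∑ l ∈ univ.erase i, ((B.1 i l : ℤ) : ℂ) * ζ l) ^ d) • a B.1 = 0 := by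
    intro ζ
    have h2 : ∑ B ∈ F, (mono O B.1 * (lz N i ζ B.1) ^ d) • a B.1 = 0 :=
      (hF (fun B ↦ mono O B * (lz N i ζ B) ^ d)).symm.trans (h0 ζ)
    have h3 : (4 * Real.pi * I / N : ℂ) ^ d • ∑ B ∈ F, (mono O B.1 *
      (∑ l ∈ univ.erase i, ((B.1 i l : ℤ) : ℂ) * ζ l) ^ d) • a B.1 = 0 := by
      rw [← h2, smul_sum]
      refine sum_congr rfl fun B _ ↦ ?_
      rw [smul_smul]
      congr 1
      unfold lz
      rw [mul_pow]
      ring
    exact (smul_eq_zero.mp h3).resolve_left (pow_ne_zero _ hc)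
  have h4 := polar F (univ.erase i) (fun B l ↦ ((B.1 i l : ℤ) : ℂ)) (fun B ↦ a B.1) d
    (fun B ↦ mono O B.1) h1 L (fun l hl ↦ mem_erase.mpr ⟨hL l hl, mem_univ _⟩) hLd
  unfold Mom
  have h5 := hF (mono (L.map (fun l ↦ (i, l)) ++ O))
  unfold mono at h5
  rw [h5, ← h4]
  refine sum_congr rfl fun B _ ↦ ?_
  congr 1
  have h6 : (List.map (fun p : ι × ι ↦ ((B.1 p.1 p.2 : ℤ) : ℂ))
      (L.map (fun l ↦ (i, l)) ++ O)).prod = mono (L.map (fun l ↦ (i, l)) ++ O) B.1 := rfl
  rw [h6, mono_append, mono_edges, mul_comm]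

end Pool.Agent.Results.MP_386e47_ag.SpecialCycles
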