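import Pool.Agent.Lib.SPC.G7

/-! Degree `g`: twelve times the index is at most the weight plus the degree at the vertex. -/

namespace Pool.Agent.Results.MP_386e47_ag.SpecialCycles

open Complex Finset Filter Topology Asymptotics

set_option linter.unusedSectionVars false
set_option linter.unusedSimpArgs false

variable {ι : Type*} [Fintype ι] [DecidableEq ι]
variable {V : Type*} [NormedAddCommGroup V] [NormedSpace ℂ V]

lemma Sv_T [CompleteSpace V] {N : ℕ} {k : ℝ} {a : Matrix ι ι ℤ → V} (h : IsSiegel N k a)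
    (hN : 0 < N) (i : ι) (t : ι → ℤ) {μ : Matrix ι ι ℤ → ℂ} (hμ : Tame μ) {τ : ℂ}
    (hτ : 0 < τ.im) : ‖Sv N a i t μ (τ + 1)‖ = ‖Sv N a i t μ τ‖ := by
  obtain ⟨σ, hσ⟩ := h.trans (Matrix.single i i 1) (by
    unfold Matrix.IsSymm
    rw [Matrix.transpose_single])
  have hsum := Sv_summ h hN i t hμ hτ
  have key : Sv N a i t μ (τ + 1) = σ (Sv N a i t μ τ) := by
    unfold Sv
    rw [show σ (∑' B : Bt i t, (e ((B.1 i i : ℤ) * τ / N) * μ B.1) • a B.1) =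
      σ.toContinuousLinearMap (∑' B : Bt i t, (e ((B.1 i i : ℤ) * τ / N) * μ B.1) • a B.1) from rfl,
      ContinuousLinearMap.map_tsum _ hsum]
    refine tsum_congr fun B ↦ ?_
    rw [LinearIsometry.coe_toContinuousLinearMap, map_smul, ← hσ, smul_smul]
    congr 1
    have htr : (Matrix.single i i (1 : ℤ) * B.1).trace = B.1 i i := by
      simp [Matrix.trace_single_mul]
    have e1 : e (((B.1 i i : ℤ) : ℂ) * (τ + 1) / N) =
        e (((B.1 i i : ℤ) : ℂ) * τ / N) * e (((B.1 i i : ℤ) : ℂ) / N) := by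
      rw [← e_add]
      congr 1
      ring
    rw [htr, e1]
    ring
  rw [key, LinearIsometry.norm_map]

lemma lz_smul (N : ℕ) (i : ι) (ζ : ι → ℂ) (ε : ℂ) (B : Matrix ι ι ℤ) :
    lz N i (fun j ↦ ε * ζ j) B = ε * lz N i ζ B := by
  unfold lz
  rw [mul_sum, mul_sum, mul_sum]
  exact sum_congr rfl fun j _ ↦ by ring

lemma qz_smul (N : ℕ) (i : ι) (t : ι → ℤ) (ζ : ι → ℂ) (ε : ℂ) (B : Matrix ι ι ℤ) :
    qz N i t (fun j ↦ ε * ζ j) B = ε ^ 2 * qz N i t ζ B := by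
  unfold qz
  rw [mul_sum, mul_sum, mul_sum]
  refine sum_congr rfl fun j _ ↦ ?_
  rw [mul_sum, mul_sum, mul_sum]
  exact sum_congr rfl fun l _ ↦ by ring

lemma pz_S [CompleteSpace V] {N : ℕ} {k : ℝ} {a : Matrix ι ι ℤ → V} (h : IsSiegel N k a)
    (hN : 0 < N) {n : ℕ} (hv : Van a n) (i : ι) (t : ι → ℤ) {O : List (ι × ι)}
    (hO1 : ∀ p ∈ O, p.1 ≠ p.2) (hO : ∀ p ∈ O, p.1 ≠ i ∧ p.2 ≠ i) {d : ℕ}
    (hd : O.length + d = n) (ζ : ι → ℂ) {τ : ℂ} (hτ : 0 < τ.im) :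
    ‖Sv N a i t (fun B ↦ mono O B * (lz N i ζ B) ^ d) (-1 / τ)‖ =
      ‖τ‖ ^ (k + d) * ‖Sv N a i t (fun B ↦ mono O B * (lz N i ζ B) ^ d) τ‖ := by
  obtain ⟨ρ, hρ⟩ := inv_sum h hN i
  have h0 : τ ≠ 0 := by rintro rfl; simp at hτ
  have hn : 0 < ‖τ‖ := norm_pos_iff.mpr h0
  have hτ1 := im_neg_inv' hτ
  have hm := mono_tame (ι := ι) hO1
  have hl1 : Lin (fun B ↦ τ⁻¹ * lz N i ζ B) := (lz_lin N i ζ).smul _
  have hl2 : Lin (fun B ↦ τ⁻¹ * qz N i t ζ B) := (qz_lin N i t ζ).smul _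
  have hmem : mono O ∈ PolyLe ι O.length := mono_mem hO1 le_rfl
  -- vanishing of the lower terms
  have hv1 : ∀ m < d, ∀ ε : ℂ, Sv N a i t (fun B ↦ mono O B *
      ((fun B ↦ τ⁻¹ * lz N i ζ B) B + ε * (fun _ ↦ (0 : ℂ)) B) ^ m) (-1 / τ) = 0 := by
    intro m hmd ε
    have hp : (fun B : Matrix ι ι ℤ ↦ τ⁻¹ * lz N i ζ B + ε * 0) ∈ PolyLe ι 1 := by
      have := (PolyLe ι 1).smul_mem τ⁻¹ (lz_mem N i ζ)
      convert this using 1
      funext B
      simp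
    exact (Sv_poly_zero h hN hv i t (m := O.length + m) (by omega)
      (mul_mem_poly hmem (pow_mem_poly hp m)) hτ1).2
  have hv2 : ∀ m < d, ∀ ε : ℂ, Sv N a i t (fun B ↦ mono O B *
      (lz N i ζ B + ε * (fun B ↦ τ⁻¹ * qz N i t ζ B) B) ^ m) τ = 0 := by
    intro m hmd ε
    have hp : (fun B : Matrix ι ι ℤ ↦ lz N i ζ B + ε * (τ⁻¹ * qz N i t ζ B)) ∈ PolyLe ι 1 := by
      have := (PolyLe ι 1).add_mem (lz_mem N i ζ)
        ((PolyLe ι 1).smul_mem (ε * τ⁻¹) (qz_mem N i t ζ))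
      convert this using 1
      funext B
      simp [mul_assoc]
    exact (Sv_poly_zero h hN hv i t (m := O.length + m) (by omega)
      (mul_mem_poly hmem (pow_mem_poly hp m)) hτ).2
  have t1 := lead_curve h hN i t hm hl1 (Lin.const 0) hτ1 d hv1
  have t2 := lead_curve h hN i t hm (lz_lin N i ζ) hl2 hτ d hv2
  have t3 := ((ρ.continuous.tendsto _).comp t2).const_smul (τ ^ (k : ℂ))
  have t4 : Tendsto (fun ε : ℂ ↦ (ε ^ d)⁻¹ • Sv N a i t (fun B ↦ mono O B * Complex.exp (ε *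
      ((fun B ↦ τ⁻¹ * lz N i ζ B) B + ε * (fun _ ↦ (0 : ℂ)) B))) (-1 / τ)) (𝓝[≠] 0)
      (𝓝 (τ ^ (k : ℂ) • ρ (Sv N a i t
        (fun B ↦ mono O B * (lz N i ζ B ^ d / d.factorial)) τ))) := by
    refine t3.congr fun ε ↦ ?_
    have h5 := hρ t O hO1 hO τ (fun j ↦ ε * ζ j) hτ
    have h6 : (fun B ↦ mono O B * Complex.exp (lz N i (fun j ↦ ε * ζ j) B / τ)) =
        fun B ↦ mono O B * Complex.exp (ε * (τ⁻¹ * lz N i ζ B + ε * 0)) := by
      funext B
      rw [lz_smul]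
      congr 2
      field_simp
      ring
    have h7 : (fun B ↦ mono O B * Complex.exp (lz N i (fun j ↦ ε * ζ j) B +
        qz N i t (fun j ↦ ε * ζ j) B / τ)) =
        fun B ↦ mono O B * Complex.exp (ε * (lz N i ζ B + ε * (τ⁻¹ * qz N i t ζ B))) := by
      funext B
      rw [lz_smul, qz_smul]
      congr 2
      field_simp
    rw [h6, h7] at h5
    simp only [Function.comp]
    rw [h5, map_smul, smul_comm]
  have h8 := tendsto_nhds_unique t1 t4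
  have e1 : (fun B ↦ mono O B * ((τ⁻¹ * lz N i ζ B) ^ d / d.factorial)) =
      fun B ↦ ((τ⁻¹) ^ d / d.factorial) * (mono O B * (lz N i ζ B) ^ d) := by
    funext B
    rw [mul_pow]
    ring
  have e2 : (fun B ↦ mono O B * ((lz N i ζ B) ^ d / d.factorial)) =
      fun B ↦ (1 / d.factorial : ℂ) * (mono O B * (lz N i ζ B) ^ d) := by
    funext B
    ring
  rw [e1, e2, Sv_smul, Sv_smul, map_smul] at h8
  have h9 := congrArg norm h8
  have hf : (0 : ℝ) < d.factorial := by exact_mod_cast d.factorial_pos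
  rw [norm_smul, norm_smul, norm_smul, LinearIsometry.norm_map, norm_div, norm_pow, norm_inv,
    norm_div, norm_one, Complex.norm_natCast, Complex.norm_cpow_real] at h9
  rw [Real.rpow_add hn, Real.rpow_natCast]
  have hpd : 0 < ‖τ‖ ^ d := pow_pos hn _
  set X := ‖Sv N a i t (fun B ↦ mono O B * (lz N i ζ B) ^ d) (-1 / τ)‖ with hX
  set Y := ‖Sv N a i t (fun B ↦ mono O B * (lz N i ζ B) ^ d) τ‖ with hY
  have h10 : X = ‖τ‖ ^ d * (‖τ‖ ^ k * Y) := by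
    have e3 : ‖τ‖⁻¹ ^ d / d.factorial * X * (d.factorial * ‖τ‖ ^ d) = X := by
      rw [inv_pow]
      field_simp
    rw [← e3, h9]
    field_simp
  rw [h10]
  ring

/-- Twelve times the index of a leading coefficient is at most its weight. -/
lemma step1 [CompleteSpace V] {N : ℕ} {k : ℝ} {a : Matrix ι ι ℤ → V} (h : IsSiegel N k a)
    (hN : 0 < N) {n : ℕ} (hv : Van a n) (i : ι) (t : ι → ℤ) {O : List (ι × ι)}
    (hO1 : ∀ p ∈ O, p.1 ≠ p.2) (hO : ∀ p ∈ O, p.1 ≠ i ∧ p.2 ≠ i) {d : ℕ}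
    (hd : O.length + d = n) {m : ℤ} (hm0 : 0 ≤ m)
    (hlow : ∀ n' < m, ∀ L : List ι, (∀ l ∈ L, l ≠ i) → L.length = d →
      Mom a (L.map (fun l ↦ (i, l)) ++ O) (Function.update t i n') = 0)
    {L : List ι} (hL : ∀ l ∈ L, l ≠ i) (hLd : L.length = d)
    (hne : Mom a (L.map (fun l ↦ (i, l)) ++ O) (Function.update t i m) ≠ 0) :
    12 * ((m : ℝ) / N) ≤ k + d := by
  have hN' : (0 : ℝ) < N := by exact_mod_cast hN
  by_contra hlt
  push Not at hlt
  apply hne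
  refine Mom_zero_of_cq hN h i t O d m (fun ζ ↦ ?_) L hL hLd
  have hT : Tame (fun B ↦ mono O B * (lz N i ζ B) ^ d) :=
    (mono_tame hO1).mul ((lz_lin N i ζ).tame.pow d)
  set c := cq a i t (fun B ↦ mono O B * (lz N i ζ B) ^ d) with hc
  have hneg : ∀ n < 0, c n = 0 := fun n hn ↦ cq_neg h i t _ n hn
  have hsm := cq_summ h hN i t hT
  have hlow' : ∀ n' < m, c n' = 0 := fun n' hn' ↦ cq_lz_zero h i t O d n' (hlow n' hn') ζ
  obtain ⟨C, hC⟩ := qs_growth hN m hlow' hsm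
  have heq : ∀ τ : ℂ, 0 < τ.im →
      Sv N a i t (fun B ↦ mono O B * (lz N i ζ B) ^ d) τ = qs N c τ :=
    fun τ hτ ↦ Sv_eq_qs h hN i t hT hτ
  have hz : ∀ τ : ℂ, 0 < τ.im → qs N c τ = 0 := by
    refine eq_zero_of_decay (k := k + d) (M := (m : ℝ) / N) (C := C) (qs_diff hN hneg hsm) ?_ ?_ ?_
      hlt hC
    · intro τ hτ
      have hτ1 : 0 < (τ + 1).im := by simpa using hτ
      rw [← heq _ hτ1, ← heq _ hτ]
      exact Sv_T h hN i t hT hτ
    · intro τ hτ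
      rw [← heq _ (im_neg_inv' hτ), ← heq _ hτ]
      exact pz_S h hN hv i t hO1 hO hd ζ hτ
    · have : (0 : ℝ) ≤ m := by exact_mod_cast hm0
      positivity
  exact qs_uniq hN hneg hsm hz m

end Pool.Agent.Results.MP_386e47_ag.SpecialCycles
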