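import Pool.Agent.Lib.SPC.G8
import Pool.Agent.Lib.SPC.G5

/-! Degree `g`: the main theorem. -/

namespace Pool.Agent.Results.MP_386e47_ag.SpecialCycles

open Complex Finset Filter Topology Asymptotics

set_option linter.unusedSectionVars false
set_option linter.unusedSimpArgs false

variable {ι : Type*} [Fintype ι] [DecidableEq ι]
variable {V : Type*} [NormedAddCommGroup V] [NormedSpace ℂ V]

/-! ### Moments separate -/

lemma prod_mem_poly {β : Type*} (s : Finset β) (f : β → Matrix ι ι ℤ → ℂ)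
    (h : ∀ b ∈ s, f b ∈ PolyLe ι 1) : (fun B ↦ ∏ b ∈ s, f b B) ∈ PolyLe ι s.card := by
  classical
  induction s using Finset.induction_on with
  | empty => simpa using const_mem (ι := ι) 1 0
  | insert b s hb ih =>
    have h1 := mul_mem_poly (h b (mem_insert_self _ _)) (ih fun c hc ↦ h c (mem_insert_of_mem hc))
    rw [card_insert_of_notMem hb]
    have h2 : (fun B ↦ ∏ b ∈ insert b s, f b B) = fun B ↦ f b B * ∏ b ∈ s, f b B := by
      funext B
      rw [prod_insert hb]
    rw [h2, add_comm]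
    exact h1

lemma sum_poly_zero {N : ℕ} {k : ℝ} {a : Matrix ι ι ℤ → V} (h : IsSiegel N k a) (t : ι → ℤ)
    (h0 : ∀ es : List (ι × ι), (∀ p ∈ es, p.1 ≠ p.2) → Mom a es t = 0) {n : ℕ}
    {f : Matrix ι ι ℤ → ℂ} (hf : f ∈ PolyLe ι n) : ∑' B : Bd t, f B.1 • a B.1 = 0 := by
  obtain ⟨F, -, hF⟩ := fin_sum h t
  rw [hF]
  unfold PolyLe at hf
  induction hf using Submodule.span_induction with
  | mem x hx =>
    obtain ⟨es, h1, -, rfl⟩ := hx
    rw [← hF]
    exact h0 es h1
  | zero => simp
  | add x y _ _ hx hy =>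
    simp only [Pi.add_apply, add_smul, sum_add_distrib, hx, hy, add_zero]
  | smul z x _ hx =>
    simp only [Pi.smul_apply, smul_eq_mul, mul_smul]
    rw [← smul_sum, hx, smul_zero]

lemma exists_mom {N : ℕ} {k : ℝ} {a : Matrix ι ι ℤ → V} (h : IsSiegel N k a)
    {B₀ : Matrix ι ι ℤ} (hB₀ : a B₀ ≠ 0) :
    ∃ es : List (ι × ι), (∀ p ∈ es, p.1 ≠ p.2) ∧ ∃ t, Mom a es t ≠ 0 := by
  classical
  by_contra hcon
  push Not at hcon
  set t : ι → ℤ := fun j ↦ B₀ j j with ht
  obtain ⟨F, hFm, hF⟩ := fin_sum h t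
  set b₀ : Bd t := ⟨B₀, fun j ↦ rfl⟩ with hb₀
  have hsep : ∀ B : Bd t, ∃ p : ι × ι, B ≠ b₀ → p.1 ≠ p.2 ∧ B₀ p.1 p.2 ≠ B.1 p.1 p.2 := by
    intro B
    by_cases hB : B = b₀
    · by_cases hne : Nonempty (ι × ι)
      · exact ⟨hne.some, fun hc ↦ absurd hB hc⟩
      · exfalso
        have : IsEmpty ι := by
          by_contra hι
          rw [not_isEmpty_iff] at hι
          exact hne ⟨(hι.some, hι.some)⟩
        -- the empty case: the moment of the empty list is `a B₀`
        have h1 := hcon [] (by simp) t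
        unfold Mom at h1
        have h2 : ∀ C : Bd t, C = b₀ := fun C ↦ Subtype.ext (by
          funext j
          exact this.elim j)
        have h3 : ∑' C : Bd t, (List.map (fun p : ι × ι ↦ ((C.1 p.1 p.2 : ℤ) : ℂ)) []).prod • a C.1 =
            a B₀ := by
          rw [tsum_eq_single b₀ (fun C hC ↦ absurd (h2 C) hC)]
          simp [hb₀]
        rw [h3] at h1
        exact hB₀ h1
    · have h1 : ∃ j l, B₀ j l ≠ B.1 j l := by
        by_contra hall
        push Not at hall
        exact hB (Subtype.ext (by funext j l; exact (hall j l).symm))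
      obtain ⟨j, l, hjl⟩ := h1
      refine ⟨(j, l), fun _ ↦ ⟨?_, hjl⟩⟩
      rintro (hjl' : j = l)
      subst hjl'
      exact hjl (B.2 j).symm
  choose p hp using hsep
  set f : Matrix ι ι ℤ → ℂ := fun B ↦ ∏ C ∈ F.erase b₀,
    (((B (p C).1 (p C).2 : ℤ) : ℂ) - ((C.1 (p C).1 (p C).2 : ℤ) : ℂ)) with hf
  have hfm : f ∈ PolyLe ι (F.erase b₀).card := by
    apply prod_mem_poly (F.erase b₀) (fun C B ↦
      ((B (p C).1 (p C).2 : ℤ) : ℂ) - ((C.1 (p C).1 (p C).2 : ℤ) : ℂ))
    intro C hC
    have h1 := hp C (ne_of_mem_erase hC)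
    exact (PolyLe ι 1).sub_mem (edge_mem h1.1) (const_mem _ 1)
  have h1 := sum_poly_zero h t (fun es he ↦ hcon es he t) hfm
  rw [hF, sum_eq_single b₀] at h1
  · have h2 : f B₀ ≠ 0 := by
      rw [hf]
      simp only
      rw [prod_ne_zero_iff]
      intro C hC
      have h3 := (hp C (ne_of_mem_erase hC)).2
      rw [sub_ne_zero]
      exact_mod_cast h3
    exact hB₀ ((smul_eq_zero.mp h1).resolve_left h2)
  · intro B hB hne
    have : f B.1 = 0 := prod_eq_zero (mem_erase.mpr ⟨hne, hB⟩) (sub_self _)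
    rw [this, zero_smul]
  · intro hb
    exact absurd (hFm b₀ hB₀) hb

/-! ### Lists -/

/-- Degree of a monomial at a vertex. -/
def dg (i : ι) (es : List (ι × ι)) : ℕ := es.countP fun p ↦ p.1 = i ∨ p.2 = i

lemma sum_dg {es : List (ι × ι)} (h : ∀ p ∈ es, p.1 ≠ p.2) : ∑ i : ι, dg i es = 2 * es.length := by
  induction es with
  | nil => simp [dg]
  | cons p es ih =>
    have hp := h p (List.mem_cons_self ..)
    have ih' := ih fun q hq ↦ h q (List.mem_cons_of_mem _ hq)
    have h1 : ∀ i, dg i (p :: es) = dg i es + ((if i = p.1 then 1 else 0) +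
        (if i = p.2 then 1 else 0)) := by
      intro i
      unfold dg
      rw [List.countP_cons]
      congr 1
      by_cases h1 : i = p.1
      · have h2 : i ≠ p.2 := fun h2 ↦ hp (h1.symm.trans h2)
        simp [h1, h1 ▸ h2]
      · by_cases h2 : i = p.2
        · simp [h2, Ne.symm hp]
        · simp [h1, h2, Ne.symm h1, Ne.symm h2]
    simp_rw [h1]
    rw [sum_add_distrib, sum_add_distrib, ih', sum_ite_eq' univ p.1, sum_ite_eq' univ p.2]
    simp only [mem_univ, if_true, List.length_cons]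
    ring

lemma split_list (i : ι) : ∀ es : List (ι × ι), (∀ p ∈ es, p.1 ≠ p.2) →
    ∃ (L : List ι) (O : List (ι × ι)), (∀ l ∈ L, l ≠ i) ∧ L.length = dg i es ∧
      (∀ p ∈ O, p.1 ≠ p.2) ∧ (∀ p ∈ O, p.1 ≠ i ∧ p.2 ≠ i) ∧ L.length + O.length = es.length ∧
      ∀ B : Matrix ι ι ℤ, B.IsSymm → mono es B = mono (L.map (fun l ↦ (i, l)) ++ O) B := by
  intro es
  induction es with
  | nil =>
    intro _
    exact ⟨[], [], by simp, by simp [dg], by simp, by simp, by simp, fun B _ ↦ by simp⟩
  | cons p es ih =>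
    intro h
    have hp := h p (List.mem_cons_self ..)
    obtain ⟨L, O, h1, h2, h3, h4, h5, h6⟩ := ih fun q hq ↦ h q (List.mem_cons_of_mem _ hq)
    by_cases hp1 : p.1 = i
    · refine ⟨p.2 :: L, O, ?_, ?_, h3, h4, ?_, ?_⟩
      · intro l hl
        rcases List.mem_cons.mp hl with rfl | hl
        · exact fun hc ↦ hp (hp1.trans hc.symm)
        · exact h1 l hl
      · unfold dg at h2 ⊢
        rw [List.countP_cons_of_pos (by simp [hp1]), List.length_cons, h2]
      · simp only [List.length_cons]; omega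
      · intro B hB
        rw [mono_cons, List.map_cons, List.cons_append, mono_cons, h6 B hB, hp1]
    · by_cases hp2 : p.2 = i
      · refine ⟨p.1 :: L, O, ?_, ?_, h3, h4, ?_, ?_⟩
        · intro l hl
          rcases List.mem_cons.mp hl with rfl | hl
          · exact hp1
          · exact h1 l hl
        · unfold dg at h2 ⊢
          rw [List.countP_cons_of_pos (by simp [hp2]), List.length_cons, h2]
        · simp only [List.length_cons]; omega
        · intro B hB
          have hs := congrFun (congrFun hB p.1) i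
          rw [Matrix.transpose_apply] at hs
          rw [mono_cons, List.map_cons, List.cons_append, mono_cons, h6 B hB, hp2, hs]
      · refine ⟨L, p :: O, h1, ?_, ?_, ?_, ?_, ?_⟩
        · unfold dg at h2 ⊢
          rw [List.countP_cons_of_neg (by simp [hp1, hp2]), h2]
        · intro q hq
          rcases List.mem_cons.mp hq with rfl | hq
          · exact hp
          · exact h3 q hq
        · intro q hq
          rcases List.mem_cons.mp hq with rfl | hq
          · exact ⟨hp1, hp2⟩
          · exact h4 q hq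
        · simp only [List.length_cons]; omega
        · intro B hB
          rw [mono_cons, h6 B hB, mono_append, mono_append, mono_cons]
          ring

lemma sum_count (i : ι) : ∀ L : List ι, (∀ l ∈ L, l ≠ i) →
    ∑ j ∈ univ.erase i, L.count j = L.length := by
  intro L
  induction L with
  | nil => intro _; simp
  | cons l L ih =>
    intro h
    have hl := h l (List.mem_cons_self ..)
    have ih' := ih fun q hq ↦ h q (List.mem_cons_of_mem _ hq)
    have h1 : ∀ j, (l :: L).count j = L.count j + if j = l then 1 else 0 := by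
      intro j
      rw [List.count_cons]
      congr 1
      by_cases hj : j = l
      · simp [hj]
      · simp [hj, Ne.symm hj]
    simp_rw [h1]
    rw [sum_add_distrib, ih', sum_ite_eq' (univ.erase i) l, if_pos (mem_erase.mpr ⟨hl, mem_univ _⟩)]
    simp

lemma split_count (i j : ι) : ∀ L : List ι,
    (L.filter fun l ↦ l ≠ j).length + L.count j = L.length ∧ ∀ B : Matrix ι ι ℤ,
      mono ((L.filter fun l ↦ l ≠ j).map fun l ↦ (i, l)) B * ((B i j : ℤ) : ℂ) ^ L.count j =
        mono (L.map fun l ↦ (i, l)) B := by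
  intro L
  induction L with
  | nil => exact ⟨by simp, fun B ↦ by simp⟩
  | cons l L ih =>
    obtain ⟨ih1, ih2⟩ := ih
    by_cases hl : l = j
    · subst hl
      refine ⟨?_, fun B ↦ ?_⟩
      · rw [List.filter_cons_of_neg (by simp), List.count_cons_self, List.length_cons]
        omega
      · rw [List.filter_cons_of_neg (by simp), List.count_cons_self, List.map_cons, mono_cons,
          pow_succ, ← mul_assoc, ih2 B]
        ring
    · refine ⟨?_, fun B ↦ ?_⟩
      · rw [List.filter_cons_of_pos (by simpa using hl), List.count_cons_of_ne hl,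
          List.length_cons, List.length_cons]
        omega
      · rw [List.filter_cons_of_pos (by simpa using hl), List.count_cons_of_ne hl, List.map_cons,
          List.map_cons, mono_cons, mono_cons, mul_assoc, ih2 B]

lemma Mom_congr {N : ℕ} {k : ℝ} {a : Matrix ι ι ℤ → V} (h : IsSiegel N k a)
    {es fs : List (ι × ι)} (he : ∀ B : Matrix ι ι ℤ, B.IsSymm → mono es B = mono fs B)
    (t : ι → ℤ) : Mom a es t = Mom a fs t := by
  unfold Mom
  refine tsum_congr fun B ↦ ?_
  by_cases hB : a B.1 = 0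
  · rw [hB, smul_zero, smul_zero]
  · exact congrArg (· • a B.1) (he B.1 (h.symm _ hB))

lemma Mom_nonneg {N : ℕ} {k : ℝ} {a : Matrix ι ι ℤ → V} (h : IsSiegel N k a)
    {es : List (ι × ι)} {t : ι → ℤ} (hne : Mom a es t ≠ 0) (i : ι) : 0 ≤ t i := by
  by_contra hlt
  push Not at hlt
  apply hne
  unfold Mom
  refine (tsum_congr fun B ↦ ?_).trans tsum_zero
  by_cases hB : a B.1 = 0
  · rw [hB, smul_zero]
  · have h1 := psd_diag (h.symm _ hB) (h.psd _ hB) i
    rw [B.2 i] at h1
    omega

lemma Mom_exists {a : Matrix ι ι ℤ → V} {es : List (ι × ι)} {t : ι → ℤ} (hne : Mom a es t ≠ 0) :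
    ∃ B : Bd t, a B.1 ≠ 0 := by
  by_contra hcon
  push Not at hcon
  apply hne
  unfold Mom
  exact (tsum_congr fun B ↦ by rw [hcon B, smul_zero]).trans tsum_zero

/-- The moments of order `0` are determined by the ones with small diagonal. -/
lemma small_diag [CompleteSpace V] {N : ℕ} (hN : 0 < N) {k : ℝ}
    {a : Matrix ι ι ℤ → V} (h : IsSiegel N k a)
    (hv0 : ∀ t : ι → ℤ, (∀ i, 12 * (t i : ℝ) ≤ k * N) → Mom a [] t = 0) :
    ∀ t, Mom a [] t = 0 := by
  classical
  have hN' : (0 : ℝ) < N := by exact_mod_cast hN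
  by_contra hcon
  push Not at hcon
  have key : ∀ s : Finset ι, ∃ t : ι → ℤ, Mom a [] t ≠ 0 ∧ ∀ i ∈ s, 12 * (t i : ℝ) ≤ k * N := by
    intro s
    induction s using Finset.induction_on with
    | empty =>
      obtain ⟨t, ht⟩ := hcon
      exact ⟨t, ht, by simp⟩
    | insert i s hi ih =>
      obtain ⟨t, ht, hts⟩ := ih
      let Q : ℕ → Prop := fun m ↦ Mom a [] (Function.update t i (m : ℤ)) ≠ 0
      have hQ : ∃ m, Q m := ⟨(t i).toNat, by
        change Mom a [] (Function.update t i (((t i).toNat : ℕ) : ℤ)) ≠ 0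
        rw [Int.toNat_of_nonneg (Mom_nonneg h ht i), Function.update_eq_self]
        exact ht⟩
      obtain ⟨m, hm, hmin⟩ : ∃ m, Q m ∧ ∀ m' < m, ¬ Q m' :=
        ⟨Nat.find hQ, Nat.find_spec hQ, fun m' hm' ↦ Nat.find_min hQ hm'⟩
      have hv : Van a 0 := fun es _ hlen ↦ absurd hlen (by omega)
      have h1 := step1 h hN hv i t (O := []) (d := 0) (m := (m : ℤ)) (L := []) (by simp) (by simp)
        (by simp) (by positivity) (by
          intro n' hn' L _ hLd
          rw [List.length_eq_zero_iff] at hLd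
          subst hLd
          by_contra hne
          have h2 := Mom_nonneg h hne i
          rw [Function.update_self] at h2
          refine hmin n'.toNat (by omega) ?_
          change Mom a [] (Function.update t i ((n'.toNat : ℕ) : ℤ)) ≠ 0
          rw [Int.toNat_of_nonneg h2]
          simpa using hne) (by simp) rfl (by simpa using hm)
      refine ⟨Function.update t i (m : ℤ), hm, fun j hj ↦ ?_⟩
      by_cases hji : j = i
      · subst hji
        rw [Function.update_self]
        push_cast at h1 ⊢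
        have h3 : 12 * ((m : ℝ) / N) * N = 12 * m := by field_simp
        rw [← h3]
        apply mul_le_mul_of_nonneg_right _ hN'.le
        simpa using h1
      · rw [Function.update_of_ne hji]
        exact hts j ((mem_insert.mp hj).resolve_left hji)
  obtain ⟨t, ht, hts⟩ := key univ
  exact ht (hv0 t fun i ↦ hts i (mem_univ i))

/-- A formal Siegel modular form of degree `g` and weight `k` whose moments of order `< ν` vanish
is zero if `k < 12 t - (g - 1) ⌊2 t⌋` for all diagonal entries `t` with `2 ν ≤ g (g - 1) ⌊2 t⌋`. -/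
theorem mainG [CompleteSpace V] [Nonempty ι] {N : ℕ} (hN : 0 < N) {k : ℝ} {ν : ℕ}
    {a : Matrix ι ι ℤ → V} (h : IsSiegel N k a) (hv : Van a ν)
    (hk : ∀ (B : Matrix ι ι ℤ) (i : ι), a B ≠ 0 →
      2 * ν ≤ Fintype.card ι * (Fintype.card ι - 1) * ⌊2 * (B i i : ℝ) / N⌋₊ →
      k < 12 * (B i i : ℝ) / N - (Fintype.card ι - 1) * ⌊2 * (B i i : ℝ) / N⌋₊) :
    ∀ B, a B = 0 := by
  classical
  by_contra hcon
  push Not at hcon
  obtain ⟨B₀, hB₀⟩ := hcon
  have hN' : (0 : ℝ) < N := by exact_mod_cast hN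
  set g : ℕ := Fintype.card ι with hg
  have hg1 : 1 ≤ g := Fintype.card_pos
  -- the minimal order
  obtain ⟨es₀, he₀, t₀, ht₀⟩ := exists_mom h hB₀
  let P : ℕ → Prop := fun s ↦ ∃ es : List (ι × ι), (∀ p ∈ es, p.1 ≠ p.2) ∧ es.length = s ∧
    ∃ t, Mom a es t ≠ 0
  have hP : ∃ s, P s := ⟨_, es₀, he₀, rfl, t₀, ht₀⟩
  obtain ⟨n, ⟨es, hes, hesn, t, ht⟩, hmin⟩ : ∃ s, P s ∧ ∀ s' < s, ¬ P s' :=
    ⟨Nat.find hP, Nat.find_spec hP, fun s' hs' ↦ Nat.find_min hP hs'⟩
  have hvan : Van a n := by
    intro fs hfs hlen t'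
    by_contra hne
    exact hmin _ hlen ⟨fs, hfs, rfl, t', hne⟩
  have hνn : ν ≤ n := by
    by_contra hlt
    push Not at hlt
    exact ht (hv es hes (by omega) t)
  -- a vertex of large degree
  obtain ⟨i, hi⟩ : ∃ i : ι, 2 * n ≤ g * dg i es := by
    by_contra hcon
    push Not at hcon
    have h1 : ∑ i : ι, g * dg i es < ∑ _i : ι, 2 * n :=
      sum_lt_sum_of_nonempty univ_nonempty fun i _ ↦ hcon i
    rw [← mul_sum, sum_dg hes, sum_const, card_univ, ← hg, smul_eq_mul, hesn] at h1
    exact lt_irrefl _ h1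
  obtain ⟨L₁, O, hL₁, hL₁d, hO1, hO, hlen, hmono⟩ := split_list i es hes
  set d : ℕ := L₁.length with hd
  -- the minimal diagonal entry at `i`
  let Q : ℕ → Prop := fun m ↦ ∃ L : List ι, (∀ l ∈ L, l ≠ i) ∧ L.length = d ∧
    ∃ t : ι → ℤ, (t i).toNat = m ∧ Mom a (L.map (fun l ↦ (i, l)) ++ O) t ≠ 0
  have hQ : ∃ m, Q m := ⟨_, L₁, hL₁, rfl, t, rfl, by rw [← Mom_congr h hmono]; exact ht⟩
  obtain ⟨m', ⟨L, hL, hLd, t', htm, hne⟩, hmmin⟩ : ∃ m, Q m ∧ ∀ m' < m, ¬ Q m' :=
    ⟨Nat.find hQ, Nat.find_spec hQ, fun m' hm' ↦ Nat.find_min hQ hm'⟩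
  have hm0 : 0 ≤ t' i := Mom_nonneg h hne i
  have hOd : O.length + d = n := by omega
  have hstep1 : 12 * ((t' i : ℝ) / N) ≤ k + d := by
    refine step1 h hN hvan i t' hO1 hO hOd hm0 ?_ hL hLd (by rwa [Function.update_eq_self])
    intro n' hn' L' hL' hL'd
    by_contra hne'
    have h1 := Mom_nonneg h hne' i
    rw [Function.update_self] at h1
    refine hmmin n'.toNat ?_ ⟨L', hL', hL'd, Function.update t' i n', ?_, hne'⟩
    · rw [← htm]; omega
    · rw [Function.update_self]
  -- the multiplicities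
  have hstep2 : ∀ j, j ≠ i → (L.count j : ℝ) ≤ 2 * (t' i : ℝ) / N := by
    intro j hj
    have hsp := split_count i j L
    have hAl : ∀ p ∈ (L.filter fun l ↦ l ≠ j).map (fun l ↦ (i, l)) ++ O, Al i j p := by
      intro p hp
      rcases List.mem_append.mp hp with h1 | h1
      · obtain ⟨l, hl, rfl⟩ := List.mem_map.mp h1
        rw [List.mem_filter] at hl
        have hlj : l ≠ j := by simpa using hl.2
        have hli : l ≠ i := hL l hl.1
        refine ⟨hli.symm, ?_, ?_⟩
        · simpa using hlj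
        · simp only [ne_eq, Prod.mk.injEq, not_and]
          exact fun hc ↦ absurd hc hj.symm
      · obtain ⟨h2, h3⟩ := hO p h1
        refine ⟨hO1 p h1, ?_, ?_⟩
        · rintro rfl; exact h2 rfl
        · rintro rfl; exact h3 rfl
    refine step2 h hN hvan hj.symm hAl (c := L.count j) ?_ t' ?_
    · rw [List.length_append, List.length_map]
      have := hsp.1
      omega
    · rw [← Mom_congr h (fun B _ ↦ ?_)]
      · exact hne
      · rw [mono_append, mono_append, mono_append, ← hsp.2 B]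
        have : mono (List.replicate (L.count j) (i, j)) B = ((B i j : ℤ) : ℂ) ^ L.count j := by
          simp [mono, List.map_replicate, List.prod_replicate]
        rw [this]
        ring
  set x : ℝ := 2 * (t' i : ℝ) / N with hx
  have hx0 : 0 ≤ x := by
    have : (0 : ℝ) ≤ t' i := by exact_mod_cast hm0
    positivity
  set c : ℕ := ⌊x⌋₊ with hc
  have hcx : (c : ℝ) ≤ x := Nat.floor_le hx0
  have hdc : d ≤ (g - 1) * c := by
    have h1 := sum_count i L hL
    rw [hLd] at h1
    rw [← h1]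
    have h2 : ∑ j ∈ univ.erase i, L.count j ≤ ∑ _j ∈ univ.erase i, c :=
      sum_le_sum fun j hj ↦ Nat.le_floor (hstep2 j (ne_of_mem_erase hj))
    refine h2.trans (le_of_eq ?_)
    rw [sum_const, card_erase_of_mem (mem_univ i), card_univ, smul_eq_mul]
  obtain ⟨B₁, hB₁⟩ := Mom_exists hne
  have hkc := hk B₁.1 i hB₁ (by
    rw [B₁.2 i, ← hx, ← hc]
    rw [← hL₁d] at hi
    calc 2 * ν ≤ 2 * n := by omega
      _ ≤ g * d := hi
      _ ≤ g * ((g - 1) * c) := Nat.mul_le_mul_left _ hdc
      _ = g * (g - 1) * c := by ring)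
  rw [B₁.2 i, ← hx, ← hc] at hkc
  have hdc' : (d : ℝ) ≤ ((g : ℝ) - 1) * c := by
    have h1 : ((d : ℕ) : ℝ) ≤ (((g - 1) * c : ℕ) : ℝ) := by exact_mod_cast hdc
    rw [Nat.cast_mul, Nat.cast_sub hg1, Nat.cast_one] at h1
    exact h1
  have hxx : 12 * ((t' i : ℝ) / N) = 12 * (t' i : ℝ) / N := by ring
  rw [hxx] at hstep1
  linarith

end Pool.Agent.Results.MP_386e47_ag.SpecialCycles
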