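import Pool.Agent.Lib.SPC.E

/-! Formal Siegel modular forms of degree `g = card ι` (cogenus `g - 1` Fourier-Jacobi series)
with values in a Banach space. -/

namespace Pool.Agent.Results.MP_386e47_ag.SpecialCycles

open Complex Finset

variable {ι : Type*} [Fintype ι] [DecidableEq ι]
variable {V : Type*} [NormedAddCommGroup V] [NormedSpace ℂ V]

/-- The Fourier-Jacobi coefficient at the vertex `i` and with remaining block `S`:
`∑ a(B) e((B i i τ + 2 ∑_{j ≠ i} B i j z j) / N)`, over all `B` which agree with `S` outside the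
row and the column of `i`. -/
noncomputable def psi (N : ℕ) (a : Matrix ι ι ℤ → V) (i : ι) (S : Matrix ι ι ℤ) (τ : ℂ)
    (z : ι → ℂ) : V :=
  ∑' B : {B : Matrix ι ι ℤ // ∀ j l, j ≠ i → l ≠ i → B j l = S j l},
    e ((B.1 i i * τ + 2 * ∑ j ∈ univ.erase i, B.1 i j * z j) / N) • a B.1

/-- Formal Siegel modular forms `∑ a(B) e(tr(B Z) / N)` of degree `card ι`, weight `k`, for unitary
multipliers. -/
structure IsSiegel (N : ℕ) (k : ℝ) (a : Matrix ι ι ℤ → V) : Prop where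
  symm : ∀ B, a B ≠ 0 → B.IsSymm
  psd : ∀ B, a B ≠ 0 → ∀ x : ι → ℤ, 0 ≤ x ⬝ᵥ (B.mulVec x)
  conv : ∀ (i : ι) (t : ι → ℤ) (δ : ℝ), 0 < δ →
    Summable fun B : {B : Matrix ι ι ℤ // ∀ j, j ≠ i → B j j = t j} ↦
      Real.exp (-(δ * B.1 i i)) * ‖a B.1‖
  trans : ∀ S : Matrix ι ι ℤ, S.IsSymm →
    ∃ σ : V →ₗᵢ[ℂ] V, ∀ B, e ((S * B).trace / N) • a B = σ (a B)
  gl : ∀ U : Matrix ι ι ℤ, IsUnit U.det →
    ∃ ρ : V →ₗᵢ[ℂ] V, ∀ B, a (U.transpose * B * U) = ρ (a B)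
  inv : ∀ i : ι, ∃ ρ : V →ₗᵢ[ℂ] V, ∀ (S : Matrix ι ι ℤ) (τ : ℂ) (z : ι → ℂ), 0 < τ.im →
    psi N a i S (-1 / τ) (fun j ↦ z j / τ) =
      (τ ^ (k : ℂ) * e ((∑ j ∈ univ.erase i, ∑ l ∈ univ.erase i, S j l * z j * z l) / (N * τ))) •
        ρ (psi N a i S τ z)

/-- The moment of `a` along the list `es` of off-diagonal positions, over all `B` with
diagonal `t`. -/
noncomputable def Mom (a : Matrix ι ι ℤ → V) (es : List (ι × ι)) (t : ι → ℤ) : V :=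
  ∑' B : {B : Matrix ι ι ℤ // ∀ j, B j j = t j},
    (es.map fun p ↦ ((B.1 p.1 p.2 : ℤ) : ℂ)).prod • a B.1

end Pool.Agent.Results.MP_386e47_ag.SpecialCycles
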