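import Pool.Agent.Lib.SPC.Series
import Pool.Agent.Lib.SPC.Div
import Pool.Agent.Lib.SPC.DeltaBound

/-! The main theorem on symmetric formal Fourier-Jacobi series of degree two. -/

namespace Pool.Agent.Results.MP_386e47_ag.SpecialCycles

open Complex Finset Filter Topology Asymptotics

set_option linter.unusedSectionVars false

variable {V : Type*} [NormedAddCommGroup V] [NormedSpace ℂ V]

lemma ball_ev (c : ℝ) (hc : 0 < c) : ∀ᶠ z : ℂ in 𝓝[≠] 0, ‖z‖ ≤ c := by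
  have : ∀ᶠ q : ℂ in 𝓝 0, ‖q‖ ≤ c := by
    filter_upwards [Metric.ball_mem_nhds (0 : ℂ) hc] with q hq
    exact (mem_ball_zero_iff.mp hq).le
  exact this.filter_mono nhdsWithin_le_nhds

/-- The leading coefficient as a limit of norms. -/
lemma lead_tendsto [CompleteSpace V] {N : ℕ} {k : ℝ} {a : ℕ → ℤ → ℕ → V} (h : IsSym N k a)
    (hN : 0 < N) (m j : ℕ) {τ : ℂ} (hτ : 0 < τ.im) (hj : ∀ i < j, cj N a m i τ = 0) :
    Tendsto (fun z ↦ ‖FJ N a m τ z‖ / ‖z‖ ^ j) (𝓝[≠] 0)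
      (𝓝 ‖(j.factorial : ℂ)⁻¹ • cj N a m j τ‖) := by
  obtain ⟨K, hK⟩ := FJ_lead h hN m j hτ hj
  have h2 : Tendsto (fun q : ℂ ↦ K * ‖q‖) (𝓝[≠] 0) (𝓝 0) := by
    have : Tendsto (fun q : ℂ ↦ K * ‖q‖) (𝓝 0) (𝓝 (K * ‖(0 : ℂ)‖)) :=
      (continuous_const.mul continuous_norm).tendsto 0
    rw [norm_zero, mul_zero] at this
    exact this.mono_left nhdsWithin_le_nhds
  rw [tendsto_iff_norm_sub_tendsto_zero]
  refine squeeze_zero' (Eventually.of_forall fun z ↦ norm_nonneg _) ?_ h2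
  filter_upwards [ball_ev 1 one_pos, self_mem_nhdsWithin] with z hz hne
  have hzp : 0 < ‖z‖ ^ j := pow_pos (norm_pos_iff.mpr hne) _
  have h3 := hK z hz
  have h4 : ‖FJ N a m τ z‖ / ‖z‖ ^ j - ‖(j.factorial : ℂ)⁻¹ • cj N a m j τ‖ =
      (‖FJ N a m τ z‖ - ‖z ^ j • ((j.factorial : ℂ)⁻¹ • cj N a m j τ)‖) / ‖z‖ ^ j := by
    rw [norm_smul (z ^ j), norm_pow]
    field_simp
  rw [h4, norm_div, Real.norm_of_nonneg hzp.le, div_le_iff₀ hzp, Real.norm_eq_abs]
  calc _ ≤ _ := abs_norm_sub_norm_le _ _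
    _ ≤ _ := h3
    _ = _ := by ring

lemma isBigO_lead [CompleteSpace V] {N : ℕ} {k : ℝ} {a : ℕ → ℤ → ℕ → V} (h : IsSym N k a)
    (hN : 0 < N) (m j : ℕ) {τ : ℂ} (hτ : 0 < τ.im) (hj : ∀ i < j, cj N a m i τ = 0) :
    FJ N a m τ =O[𝓝[≠] 0] fun z ↦ z ^ j := by
  have h1 := lead_tendsto h hN m j hτ hj
  set L := ‖(j.factorial : ℂ)⁻¹ • cj N a m j τ‖
  have h2 : ∀ᶠ z in 𝓝[≠] 0, ‖FJ N a m τ z‖ / ‖z‖ ^ j < L + 1 := h1.eventually_lt_const (by linarith)
  refine IsBigO.of_bound (L + 1) ?_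
  filter_upwards [h2, self_mem_nhdsWithin] with z hz hne
  have hzp : 0 < ‖z‖ ^ j := pow_pos (norm_pos_iff.mpr hne) _
  rw [div_lt_iff₀ hzp] at hz
  rw [norm_pow]
  exact hz.le

lemma norm_fac (j : ℕ) (v : V) : ‖((j.factorial : ℂ)⁻¹) • v‖ = ‖v‖ / j.factorial := by
  rw [norm_smul, norm_inv, Complex.norm_natCast]
  ring

lemma lead_T [CompleteSpace V] {N : ℕ} {k : ℝ} {a : ℕ → ℤ → ℕ → V} (h : IsSym N k a)
    (hN : 0 < N) (m j : ℕ) (hj : ∀ i < j, ∀ τ : ℂ, 0 < τ.im → cj N a m i τ = 0)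
    {τ : ℂ} (hτ : 0 < τ.im) : ‖cj N a m j (τ + 1)‖ = ‖cj N a m j τ‖ := by
  have hτ1 : 0 < (τ + 1).im := by simpa using hτ
  have h1 := lead_tendsto h hN m j hτ (fun i hi ↦ hj i hi τ hτ)
  have h2 := lead_tendsto h hN m j hτ1 (fun i hi ↦ hj i hi _ hτ1)
  have h3 : (fun z ↦ ‖FJ N a m (τ + 1) z‖ / ‖z‖ ^ j) = fun z ↦ ‖FJ N a m τ z‖ / ‖z‖ ^ j := by
    funext z
    rw [h.shift m τ z hτ]
  rw [h3] at h2
  have h4 := tendsto_nhds_unique h2 h1
  rw [norm_fac, norm_fac] at h4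
  have hf : (j.factorial : ℝ) ≠ 0 := by exact_mod_cast j.factorial_ne_zero
  exact (div_left_inj' hf).mp h4

lemma im_neg_inv {τ : ℂ} (hτ : 0 < τ.im) : 0 < (-1 / τ).im := by
  have h0 : τ ≠ 0 := by rintro rfl; simp at hτ
  rw [Complex.div_im]
  simp only [neg_im, one_im, neg_zero, zero_mul, zero_div, neg_re, one_re]
  have : 0 < Complex.normSq τ := Complex.normSq_pos.mpr h0
  have h2 : 0 - -1 * τ.im / Complex.normSq τ = τ.im / Complex.normSq τ := by ring
  rw [h2]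
  positivity

lemma lead_S [CompleteSpace V] {N : ℕ} {k : ℝ} {a : ℕ → ℤ → ℕ → V} (h : IsSym N k a)
    (hN : 0 < N) (m j : ℕ) (hj : ∀ i < j, ∀ τ : ℂ, 0 < τ.im → cj N a m i τ = 0)
    {τ : ℂ} (hτ : 0 < τ.im) :
    ‖cj N a m j (-1 / τ)‖ = ‖τ‖ ^ (k + j) * ‖cj N a m j τ‖ := by
  have hτ1 := im_neg_inv hτ
  have h0 : τ ≠ 0 := by rintro rfl; simp at hτ
  have hn : 0 < ‖τ‖ := norm_pos_iff.mpr h0
  have h1 := lead_tendsto h hN m j hτ (fun i hi ↦ hj i hi τ hτ)
  have h2 := lead_tendsto h hN m j hτ1 (fun i hi ↦ hj i hi _ hτ1)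
  have hdiv : Tendsto (fun z : ℂ ↦ z / τ) (𝓝[≠] 0) (𝓝[≠] 0) := by
    rw [tendsto_nhdsWithin_iff]
    constructor
    · have : Tendsto (fun z : ℂ ↦ z / τ) (𝓝 0) (𝓝 (0 / τ)) :=
        (continuous_id.div_const τ).tendsto 0
      rw [zero_div] at this
      exact this.mono_left nhdsWithin_le_nhds
    · filter_upwards [self_mem_nhdsWithin] with z hz
      exact div_ne_zero hz h0
  have h3 := h2.comp hdiv
  have hE : Tendsto (fun z : ℂ ↦ ‖e (m / N * z ^ 2 / τ)‖) (𝓝[≠] 0) (𝓝 1) := by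
    have hc : Continuous fun z : ℂ ↦ ‖e (m / N * z ^ 2 / τ)‖ := by
      have : Continuous e := e_diff.continuous
      fun_prop
    have := hc.tendsto 0
    simp only [ne_eq, OfNat.ofNat_ne_zero, not_false_eq_true, zero_pow, mul_zero, zero_div,
      e_zero, norm_one] at this
    exact this.mono_left nhdsWithin_le_nhds
  have h4 : Tendsto (fun z : ℂ ↦ ‖τ‖ ^ (k + j) * ‖e (m / N * z ^ 2 / τ)‖ *
      (‖FJ N a m τ z‖ / ‖z‖ ^ j)) (𝓝[≠] 0)
      (𝓝 (‖τ‖ ^ (k + j) * 1 * ‖(j.factorial : ℂ)⁻¹ • cj N a m j τ‖)) :=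
    (hE.const_mul _).mul h1
  have h5 : (fun z : ℂ ↦ ‖τ‖ ^ (k + j) * ‖e (m / N * z ^ 2 / τ)‖ *
      (‖FJ N a m τ z‖ / ‖z‖ ^ j)) =ᶠ[𝓝[≠] 0]
      ((fun z ↦ ‖FJ N a m (-1 / τ) z‖ / ‖z‖ ^ j) ∘ fun z ↦ z / τ) := by
    filter_upwards [self_mem_nhdsWithin] with z hz
    have hzp : 0 < ‖z‖ := norm_pos_iff.mpr hz
    simp only [Function.comp]
    rw [h.inv m τ z hτ, norm_div, Real.rpow_add hn, Real.rpow_natCast, div_pow]
    field_simp
  have h6 := tendsto_nhds_unique (h4.congr' h5) h3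
  rw [norm_fac, norm_fac] at h6
  have hf : (j.factorial : ℝ) ≠ 0 := by exact_mod_cast j.factorial_ne_zero
  have h7 : (‖τ‖ ^ (k + j) * ‖cj N a m j τ‖) / j.factorial =
      ‖cj N a m j (-1 / τ)‖ / j.factorial := by
    rw [← h6]; ring
  exact ((div_left_inj' hf).mp h7).symm

lemma cj_growth [CompleteSpace V] {N : ℕ} {k : ℝ} {a : ℕ → ℤ → ℕ → V} (h : IsSym N k a)
    (hN : 0 < N) (m j : ℕ) (h0 : ∀ (n : ℕ) (r : ℤ), n < m → a n r m = 0) :
    ∃ C, ∀ τ : ℂ, 1 ≤ τ.im →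
      ‖cj N a m j τ‖ ≤ C * Real.exp (-(2 * Real.pi * (m / N) * τ.im)) := by
  set B : ℕ → V := fun n ↦ ∑ r ∈ Icc (-(n + m : ℤ)) (n + m),
      ((2 * Real.pi * I * r / N) ^ j : ℂ) • a n r m with hB
  have hN' : (0 : ℝ) < N := by exact_mod_cast hN
  have hpi := Real.pi_pos
  have hs : Summable fun n : ℕ ↦ Real.exp (-(2 * Real.pi * n / N)) * ‖B n‖ := by
    refine Summable.of_nonneg_of_le (fun n ↦ by positivity) (fun n ↦ ?_)
      ((Ub_summable h hN m one_pos 1).mul_left (j.factorial : ℝ))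
    have := cj_term_le h hN n m j one_pos (τ := Complex.I) (by simp)
    rw [norm_smul, norm_e_nat, Complex.I_im, mul_one] at this
    exact this
  refine ⟨Real.exp (2 * Real.pi * m / N) * ∑' n : ℕ, Real.exp (-(2 * Real.pi * n / N)) * ‖B n‖,
    fun τ hτ ↦ ?_⟩
  have h1 : HasSum (fun n : ℕ ↦ Real.exp (2 * Real.pi * m / N) *
      (Real.exp (-(2 * Real.pi * n / N)) * ‖B n‖) * Real.exp (-(2 * Real.pi * (m / N) * τ.im)))
      (Real.exp (2 * Real.pi * m / N) *
        (∑' n : ℕ, Real.exp (-(2 * Real.pi * n / N)) * ‖B n‖) *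
        Real.exp (-(2 * Real.pi * (m / N) * τ.im))) := (hs.hasSum.mul_left _).mul_right _
  unfold cj
  refine tsum_of_norm_bounded h1 fun n ↦ ?_
  rw [norm_smul, norm_e_nat]
  by_cases hn : n < m
  · have hz : B n = 0 := by
      rw [hB]
      exact sum_eq_zero fun r _ ↦ by rw [h0 n r hn, smul_zero]
    have hz' : ‖∑ r ∈ Icc (-(n + m : ℤ)) (n + m),
      ((2 * Real.pi * I * r / N) ^ j : ℂ) • a n r m‖ = 0 := by
      rw [norm_eq_zero]; exact hz
    rw [hz']
    simp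
  · push Not at hn
    have hnm : (m : ℝ) ≤ n := by exact_mod_cast hn
    have h2 : Real.exp (-(2 * Real.pi * n * τ.im / N)) ≤ Real.exp (2 * Real.pi * m / N) *
        Real.exp (-(2 * Real.pi * n / N)) * Real.exp (-(2 * Real.pi * (m / N) * τ.im)) := by
      rw [← Real.exp_add, ← Real.exp_add, Real.exp_le_exp]
      have h3 : 2 * Real.pi * m / N + -(2 * Real.pi * n / N) + -(2 * Real.pi * (m / N) * τ.im) -
          -(2 * Real.pi * n * τ.im / N) = 2 * Real.pi / N * ((n - m) * (τ.im - 1)) := by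
        field_simp
        ring
      have h4 : 0 ≤ 2 * Real.pi / N * ((n - m) * (τ.im - 1)) :=
        mul_nonneg (by positivity) (mul_nonneg (by linarith) (by linarith))
      linarith
    calc _ ≤ (Real.exp (2 * Real.pi * m / N) *
        Real.exp (-(2 * Real.pi * n / N)) * Real.exp (-(2 * Real.pi * (m / N) * τ.im))) *
          ‖B n‖ := mul_le_mul_of_nonneg_right h2 (norm_nonneg _)
      _ = _ := by ring

lemma QP_FJ {N : ℕ} {k : ℝ} {a : ℕ → ℤ → ℕ → V} (h : IsSym N k a) (m : ℕ) {τ : ℂ}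
    (hτ : 0 < τ.im) : QP τ (2 * m / N) 0 (FJ N a m τ) := by
  constructor
  · intro z
    have := h.lattice m τ z 0 1 hτ
    simpa [e_zero] using this
  · intro z
    have := h.lattice m τ z 1 0 hτ
    simp only [Int.cast_one, one_mul, Int.cast_zero, add_zero, one_pow, mul_one] at this
    rw [this, norm_e, mul_comm]
    congr 2
    have h1 : (-((m : ℂ) / N) * (τ + 2 * z)).im = -((m : ℝ) / N) * (τ.im + 2 * z.im) := by
      have : (-((m : ℂ) / N)) = ((-((m : ℝ) / N) : ℝ) : ℂ) := by push_cast; ring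
      rw [this, Complex.im_ofReal_mul]
      simp
    rw [h1]
    ring

lemma vander {ι : Type*} [DecidableEq ι] (S : Finset ι) (x : ι → ℂ)
    (hx : ∀ i ∈ S, ∀ l ∈ S, x i = x l → i = l)
    (b : ι → V) (h : ∀ j : ℕ, ∑ i ∈ S, x i ^ j • b i = 0) : ∀ i ∈ S, b i = 0 := by
  have hP : ∀ P : Polynomial ℂ, ∑ i ∈ S, P.eval (x i) • b i = 0 := by
    intro P
    simp_rw [Polynomial.eval_eq_sum_range, sum_smul, mul_smul]
    rw [sum_comm]
    exact sum_eq_zero fun j _ ↦ by rw [← smul_sum, h, smul_zero]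
  intro i hi
  have h1 := hP (∏ l ∈ S.erase i, (Polynomial.X - Polynomial.C (x l)))
  simp_rw [Polynomial.eval_prod, Polynomial.eval_sub, Polynomial.eval_X, Polynomial.eval_C] at h1
  rw [sum_eq_single i] at h1
  · refine (smul_eq_zero.mp h1).resolve_left ?_
    rw [← ne_eq, prod_ne_zero_iff]
    intro l hl
    rw [mem_erase] at hl
    exact sub_ne_zero.mpr fun he ↦ hl.1 (hx i hi l hl.2 he).symm
  · intro l hl hne
    have : ∏ l' ∈ S.erase i, (x l - x l') = 0 :=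
      prod_eq_zero (mem_erase.mpr ⟨hne, hl⟩) (sub_self _)
    rw [this, zero_smul]
  · intro hc
    exact absurd hi hc

lemma coef_zero [CompleteSpace V] {N : ℕ} {k : ℝ} {a : ℕ → ℤ → ℕ → V} (h : IsSym N k a)
    (hN : 0 < N) (m : ℕ) (h0 : ∀ (j : ℕ) (τ : ℂ), 0 < τ.im → cj N a m j τ = 0) :
    ∀ (n : ℕ) (r : ℤ), a n r m = 0 := by
  have hN0 : (N : ℂ) ≠ 0 := by exact_mod_cast hN.ne'
  have hpi : (2 * Real.pi * I : ℂ) ≠ 0 := Complex.two_pi_I_ne_zero
  have hB : ∀ j n : ℕ, ∑ r ∈ Icc (-(n + m : ℤ)) (n + m),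
      ((2 * Real.pi * I * r / N) ^ j : ℂ) • a n r m = 0 := by
    intro j
    set B : ℕ → V := fun n ↦ ∑ r ∈ Icc (-(n + m : ℤ)) (n + m),
      ((2 * Real.pi * I * r / N) ^ j : ℂ) • a n r m with hBdef
    have hs : Summable fun n : ℕ ↦ ‖e (n * I / N) • B n‖ :=
      Summable.of_nonneg_of_le (fun n ↦ norm_nonneg _)
        (fun n ↦ cj_term_le h hN n m j one_pos (by simp))
        ((Ub_summable h hN m one_pos 1).mul_left (j.factorial : ℝ))
    have hq : ∀ᶠ q : ℂ in 𝓝[≠] 0, ∑' n : ℕ, q ^ n • (e (n * I / N) • B n) = 0 := by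
      filter_upwards [ball_ev 1 one_pos, self_mem_nhdsWithin] with q hq hne
      set w : ℂ := Complex.log q / (2 * Real.pi * I) with hw
      have hew : e w = q := by
        unfold e
        rw [hw, mul_div_cancel₀ _ hpi, Complex.exp_log hne]
      have him : 0 ≤ w.im := by
        have h1 := norm_e w
        rw [hew] at h1
        rw [h1, Real.exp_le_one_iff] at hq
        have := Real.pi_pos
        by_contra hlt
        push Not at hlt
        nlinarith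
      have h2 := h0 j (I + N * w) (by
        have : (I + N * w).im = 1 + N * w.im := by simp
        rw [this]
        positivity)
      rw [cj] at h2
      rw [← h2]
      refine tsum_congr fun n ↦ ?_
      rw [smul_smul]
      congr 1
      have h3 : (n : ℂ) * (I + N * w) / N = n * w + n * I / N := by
        field_simp
        ring
      rw [h3, e_add, e_nat_mul, hew]
    intro n
    have h4 := ps_uniq hs hq n
    exact (smul_eq_zero.mp h4).resolve_left (e_ne_zero _)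
  intro n r
  by_cases hr : r ∈ Icc (-(n + m : ℤ)) (n + m)
  · refine vander (Icc (-(n + m : ℤ)) (n + m)) (fun r : ℤ ↦ (2 * Real.pi * I * r / N : ℂ)) ?_
      (fun r ↦ a n r m) (fun j ↦ hB j n) r hr
    intro i _ l _ hil
    have hil' : (2 * Real.pi * I * i / N : ℂ) = 2 * Real.pi * I * l / N := hil
    rw [div_left_inj' hN0] at hil'
    have := mul_left_cancel₀ hpi hil'
    exact_mod_cast this
  · apply h.supp
    rw [mem_Icc, not_and_or] at hr
    rcases hr with hr | hr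
    · push Not at hr
      nlinarith [sq_nonneg ((n : ℤ) - m)]
    · push Not at hr
      nlinarith [sq_nonneg ((n : ℤ) - m)]

/-- A symmetric formal Fourier-Jacobi series of weight `k < 5ν` with vanishing moments of order
`< ν` is zero. -/
theorem main [CompleteSpace V] {N : ℕ} {k : ℝ} {ν : ℕ} {a : ℕ → ℤ → ℕ → V} (hN : 0 < N)
    (h : IsSym N k a) (hk : k < 5 * ν)
    (hm : ∀ (n m j : ℕ), j < ν →
      ∑ r ∈ Icc (-(n + m : ℤ)) (n + m), (r : ℂ) ^ j • a n r m = 0) :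
    ∀ (n : ℕ) (r : ℤ) (m : ℕ), a n r m = 0 := by
  have hN' : (0 : ℝ) < N := by exact_mod_cast hN
  have key : ∀ (m n : ℕ) (r : ℤ), a n r m = 0 := by
    intro m
    induction m using Nat.strong_induction_on with
    | _ m ih =>
      have h0 : ∀ (n : ℕ) (r : ℤ), n < m → a n r m = 0 := by
        intro n r hn
        have h1 := h.symm n r m
        rw [ih n hn m r, norm_zero] at h1
        exact norm_eq_zero.mp h1.symm
      apply coef_zero h hN m
      by_contra hne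
      push Not at hne
      classical
      have hex : ∃ j : ℕ, ∃ τ : ℂ, 0 < τ.im ∧ cj N a m j τ ≠ 0 := hne
      obtain ⟨j, ⟨τ1, hτ1, hc1⟩, hmin'⟩ : ∃ j : ℕ, (∃ τ : ℂ, 0 < τ.im ∧ cj N a m j τ ≠ 0) ∧
          ∀ i < j, ¬ ∃ τ : ℂ, 0 < τ.im ∧ cj N a m i τ ≠ 0 :=
        ⟨Nat.find hex, Nat.find_spec hex, fun i hi ↦ Nat.find_min hex hi⟩
      have hmin : ∀ i < j, ∀ τ : ℂ, 0 < τ.im → cj N a m i τ = 0 := by
        intro i hi τ hτ
        by_contra hc
        exact hmin' i hi ⟨τ, hτ, hc⟩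
      have hνj : ν ≤ j := by
        by_contra hlt
        push Not at hlt
        apply hc1
        have h2 : ∀ n : ℕ, ∑ r ∈ Icc (-(n + m : ℤ)) (n + m),
            ((2 * Real.pi * I * r / N) ^ j : ℂ) • a n r m = 0 := by
          intro n
          have h3 : ∀ r : ℤ, ((2 * Real.pi * I * r / N) ^ j : ℂ) • a n r m =
              ((2 * Real.pi * I / N) ^ j : ℂ) • ((r : ℂ) ^ j • a n r m) := by
            intro r
            rw [smul_smul, ← mul_pow]
            congr 2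
            ring
          simp_rw [h3]
          rw [← smul_sum, hm n m j hlt, smul_zero]
        unfold cj
        simp_rw [h2, smul_zero]
        exact tsum_zero
      have h1 : 12 * ((m : ℝ) / N) ≤ k + j := by
        by_contra hlt
        push Not at hlt
        obtain ⟨C, hC⟩ := cj_growth h hN m j h0
        exact hc1 (eq_zero_of_decay (cj_diff h hN m j) (fun τ hτ ↦ lead_T h hN m j hmin hτ)
          (fun τ hτ ↦ lead_S h hN m j hmin hτ) (by positivity) hlt hC τ1 hτ1)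
      have h2 : 2 * (m : ℝ) / N < j := by
        have h3 : (ν : ℝ) ≤ j := by exact_mod_cast hνj
        have h4 : 2 * (m : ℝ) / N = 2 * ((m : ℝ) / N) := by ring
        rw [h4]
        linarith
      have h3 := QP.eq_zero hτ1 j (QP_FJ h m hτ1) (FJ_diff h hN m hτ1) h2
        (isBigO_lead h hN m j hτ1 (fun i hi ↦ hmin i hi τ1 hτ1))
      exact hc1 (cj_zero_of_FJ h hN m hτ1 h3 j)
  exact fun n r m ↦ key m n r

end Pool.Agent.Results.MP_386e47_ag.SpecialCycles
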