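import Pool.Agent.Lib.SPC.Defs

/-! The product function with simple zeros at the lattice. -/

namespace Pool.Agent.Results.MP_386e47_ag.SpecialCycles

open Complex Filter Topology

lemma e_add (x y : ℂ) : e (x + y) = e x * e y := by
  unfold e; rw [← Complex.exp_add]; ring_nf

lemma e_zero : e 0 = 1 := by simp [e]

lemma e_ne_zero (x : ℂ) : e x ≠ 0 := Complex.exp_ne_zero _

lemma e_neg (x : ℂ) : e (-x) = (e x)⁻¹ := by
  unfold e; rw [← Complex.exp_neg]; ring_nf

lemma e_int (n : ℤ) : e n = 1 := by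
  unfold e
  rw [Complex.exp_eq_one_iff]
  exact ⟨n, by ring⟩

lemma e_one : e 1 = 1 := by simpa using e_int 1

lemma e_nat_mul (n : ℕ) (x : ℂ) : e (n * x) = e x ^ n := by
  unfold e; rw [← Complex.exp_nat_mul]; ring_nf

lemma norm_e (x : ℂ) : ‖e x‖ = Real.exp (-2 * Real.pi * x.im) := by
  unfold e
  rw [Complex.norm_exp]
  congr 1
  simp [Complex.mul_re, Complex.mul_im]

lemma e_eq_one_iff (x : ℂ) : e x = 1 ↔ ∃ n : ℤ, x = n := by
  unfold e
  rw [Complex.exp_eq_one_iff]
  constructor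
  · rintro ⟨n, hn⟩
    refine ⟨n, ?_⟩
    have : (2 * Real.pi * Complex.I : ℂ) ≠ 0 := by
      simp [Real.pi_ne_zero]
    apply mul_left_cancel₀ this
    rw [hn]; ring
  · rintro ⟨n, rfl⟩
    exact ⟨n, by ring⟩

@[fun_prop]
lemma e_diff : Differentiable ℂ e := by
  unfold e; fun_prop

lemma norm_e_lt_one {τ : ℂ} (h : 0 < τ.im) : ‖e τ‖ < 1 := by
  rw [norm_e, Real.exp_lt_one_iff]
  have := Real.pi_pos
  nlinarith [mul_pos this h]

/-- The product `∏ (1 - q^(n+1) w)`. -/
noncomputable def G (q w : ℂ) : ℂ := ∏' n : ℕ, (1 - q ^ (n + 1) * w)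

lemma G_summable {q : ℂ} (hq : ‖q‖ < 1) (w : ℂ) : Summable fun n : ℕ ↦ ‖-(q ^ (n + 1) * w)‖ := by
  have : Summable fun n : ℕ ↦ ‖q‖ ^ (n + 1) * ‖w‖ :=
    ((summable_nat_add_iff 1).mpr (summable_geometric_of_lt_one (norm_nonneg _) hq)).mul_right _
  refine this.congr fun n ↦ ?_
  simp

lemma G_mult {q : ℂ} (hq : ‖q‖ < 1) (w : ℂ) : Multipliable fun n : ℕ ↦ 1 - q ^ (n + 1) * w := by
  simpa [sub_eq_add_neg] using multipliable_one_add_of_summable (G_summable hq w)

lemma G_rec {q : ℂ} (hq : ‖q‖ < 1) (w : ℂ) : G q w = (1 - q * w) * G q (q * w) := by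
  unfold G
  have h1 : Multipliable fun n : ℕ ↦ 1 - q ^ (n + 1 + 1) * w := by
    have := G_mult hq (q * w)
    refine this.congr fun n ↦ ?_
    ring
  rw [tprod_eq_zero_mul' h1]
  simp only [zero_add, pow_one]
  congr 1
  apply tprod_congr
  intro n
  ring

lemma G_ne {q : ℂ} (hq : ‖q‖ < 1) (w : ℂ) (h : ∀ n : ℕ, q ^ (n + 1) * w ≠ 1) : G q w ≠ 0 := by
  unfold G
  have := tprod_one_add_ne_zero_of_summable (f := fun n : ℕ ↦ -(q ^ (n + 1) * w))
    (fun n ↦ by
      have := h n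
      intro h0
      apply this
      linear_combination -h0) (G_summable hq w)
  simpa [sub_eq_add_neg] using this

lemma G_diff {q : ℂ} (hq : ‖q‖ < 1) : Differentiable ℂ (G q) := by
  have hloc : HasProdLocallyUniformlyOn (fun (n : ℕ) (w : ℂ) ↦ 1 + -(q ^ (n + 1) * w))
      (fun w ↦ ∏' n : ℕ, (1 + -(q ^ (n + 1) * w))) Set.univ := by
    apply hasProdLocallyUniformlyOn_of_forall_compact isOpen_univ
    intro K _ hcK
    obtain ⟨R, hR⟩ := hcK.isBounded.exists_norm_le
    have hsum : Summable fun n : ℕ ↦ ‖q‖ ^ (n + 1) * R :=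
      ((summable_nat_add_iff 1).mpr (summable_geometric_of_lt_one (norm_nonneg _) hq)).mul_right _
    refine hsum.hasProdUniformlyOn_nat_one_add hcK (.of_forall fun n x hx ↦ ?_)
      (fun _ ↦ by fun_prop)
    rw [norm_neg, norm_mul, norm_pow]
    exact mul_le_mul_of_nonneg_left (hR x hx) (by positivity)
  have := hloc.differentiableOn
    (.of_forall fun _ ↦ by simpa [Finset.prod_fn] using
      DifferentiableOn.finsetProd (fun _ _ ↦ by fun_prop)) isOpen_univ
  have h2 : G q = fun w ↦ ∏' n : ℕ, (1 + -(q ^ (n + 1) * w)) := by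
    ext w; simp [G, sub_eq_add_neg]
  rw [h2]
  exact differentiableOn_univ.mp this

/-- The theta product. -/
noncomputable def th (τ z : ℂ) : ℂ := (1 - e z) * G (e τ) (e z) * G (e τ) (e (-z))

lemma th_diff {τ : ℂ} (h : 0 < τ.im) : Differentiable ℂ (th τ) := by
  have := G_diff (norm_e_lt_one h)
  unfold th
  refine ((by fun_prop : Differentiable ℂ fun z ↦ 1 - e z).mul (this.comp e_diff)).mul
    (this.comp (e_diff.comp differentiable_neg))

lemma th_add_one (τ z : ℂ) : th τ (z + 1) = th τ z := by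
  have h1 : e (z + 1) = e z := by rw [e_add, e_one, mul_one]
  have h2 : e (-(z + 1)) = e (-z) := by rw [e_neg, h1, e_neg]
  unfold th; rw [h1, h2]

lemma th_add_tau {τ : ℂ} (h : 0 < τ.im) (z : ℂ) : th τ (z + τ) = -e (-z) * th τ z := by
  have hq := norm_e_lt_one h
  have hq0 := e_ne_zero τ
  have hz0 := e_ne_zero z
  unfold th
  have h1 : G (e τ) (e z) = (1 - e τ * e z) * G (e τ) (e τ * e z) := G_rec hq _
  have h2 : G (e τ) (e (-(z + τ))) = (1 - e (-z)) * G (e τ) (e (-z)) := by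
    rw [G_rec hq]
    have : e τ * e (-(z + τ)) = e (-z) := by
      rw [e_neg, e_add, e_neg]; field_simp
    rw [this]
  have h3 : e (z + τ) = e τ * e z := by rw [e_add, mul_comm]
  rw [h2, h3, h1, e_neg]
  field_simp
  ring

lemma th_zero {τ : ℂ} (h : 0 < τ.im) {z : ℂ} (hz : th τ z = 0) : ∃ l u : ℤ, z = l * τ + u := by
  have hq := norm_e_lt_one h
  unfold th at hz
  rcases mul_eq_zero.mp hz with hz | hz
  · rcases mul_eq_zero.mp hz with hz | hz
    · have : e z = 1 := by linear_combination -hz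
      obtain ⟨n, hn⟩ := (e_eq_one_iff z).mp this
      exact ⟨0, n, by simpa using hn⟩
    · by_contra hcon
      apply G_ne hq (e z) _ hz
      intro n hn
      rw [← e_nat_mul, ← e_add, e_eq_one_iff] at hn
      obtain ⟨u, hu⟩ := hn
      apply hcon
      refine ⟨-(n + 1), u, ?_⟩
      push_cast at hu ⊢
      linear_combination hu
  · by_contra hcon
    apply G_ne hq (e (-z)) _ hz
    intro n hn
    rw [← e_nat_mul, ← e_add, e_eq_one_iff] at hn
    obtain ⟨u, hu⟩ := hn
    apply hcon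
    refine ⟨(n + 1), -u, ?_⟩
    push_cast at hu ⊢
    linear_combination -hu

lemma th_at_zero (τ : ℂ) : th τ 0 = 0 := by simp [th, e_zero]

lemma hasDerivAt_e (x : ℂ) : HasDerivAt e (2 * Real.pi * Complex.I * e x) x := by
  unfold e
  have h := ((hasDerivAt_id x).const_mul (2 * Real.pi * Complex.I)).cexp
  convert! h using 1
  simp; ring

lemma th_deriv_zero {τ : ℂ} (h : 0 < τ.im) : deriv (th τ) 0 ≠ 0 := by
  have hq := norm_e_lt_one h
  have hG : G (e τ) 1 ≠ 0 := by
    apply G_ne hq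
    intro n hn
    rw [mul_one] at hn
    have : ‖e τ ^ (n + 1)‖ = 1 := by rw [hn]; simp
    rw [norm_pow] at this
    have h2 : ‖e τ‖ ^ (n + 1) < 1 := pow_lt_one₀ (norm_nonneg _) hq (by omega)
    linarith
  have hd := G_diff hq
  set B : ℂ → ℂ := fun z ↦ G (e τ) (e z) * G (e τ) (e (-z)) with hB
  have hBd : Differentiable ℂ B :=
    (hd.comp e_diff).mul (hd.comp (e_diff.comp differentiable_neg))
  have h1 : HasDerivAt (fun z ↦ (1 - e z) * B z)
      ((-(2 * Real.pi * Complex.I * e 0)) * B 0 + (1 - e 0) * deriv B 0) 0 :=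
    ((hasDerivAt_e 0).const_sub 1).mul (hBd 0).hasDerivAt
  have h2 : th τ = fun z ↦ (1 - e z) * B z := by
    ext z; simp [th, hB, mul_assoc]
  rw [h2, h1.deriv]
  simp only [e_zero, sub_self, zero_mul, add_zero, mul_one]
  apply mul_ne_zero
  · simp [Real.pi_ne_zero]
  · simp only [hB, neg_zero, e_zero]
    exact mul_ne_zero hG hG

lemma th_periodic_int (τ z : ℂ) (u : ℤ) : th τ (z + u) = th τ z := by
  have hp : Function.Periodic (th τ) 1 := fun z ↦ th_add_one τ z
  simpa using hp.int_mul u z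

/-- simple zero propagates along `τ`. -/
lemma th_deriv_add_tau {τ : ℂ} (h : 0 < τ.im) {z : ℂ} (h0 : th τ z = 0) :
    deriv (th τ) (z + τ) = -e (-z) * deriv (th τ) z := by
  have hd := th_diff h
  have h1 : (fun w ↦ th τ (w + τ)) = fun w ↦ -e (-w) * th τ w := by
    ext w; exact th_add_tau h w
  have h2 : deriv (fun w ↦ th τ (w + τ)) z = deriv (th τ) (z + τ) := deriv_comp_add_const _ _ _
  have h3 : HasDerivAt (fun w ↦ -e (-w) * th τ w)
      (deriv (fun w ↦ -e (-w)) z * th τ z + -e (-z) * deriv (th τ) z) z :=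
    ((by fun_prop : Differentiable ℂ fun w ↦ -e (-w)) z).hasDerivAt.mul (hd z).hasDerivAt
  rw [← h2, h1, h3.deriv, h0, mul_zero, zero_add]

lemma th_lattice_nat {τ : ℂ} (h : 0 < τ.im) (l : ℕ) :
    th τ (l * τ) = 0 ∧ deriv (th τ) (l * τ) ≠ 0 := by
  induction l with
  | zero => simpa using ⟨th_at_zero τ, th_deriv_zero h⟩
  | succ l ih =>
    have : ((l + 1 : ℕ) : ℂ) * τ = l * τ + τ := by push_cast; ring
    rw [this]
    refine ⟨by rw [th_add_tau h, ih.1, mul_zero], ?_⟩
    rw [th_deriv_add_tau h ih.1]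
    exact mul_ne_zero (neg_ne_zero.mpr (e_ne_zero _)) ih.2

lemma th_lattice_neg {τ : ℂ} (h : 0 < τ.im) (l : ℕ) :
    th τ (-(l * τ)) = 0 ∧ deriv (th τ) (-(l * τ)) ≠ 0 := by
  induction l with
  | zero => simpa using ⟨th_at_zero τ, th_deriv_zero h⟩
  | succ l ih =>
    set w := -(((l + 1 : ℕ) : ℂ) * τ) with hw
    have hwt : w + τ = -(l * τ) := by rw [hw]; push_cast; ring
    have h0 : th τ w = 0 := by
      have := th_add_tau h w
      rw [hwt, ih.1] at this
      have h2 := mul_eq_zero.mp this.symm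
      exact h2.resolve_left (neg_ne_zero.mpr (e_ne_zero _))
    refine ⟨h0, ?_⟩
    have h3 := th_deriv_add_tau h h0
    rw [hwt] at h3
    intro h4
    apply ih.2
    rw [h3, h4, mul_zero]

lemma th_simple {τ : ℂ} (h : 0 < τ.im) {z : ℂ} (hz : th τ z = 0) : deriv (th τ) z ≠ 0 := by
  obtain ⟨l, u, rfl⟩ := th_zero h hz
  have hp : (fun w ↦ th τ (w + u)) = th τ := by
    ext w; exact th_periodic_int τ w u
  have hd : deriv (th τ) (l * τ + u) = deriv (th τ) (l * τ) := by
    rw [← deriv_comp_add_const, hp]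
  rw [hd]
  obtain ⟨n, rfl | rfl⟩ := l.eq_nat_or_neg
  · simpa using (th_lattice_nat h n).2
  · simpa using (th_lattice_neg h n).2

end Pool.Agent.Results.MP_386e47_ag.SpecialCycles
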